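import Mathlib

/-!
# Equations in three variables over fields: definitions
-/

set_option autoImplicit false

namespace Pool.Agent.R1

variable {K : Type} [Field K]

/-- no nonempty subset sum of the three coefficients vanishes -/
def ZSF (a b c : K) : Prop :=
  a ≠ 0 ∧ b ≠ 0 ∧ c ≠ 0 ∧ a + b ≠ 0 ∧ a + c ≠ 0 ∧ b + c ≠ 0 ∧ a + b + c ≠ 0

/-- the nonzero elements of `K` have an `n`-colouring without monochromatic solution of
`a x + b y + c z = 0` -/
def Good (n : ℕ) (a b c : K) : Prop :=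
  ∃ χ : K → Fin n, ∀ x y z : K, x ≠ 0 → y ≠ 0 → z ≠ 0 → a * x + b * y + c * z = 0 →
    ¬ (χ x = χ y ∧ χ y = χ z)

/-- the same for the nonzero elements of a finite set `S` -/
def GoodOn (n : ℕ) (a b c : K) (S : Finset K) : Prop :=
  ∃ χ : K → Fin n, ∀ x ∈ S, ∀ y ∈ S, ∀ z ∈ S, x ≠ 0 → y ≠ 0 → z ≠ 0 → a * x + b * y + c * z = 0 →
    ¬ (χ x = χ y ∧ χ y = χ z)

/-- the quantity of degree zero used to choose the place -/
noncomputable def VV (a b c : K) : K :=
  (a + b) * (a + c) * (b + c) * (a + b + c) ^ 3 / (a * b * c) ^ 2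

/-- For every `g` different from `0` and `1` there is an `n`-colouring such that `x` and `y` have
different colours whenever `x / y` is very close to `g` (relative to `g - 1` and to `g`). -/
def Cay (n : ℕ) (v : AbsoluteValue K ℝ) : Prop :=
  ∀ g : K, g ≠ 0 → g ≠ 1 → ∃ χ : K → Fin n, ∀ x y : K, x ≠ 0 → y ≠ 0 →
    256 * v (x - g * y) ≤ v (g - 1) * v y → 256 * v (x - g * y) ≤ v g * v y → χ x ≠ χ y

/-- the absolute values of the three coefficients differ at most by the factor `2 ^ 130` -/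
def Near (v : AbsoluteValue K ℝ) (a b c : K) : Prop :=
  v a ≤ 2 ^ 130 * v b ∧ v b ≤ 2 ^ 130 * v a ∧ v a ≤ 2 ^ 130 * v c ∧ v c ≤ 2 ^ 130 * v a ∧
    v b ≤ 2 ^ 130 * v c ∧ v c ≤ 2 ^ 130 * v b

end Pool.Agent.R1
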