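import Mathlib
import Pool.Agent.Lib.MP_1e1895_co.Defs

set_option autoImplicit false

namespace Pool.Agent.R1

/-- Row A1.  Cells on the real line, cyclic.
Recipe: `c u = (⌊u⌋ % Q).toNat`; `⌊u⌋ - ⌊w⌋ = Q k`, `u = ⌊u⌋ + fract u`. -/
theorem A1 (Q : ℕ) (hQ : 0 < Q) : ∃ c : ℝ → Fin Q, ∀ u w : ℝ, c u = c w →
    ∃ k : ℤ, |u - w - Q * k| < 1 := by
  have hQ' : (0 : ℤ) < (Q : ℤ) := by exact_mod_cast hQ
  have hlt : ∀ n : ℤ, (n % (Q : ℤ)).toNat < Q := by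
    intro n
    have h1 := Int.emod_nonneg n hQ'.ne'
    have h2 := Int.emod_lt_of_pos n hQ'
    omega
  refine ⟨fun u => ⟨(⌊u⌋ % (Q : ℤ)).toNat, hlt _⟩, fun u w h => ?_⟩
  have h0 : (⌊u⌋ % (Q : ℤ)).toNat = (⌊w⌋ % (Q : ℤ)).toNat := congrArg Fin.val h
  have h1 : ⌊u⌋ % (Q : ℤ) = ⌊w⌋ % (Q : ℤ) := by
    have h2 := Int.emod_nonneg ⌊u⌋ hQ'.ne'
    have h3 := Int.emod_nonneg ⌊w⌋ hQ'.ne'
    omega
  obtain ⟨k, hk⟩ : (Q : ℤ) ∣ ⌊u⌋ - ⌊w⌋ := Int.ModEq.dvd h1.symm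
  refine ⟨k, ?_⟩
  have h4 : ((⌊u⌋ : ℝ) - (⌊w⌋ : ℝ)) = (Q : ℝ) * (k : ℝ) := by exact_mod_cast hk
  have h5 := Int.floor_le u
  have h6 := Int.lt_floor_add_one u
  have h7 := Int.floor_le w
  have h8 := Int.lt_floor_add_one w
  rw [abs_lt]
  constructor <;> linarith

end Pool.Agent.R1
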