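import Mathlib
import Pool.Agent.Lib.MP_1e1895_co.Defs

set_option autoImplicit false

namespace Pool.Agent.R1

/-- Row A2.  Elementary facts on `Good` and `VV`: monotone, symmetric, homogeneous, pull back.
Recipe: compose colourings with `Fin.castLE`; permute the variables; multiply the equation by `t`; compose with `φ`; `ring`. -/
theorem A2 :
    (∀ (K : Type) [Field K] (a b c : K) (n m : ℕ), n ≤ m → Good n a b c → Good m a b c) ∧
    (∀ (K : Type) [Field K] (a b c : K) (n : ℕ), Good n a b c → Good n b a c ∧ Good n a c b) ∧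
    (∀ (K : Type) [Field K] (a b c t : K) (n : ℕ), t ≠ 0 → Good n (t * a) (t * b) (t * c) → Good n a b c) ∧
    (∀ (K L : Type) [Field K] [Field L] (φ : K →+* L) (a b c : K) (n : ℕ),
      Good n (φ a) (φ b) (φ c) → Good n a b c) ∧
    (∀ (K : Type) [Field K] (a b c : K), VV b a c = VV a b c ∧ VV a c b = VV a b c) ∧
    (∀ (K : Type) [Field K] (a b c t : K), t ≠ 0 → VV (t * a) (t * b) (t * c) = VV a b c) ∧
    (∀ (K L : Type) [Field K] [Field L] (φ : K →+* L) (a b c : K), VV (φ a) (φ b) (φ c) = φ (VV a b c)) ∧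
    (∀ (K : Type) [Field K] (a b c : K), ZSF a b c → ZSF b a c ∧ ZSF a c b) ∧
    (∀ (K L : Type) [Field K] [Field L] (φ : K →+* L) (a b c : K), ZSF a b c → ZSF (φ a) (φ b) (φ c)) ∧
    (∀ (K : Type) [Field K] (a b c : K), ZSF a b c → VV a b c ≠ 0) := by
  refine ⟨?_, ?_, ?_, ?_, ?_, ?_, ?_, ?_, ?_, ?_⟩
  · intro K _ a b c n m hnm ⟨χ, h⟩
    refine ⟨fun x => Fin.castLE hnm (χ x), fun x y z hx hy hz he hc => h x y z hx hy hz he ?_⟩
    exact ⟨Fin.castLE_injective hnm hc.1, Fin.castLE_injective hnm hc.2⟩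
  · intro K _ a b c n ⟨χ, h⟩
    refine ⟨⟨χ, fun x y z hx hy hz he hc => ?_⟩, ⟨χ, fun x y z hx hy hz he hc => ?_⟩⟩
    · exact h y x z hy hx hz (by rw [← he]; ring) ⟨hc.1.symm, hc.1.trans hc.2⟩
    · exact h x z y hx hz hy (by rw [← he]; ring) ⟨hc.1.trans hc.2, hc.2.symm⟩
  · intro K _ a b c t n ht ⟨χ, h⟩
    refine ⟨χ, fun x y z hx hy hz he hc => h x y z hx hy hz ?_ hc⟩
    have : t * a * x + t * b * y + t * c * z = t * (a * x + b * y + c * z) := by ring
    rw [this, he, mul_zero]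
  · intro K L _ _ φ a b c n ⟨χ, h⟩
    refine ⟨fun x => χ (φ x), fun x y z hx hy hz he hc => ?_⟩
    refine h (φ x) (φ y) (φ z) ((map_ne_zero φ).2 hx) ((map_ne_zero φ).2 hy)
      ((map_ne_zero φ).2 hz) ?_ hc
    rw [← map_mul, ← map_mul, ← map_mul, ← map_add, ← map_add, he, map_zero]
  · intro K _ a b c
    constructor
    · unfold VV
      rw [show (b + a) * (b + c) * (a + c) * (b + a + c) ^ 3 =
        (a + b) * (a + c) * (b + c) * (a + b + c) ^ 3 by ring, show b * a * c = a * b * c by ring]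
    · unfold VV
      rw [show (a + c) * (a + b) * (c + b) * (a + c + b) ^ 3 =
        (a + b) * (a + c) * (b + c) * (a + b + c) ^ 3 by ring, show a * c * b = a * b * c by ring]
  · intro K _ a b c t ht
    unfold VV
    rw [show (t * a + t * b) * (t * a + t * c) * (t * b + t * c) * (t * a + t * b + t * c) ^ 3 =
      t ^ 6 * ((a + b) * (a + c) * (b + c) * (a + b + c) ^ 3) by ring,
      show (t * a * (t * b) * (t * c)) ^ 2 = t ^ 6 * (a * b * c) ^ 2 by ring]
    exact mul_div_mul_left _ _ (pow_ne_zero 6 ht)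
  · intro K L _ _ φ a b c
    unfold VV
    simp only [map_div₀, map_mul, map_pow, map_add]
  · intro K _ a b c ⟨ha, hb, hc, hab, hac, hbc, habc⟩
    refine ⟨⟨hb, ha, hc, ?_, hbc, hac, ?_⟩, ⟨ha, hc, hb, hac, hab, ?_, ?_⟩⟩
    · rwa [add_comm]
    · rwa [add_comm b a]
    · rwa [add_comm]
    · rwa [add_right_comm]
  · intro K L _ _ φ a b c ⟨ha, hb, hc, hab, hac, hbc, habc⟩
    refine ⟨(map_ne_zero φ).2 ha, (map_ne_zero φ).2 hb, (map_ne_zero φ).2 hc, ?_, ?_, ?_, ?_⟩
    · rw [← map_add]; exact (map_ne_zero φ).2 hab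
    · rw [← map_add]; exact (map_ne_zero φ).2 hac
    · rw [← map_add]; exact (map_ne_zero φ).2 hbc
    · rw [← map_add, ← map_add]; exact (map_ne_zero φ).2 habc
  · intro K _ a b c ⟨ha, hb, hc, hab, hac, hbc, habc⟩
    unfold VV
    exact div_ne_zero (mul_ne_zero (mul_ne_zero (mul_ne_zero hab hac) hbc) (pow_ne_zero 3 habc))
      (pow_ne_zero 2 (mul_ne_zero (mul_ne_zero ha hb) hc))

end Pool.Agent.R1
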