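import Mathlib
import Pool.Agent.Lib.MP_1e1895_co.Defs

set_option autoImplicit false

namespace Pool.Agent.R1

/-- Row A3.  The two largest terms.  Recipe: case distinctions and `linarith`: if `t₁ ≤ t₃` then either `t₂ ≤ t₁`, `t₃ ≤ 2 t₁`, or `t₁ < t₂`,
`t₃ ≤ 2 t₂`, `t₂ ≤ 2 t₃`, contradiction; so `t₃ < t₁`, hence `2 t₃ < t₁`, `t₂ ≥ t₁ - t₃ > t₁ / 2`, `t₂ ≤ t₁ + t₃`. -/
theorem A3 (t₁ t₂ t₃ : ℝ) (p₁ : 0 < t₁) (p₂ : 0 < t₂) (p₃ : 0 < t₃) (h₁ : t₁ ≤ t₂ + t₃)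
    (h₂ : t₂ ≤ t₁ + t₃) (h₃ : t₃ ≤ t₁ + t₂) (n₁ : ¬ (t₁ ≤ 2 * t₃ ∧ t₃ ≤ 2 * t₁))
    (n₂ : ¬ (t₂ ≤ 2 * t₃ ∧ t₃ ≤ 2 * t₂)) : 2 * t₃ < t₁ ∧ t₁ ≤ 2 * t₂ ∧ t₂ ≤ 2 * t₁ := by
  by_cases h13 : t₁ ≤ t₃
  · exfalso
    by_cases h21 : t₂ ≤ t₁
    · exact n₁ ⟨by linarith, by linarith⟩
    · push Not at h21
      exact n₂ ⟨by linarith, by linarith⟩
  · push Not at h13
    have h2 : 2 * t₃ < t₁ := by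
      by_contra h
      push Not at h
      exact n₁ ⟨h, by linarith⟩
    exact ⟨h2, by linarith, by linarith⟩

end Pool.Agent.R1
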