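import Mathlib
import Pool.Agent.Lib.MP_1e1895_co.Defs

set_option autoImplicit false

namespace Pool.Agent.R1

/-- colour of an exponent -/
private def colB1 (m : ℕ) (n : ℤ) : Fin 3 :=
  if m = 0 then (if n % 2 = 0 then 0 else 1)
  else if n % (m : ℤ) = (m : ℤ) - 1 then 2 else if (n % (m : ℤ)) % 2 = 0 then 0 else 1

private theorem colB1_ne {m : ℕ} (hm : m ≠ 1) {a b : ℤ} (h : a ≡ b + 1 [ZMOD m]) :
    colB1 m a ≠ colB1 m b := by
  unfold colB1
  by_cases h0 : m = 0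
  · subst h0
    have h1 : a = b + 1 := by simpa [Int.modEq_zero_iff] using h
    simp only [if_true]
    subst h1
    split_ifs with h2 h3 h4
    · omega
    · simp
    · simp
    · omega
  · simp only [h0, if_false]
    have hmpos : 0 < (m : ℤ) := by omega
    obtain ⟨k, hk⟩ : ∃ k : ℤ, k = b % (m : ℤ) := ⟨_, rfl⟩
    obtain ⟨l, hl⟩ : ∃ l : ℤ, l = a % (m : ℤ) := ⟨_, rfl⟩
    have hk0 : 0 ≤ k := by rw [hk]; exact Int.emod_nonneg _ hmpos.ne'
    have hk1 : k < m := by rw [hk]; exact Int.emod_lt_of_pos _ hmpos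
    have hl' : l = (k + 1) % (m : ℤ) := by
      rw [hl, hk]
      have h1 : a % (m : ℤ) = (b + 1) % (m : ℤ) := h
      rw [h1, Int.add_emod, Int.add_emod (b % (m : ℤ)) 1, Int.emod_emod_of_dvd _ (dvd_refl _)]
    rw [← hk, ← hl]
    by_cases h2 : k = (m : ℤ) - 1
    · have h3 : l = 0 := by rw [hl', h2]; simp
      have h4 : ¬ (l = (m : ℤ) - 1) := by omega
      rw [if_neg h4, if_pos h2, h3]
      simp
    · have h3 : l = k + 1 := by
        rw [hl']
        exact Int.emod_eq_of_lt (by omega) (by omega)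
      rw [if_neg h2, h3]
      split_ifs <;> omega

private theorem auxB1 {Q : Type} [CommGroup Q] (γ : Q) (hγ : γ ≠ 1) :
    ∃ χ : Q → Fin 3, ∀ u : Q, χ (γ * u) ≠ χ u := by
  classical
  obtain ⟨Z, hZ⟩ : ∃ Z : Subgroup Q, Z = Subgroup.zpowers γ := ⟨_, rfl⟩
  obtain ⟨r, hr⟩ : ∃ r : Q → Q, r = fun (u : Q) => ((u : Q ⧸ Z)).out := ⟨_, rfl⟩
  have hmem : ∀ u : Q, ∃ n : ℤ, γ ^ n = (r u)⁻¹ * u := by
    intro u
    have h1 : ((r u : Q) : Q ⧸ Z) = (u : Q ⧸ Z) := by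
      rw [hr]
      exact QuotientGroup.out_eq' _
    have h2 := QuotientGroup.eq.1 h1
    rw [hZ, Subgroup.mem_zpowers_iff] at h2
    exact h2
  choose n hn using hmem
  have hrγ : ∀ u : Q, r (γ * u) = r u := by
    intro u
    rw [hr]
    simp only
    congr 1
    rw [QuotientGroup.eq, hZ, Subgroup.mem_zpowers_iff]
    refine ⟨-1, ?_⟩
    rw [zpow_neg_one, mul_inv, mul_assoc, inv_mul_cancel, mul_one]
  refine ⟨fun u => colB1 (orderOf γ) (n u), fun u => ?_⟩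
  apply colB1_ne
  · intro h
    exact hγ (orderOf_eq_one_iff.1 h)
  · rw [← zpow_eq_zpow_iff_modEq, hn, hrγ, zpow_add, hn, zpow_one]
    rw [mul_comm γ u, ← mul_assoc]

/-- Row B1.  Colouring the Cayley graph of one element of an abelian group.
Recipe: in `G ⧸ H` the class `γ` of `g` is not `1`.  It is enough to find `χ' : G ⧸ H → Fin 3` with `χ' (γ u) ≠ χ' u`.  Choose representatives of
`(G ⧸ H) ⧸ zpowers γ`; every `u` is `r γ^n` with `r` its representative.  If `γ` has infinite order `n` is unique, take `n mod 2`; if its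
order is `m ≥ 2`, take `n` with `0 ≤ n < m` and the colour `2` if `n = m - 1`, else `n mod 2`. -/
theorem B1 {G : Type} [CommGroup G] (H : Subgroup G) (g : G) (hg : g ∉ H) :
    ∃ χ : G → Fin 3, ∀ x y : G, x * y⁻¹ * g⁻¹ ∈ H → χ x ≠ χ y := by
  have hγ : ((g : G) : G ⧸ H) ≠ 1 := by
    intro h
    exact hg ((QuotientGroup.eq_one_iff g).1 h)
  obtain ⟨χ, hχ⟩ := auxB1 (Q := G ⧸ H) (g : G ⧸ H) hγ
  refine ⟨fun x => χ (x : G ⧸ H), fun x y hxy => ?_⟩
  have h1 : ((x : G) : G ⧸ H) = (g : G ⧸ H) * (y : G ⧸ H) := by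
    rw [← QuotientGroup.mk_mul, QuotientGroup.eq]
    have h2 := H.inv_mem hxy
    have h3 : (x * y⁻¹ * g⁻¹)⁻¹ = x⁻¹ * (g * y) := by
      rw [mul_inv, mul_inv, inv_inv, inv_inv, mul_assoc, mul_comm y g]
    rwa [h3] at h2
  show χ (x : G ⧸ H) ≠ χ (y : G ⧸ H)
  rw [h1]
  exact hχ _

end Pool.Agent.R1
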