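import Mathlib
import Pool.Agent.Lib.MP_1e1895_co.Defs
import Pool.Agent.Lib.MP_1e1895_co.B1

set_option autoImplicit false

namespace Pool.Agent.R1

private theorem b2_one {K : Type} [Field K] (v : AbsoluteValue K ℝ)
    (hv : ∀ x y : K, v (x + y) ≤ max (v x) (v y)) (u : K) (hu : v (u - 1) < 1) : v u = 1 := by
  apply le_antisymm
  · have h := hv (u - 1) 1
    rw [sub_add_cancel, map_one] at h
    exact h.trans (max_le hu.le le_rfl)
  · have h := hv u (-(u - 1))
    rw [show u + -(u - 1) = 1 by ring, map_one, v.map_neg] at h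
    rcases le_max_iff.mp h with h | h
    · exact h
    · exact absurd h (not_le.mpr hu)

private def b2H {K : Type} [Field K] (v : AbsoluteValue K ℝ)
    (hv : ∀ x y : K, v (x + y) ≤ max (v x) (v y)) (r : ℝ) (hr0 : 0 < r) (hr1 : r ≤ 1) :
    Subgroup Kˣ where
  carrier := {u | v ((u : K) - 1) < r}
  one_mem' := by
    simp only [Set.mem_ofPred_eq, Units.val_one, sub_self, map_zero]
    exact hr0
  mul_mem' := by
    intro a b ha hb
    simp only [Set.mem_ofPred_eq, Units.val_mul] at ha hb ⊢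
    have h1 : v (a : K) = 1 := b2_one v hv _ (ha.trans_le hr1)
    have h := hv ((a : K) * ((b : K) - 1)) ((a : K) - 1)
    rw [show (a : K) * ((b : K) - 1) + ((a : K) - 1) = (a : K) * (b : K) - 1 by ring, map_mul, h1,
      one_mul] at h
    exact h.trans_lt (max_lt hb ha)
  inv_mem' := by
    intro a ha
    simp only [Set.mem_ofPred_eq] at ha ⊢
    have h1 : v (a : K) = 1 := b2_one v hv _ (ha.trans_le hr1)
    have h0 : (a : K) ≠ 0 := a.ne_zero
    have h2 : ((a⁻¹ : Kˣ) : K) - 1 = -((a : K)⁻¹ * ((a : K) - 1)) := by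
      rw [Units.val_inv_eq_inv_val]
      field_simp
      ring
    rw [h2, v.map_neg, map_mul, map_inv₀, h1, inv_one, one_mul]
    exact ha

/-- Row B2.  The Cayley property for ultrametric absolute values.
Recipe: `ρ = min 1 (v (g - 1) / v g)`, `H = {u : Kˣ | v (u - 1) < ρ}` is a subgroup of `Kˣ` (`v u = 1`; `u w - 1 = u (w - 1) + (u - 1)`,
`u⁻¹ - 1 = - u⁻¹ (u - 1)`).  `g ∉ H`: `v (g - 1) < 1` gives `v g = 1`, and then `v (g - 1) < v (g - 1)`.  B1; if `x`, `y` are as in `Cay` then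
`v (x / (g y) - 1) = v (x - g y) / (v g * v y) < ρ`.  (Colour of `0`: anything.) -/
theorem B2 {K : Type} [Field K] (v : AbsoluteValue K ℝ) (hv : ∀ x y : K, v (x + y) ≤ max (v x) (v y)) :
    Cay 3 v := by
  intro g hg hg1
  have hvg : 0 < v g := v.pos hg
  have hvg1 : 0 < v (g - 1) := v.pos (sub_ne_zero.mpr hg1)
  have hr0 : 0 < min 1 (v (g - 1) / v g) := lt_min one_pos (div_pos hvg1 hvg)
  have hr1 : min 1 (v (g - 1) / v g) ≤ 1 := min_le_left _ _
  have hgH : Units.mk0 g hg ∉ b2H v hv (min 1 (v (g - 1) / v g)) hr0 hr1 := by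
    intro h
    change v (((Units.mk0 g hg : Kˣ) : K) - 1) < _ at h
    rw [Units.val_mk0] at h
    have h1 : v g = 1 := b2_one v hv g (h.trans_le hr1)
    have h2 := h.trans_le (min_le_right _ _)
    rw [h1, div_one] at h2
    exact lt_irrefl _ h2
  obtain ⟨χ, hχ⟩ := Pool.Agent.R1.B1 _ _ hgH
  classical
  refine ⟨fun x => if h : x = 0 then 0 else χ (Units.mk0 x h), ?_⟩
  intro x y hx hy h₁ h₂
  simp only [hx, hy, dif_neg, not_false_eq_true]
  apply hχ
  change v (((Units.mk0 x hx * (Units.mk0 y hy)⁻¹ * (Units.mk0 g hg)⁻¹ : Kˣ) : K) - 1) < _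
  have hvy : 0 < v y := v.pos hy
  have h3 : (((Units.mk0 x hx * (Units.mk0 y hy)⁻¹ * (Units.mk0 g hg)⁻¹ : Kˣ) : K) - 1) =
      (x - g * y) / (g * y) := by
    rw [Units.val_mul, Units.val_mul, Units.val_inv_eq_inv_val, Units.val_inv_eq_inv_val,
      Units.val_mk0, Units.val_mk0, Units.val_mk0]
    field_simp
  rw [h3, map_div₀, map_mul]
  have hgy : 0 < v g * v y := mul_pos hvg hvy
  have hpos : 0 < v (g - 1) * v y := mul_pos hvg1 hvy
  apply lt_min
  · rw [div_lt_one hgy]
    linarith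
  · rw [div_lt_div_iff₀ hgy hvg]
    have h4 : v (x - g * y) < v (g - 1) * v y := by linarith
    calc v (x - g * y) * v g < (v (g - 1) * v y) * v g := mul_lt_mul_of_pos_right h4 hvg
      _ = v (g - 1) * (v g * v y) := by ring

end Pool.Agent.R1
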