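import Mathlib
import Pool.Agent.Lib.MP_1e1895_co.Defs

set_option autoImplicit false

namespace Pool.Agent.R1

/-- Row B3.  The Cayley property for the complex numbers, preparation. -/
theorem B3 (g x y : ℂ) (hg : g ≠ 0) (hg1 : g ≠ 1) (hx : x ≠ 0) (hy : y ≠ 0)
    (h₁ : 256 * ‖x - g * y‖ ≤ ‖g - 1‖ * ‖y‖) (h₂ : 256 * ‖x - g * y‖ ≤ ‖g‖ * ‖y‖) :
    Complex.log g ≠ 0 ∧ ∃ m : ℂ, ‖m‖ ≤ ‖Complex.log g‖ / 20 ∧ x = y * Complex.exp (Complex.log g + m) := by
  have hexp : Complex.exp (Complex.log g) = g := Complex.exp_log hg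
  have hl : Complex.log g ≠ 0 := by
    intro h
    rw [h, Complex.exp_zero] at hexp
    exact hg1 hexp.symm
  refine ⟨hl, ?_⟩
  have hgn : 0 < ‖g‖ := norm_pos_iff.2 hg
  have hyn : 0 < ‖y‖ := norm_pos_iff.2 hy
  have hln : 0 < ‖Complex.log g‖ := norm_pos_iff.2 hl
  set η : ℂ := x / (g * y) - 1 with hη
  have hxe : x - g * y = g * y * η := by
    rw [hη]
    field_simp
  have hn : ‖x - g * y‖ = ‖g‖ * ‖y‖ * ‖η‖ := by rw [hxe, norm_mul, norm_mul]
  have e2 : 256 * ‖η‖ ≤ 1 := by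
    rw [hn] at h₂
    have h3 : (‖g‖ * ‖y‖) * (256 * ‖η‖) ≤ (‖g‖ * ‖y‖) * 1 := by linarith
    exact le_of_mul_le_mul_left h3 (by positivity)
  have e1 : 256 * (‖g‖ * ‖η‖) ≤ ‖g - 1‖ := by
    rw [hn] at h₁
    have h3 : ‖y‖ * (256 * (‖g‖ * ‖η‖)) ≤ ‖y‖ * ‖g - 1‖ := by linarith
    exact le_of_mul_le_mul_left h3 hyn
  have hη0 := norm_nonneg η
  have key : ‖η‖ ≤ 6 * ‖Complex.log g‖ / 256 := by
    rcases le_or_gt ‖Complex.log g‖ 1 with h1 | h1
    · have h4 := Complex.norm_exp_sub_one_le h1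
      rw [hexp] at h4
      have h5 : ‖g‖ = Real.exp (Complex.log g).re := by
        rw [← Complex.norm_exp, hexp]
      have h6 : -1 ≤ (Complex.log g).re := by
        have := Complex.abs_re_le_norm (Complex.log g)
        have := neg_abs_le (Complex.log g).re
        linarith
      have h7 : (1 : ℝ) / 3 ≤ ‖g‖ := by
        rw [h5]
        have h8 : Real.exp (-1) ≤ Real.exp (Complex.log g).re := Real.exp_le_exp.2 h6
        have h9 : (1 : ℝ) / 3 ≤ Real.exp (-1) := by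
          rw [Real.exp_neg, one_div]
          have := Real.exp_one_lt_d9
          apply inv_anti₀ (Real.exp_pos 1)
          linarith
        linarith
      nlinarith
    · linarith
  have hη2 : ‖η‖ ≤ 1 / 2 := by linarith
  refine ⟨Complex.log (1 + η), ?_, ?_⟩
  · have h3 := Complex.norm_log_one_add_half_le_self hη2
    have : (3 / 2 : ℝ) * ‖η‖ ≤ ‖Complex.log g‖ / 20 := by linarith
    linarith
  · have h1η : 1 + η ≠ 0 := by
      rw [hη]
      have : x / (g * y) ≠ 0 := div_ne_zero hx (mul_ne_zero hg hy)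
      simpa using this
    rw [Complex.exp_add, hexp, Complex.exp_log h1η, hη]
    field_simp
    ring

end Pool.Agent.R1
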