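import Mathlib
import Pool.Agent.Lib.MP_1e1895_co.Defs
import Pool.Agent.Lib.MP_1e1895_co.A1
import Pool.Agent.Lib.MP_1e1895_co.B3

set_option autoImplicit false

namespace Pool.Agent.R1

private theorem b4_far (β : ℝ) (K : ℤ) (h1 : 1.8 ≤ |β|) (h2 : |β| ≤ 7.7) : ¬ |β - 10 * K| < 1 := by
  intro h
  rcases lt_trichotomy K 0 with hK | hK | hK
  · have h3 : (K : ℝ) ≤ -1 := by exact_mod_cast (by omega : K ≤ -1)
    rw [abs_lt] at h
    rw [abs_le] at h2
    linarith
  · subst hK
    simp only [Int.cast_zero, mul_zero, sub_zero] at h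
    linarith
  · have h3 : (1 : ℝ) ≤ K := by exact_mod_cast (by omega : 1 ≤ K)
    rw [abs_lt] at h
    rw [abs_le] at h2
    linarith

private theorem b4_abs (p q r : ℝ) (h : |q| ≤ |p| / 10) (hr : 0 ≤ r) :
    9 / 10 * (r * |p|) ≤ |r * (p + q)| ∧ |r * (p + q)| ≤ 11 / 10 * (r * |p|) := by
  rw [abs_mul, abs_of_nonneg hr]
  have h1 : |p + q| ≤ |p| + |q| := abs_add_le p q
  have h2 : |p| - |q| ≤ |p + q| := by
    have := abs_sub_abs_le_abs_sub p (-q)
    rw [abs_neg, sub_neg_eq_add] at this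
    exact this
  constructor
  · have : r * (9 / 10 * |p|) ≤ r * |p + q| := mul_le_mul_of_nonneg_left (by linarith) hr
    linarith
  · have : r * |p + q| ≤ r * (11 / 10 * |p|) := mul_le_mul_of_nonneg_left (by linarith) hr
    linarith

/-- Row B4.  The Cayley property for the complex numbers. -/
theorem B4 (v : AbsoluteValue ℂ ℝ) (hv : ∀ z, v z = ‖z‖) : Cay 10 v := by
  intro g hg hg1
  obtain ⟨c, hc⟩ := A1 10 (by norm_num)
  have hl : Complex.log g ≠ 0 := by
    intro h
    apply hg1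
    rw [← Complex.exp_log hg, h, Complex.exp_zero]
  set l := Complex.log g with hldef
  have hl' : 0 < ‖l‖ := norm_pos_iff.mpr hl
  have key : ∀ x y : ℂ, x ≠ 0 → y ≠ 0 →
      256 * v (x - g * y) ≤ v (g - 1) * v y → 256 * v (x - g * y) ≤ v g * v y →
      ∃ m : ℂ, ‖m‖ ≤ ‖l‖ / 20 ∧ x = y * Complex.exp (l + m) := by
    intro x y hx hy h1 h2
    simp only [hv] at h1 h2
    exact (B3 g x y hg hg1 hx hy h1 h2).2
  by_cases hcase : ‖l‖ / 2 ≤ |l.re|
  · have hre : 0 < |l.re| := by linarith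
    refine ⟨fun x => c (2 * Real.log ‖x‖ / |l.re|), ?_⟩
    intro x y hx hy h1 h2 heq
    obtain ⟨m, hm, hxy⟩ := key x y hx hy h1 h2
    obtain ⟨k, hk⟩ := hc _ _ heq
    have hny : ‖y‖ ≠ 0 := norm_ne_zero_iff.mpr hy
    have hlog : Real.log ‖x‖ = Real.log ‖y‖ + (l.re + m.re) := by
      rw [hxy, norm_mul, Complex.norm_exp, Real.log_mul hny (Real.exp_ne_zero _), Real.log_exp,
        Complex.add_re]
    have hmre : |m.re| ≤ |l.re| / 10 := by
      have := Complex.abs_re_le_norm m
      linarith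
    have hb := b4_abs l.re m.re (2 / |l.re|) hmre (by positivity)
    have e1 : 2 / |l.re| * |l.re| = 2 := by field_simp
    rw [e1] at hb
    have e2 : 2 * Real.log ‖x‖ / |l.re| - 2 * Real.log ‖y‖ / |l.re| - ((10 : ℕ) : ℝ) * k =
        2 / |l.re| * (l.re + m.re) - 10 * (k : ℝ) := by
      rw [hlog]
      push_cast
      field_simp
      ring
    rw [e2] at hk
    exact b4_far _ k (by norm_num at hb ⊢; linarith [hb.1]) (by norm_num at hb ⊢; linarith [hb.2]) hk
  · push Not at hcase
    have him : ‖l‖ / 2 ≤ |l.im| := by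
      have h3 := Complex.norm_le_abs_re_add_abs_im l
      linarith
    have him0 : 0 < |l.im| := by linarith
    have himpi : |l.im| ≤ Real.pi := by
      rw [hldef, Complex.log_im]
      exact Complex.abs_arg_le_pi g
    have hpi := Real.pi_pos
    set a := |l.im| / (2 * Real.pi) with ha
    have ha0 : 0 < a := by positivity
    have ha1 : a ≤ 1 / 2 := by
      rw [ha, div_le_iff₀ (by positivity)]
      linarith
    obtain ⟨M, hM1, hM2⟩ : ∃ M : ℕ, 2 ≤ 10 * (M : ℝ) * a ∧ 10 * (M : ℝ) * a ≤ 7 := by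
      refine ⟨⌈1 / (5 * a)⌉₊, ?_, ?_⟩
      · have h4 := Nat.le_ceil (1 / (5 * a))
        have h5 : 1 / (5 * a) * (10 * a) ≤ (⌈1 / (5 * a)⌉₊ : ℝ) * (10 * a) :=
          mul_le_mul_of_nonneg_right h4 (by positivity)
        have h6 : 1 / (5 * a) * (10 * a) = 2 := by
          field_simp
          norm_num
        nlinarith
      · have h4 := (Nat.ceil_lt_add_one (a := 1 / (5 * a)) (by positivity)).le
        have h5 : (⌈1 / (5 * a)⌉₊ : ℝ) * (10 * a) ≤ (1 / (5 * a) + 1) * (10 * a) :=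
          mul_le_mul_of_nonneg_right h4 (by positivity)
        have h6 : (1 / (5 * a) + 1) * (10 * a) = 2 + 10 * a := by
          field_simp
          ring
        nlinarith
    refine ⟨fun x => c (10 * (M : ℝ) * x.arg / (2 * Real.pi)), ?_⟩
    intro x y hx hy h1 h2 heq
    obtain ⟨m, hm, hxy⟩ := key x y hx hy h1 h2
    obtain ⟨k, hk⟩ := hc _ _ heq
    have hmim : |m.im| ≤ |l.im| / 10 := by
      have := Complex.abs_im_le_norm m
      linarith
    obtain ⟨j, hj⟩ : ∃ j : ℤ, x.arg = y.arg + (l.im + m.im) + j * (2 * Real.pi) := by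
      have h7 : Complex.exp (Complex.log x) = Complex.exp (Complex.log y + (l + m)) := by
        rw [Complex.exp_log hx, Complex.exp_add, Complex.exp_log hy]
        exact hxy
      obtain ⟨n, hn⟩ := Complex.exp_eq_exp_iff_exists_int.mp h7
      refine ⟨n, ?_⟩
      have h8 := congrArg Complex.im hn
      simp only [Complex.add_im, Complex.log_im, Complex.mul_im, Complex.intCast_re, Complex.intCast_im,
        Complex.mul_re, Complex.I_re, Complex.I_im, Complex.ofReal_re, Complex.ofReal_im,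
        Complex.re_ofNat, Complex.im_ofNat] at h8
      rw [h8]
      ring
    have hb := b4_abs l.im m.im (10 * (M : ℝ) / (2 * Real.pi)) hmim (by positivity)
    have e1 : 10 * (M : ℝ) / (2 * Real.pi) * |l.im| = 10 * (M : ℝ) * a := by
      rw [ha]; ring
    rw [e1] at hb
    have e2 : 10 * (M : ℝ) * x.arg / (2 * Real.pi) - 10 * (M : ℝ) * y.arg / (2 * Real.pi) -
        ((10 : ℕ) : ℝ) * k =
        10 * (M : ℝ) / (2 * Real.pi) * (l.im + m.im) - 10 * ((k - M * j : ℤ) : ℝ) := by
      rw [hj]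
      push_cast
      field_simp
      ring
    rw [e2] at hk
    exact b4_far _ _ (by norm_num at hb ⊢; linarith [hb.1]) (by norm_num at hb ⊢; linarith [hb.2]) hk

end Pool.Agent.R1
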