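import Mathlib
import Pool.Agent.Lib.MP_1e1895_co.Defs
import Pool.Agent.Lib.MP_1e1895_co.A1

set_option autoImplicit false

namespace Pool.Agent.R1

open Pool.Agent.R1

/-- Row B5.  Cells in the complex plane. -/
theorem B5 (δ : ℝ) (hδ : 0 < δ) : ∃ n : ℕ, ∃ χ : ℂ → Fin n, ∀ x y : ℂ, x ≠ 0 → y ≠ 0 → χ x = χ y → ‖y‖ ≤ ‖x‖ →
    ‖y - x‖ ≤ δ * ‖x‖ ∨ ‖y‖ ≤ δ * ‖x‖ := by
  obtain ⟨s, hs⟩ := exists_nat_gt (4 / δ + 2)
  have hs2 : (2 : ℝ) < s := by
    have : 0 < 4 / δ := by positivity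
    linarith
  have hs0 : (0 : ℝ) < s := by linarith
  have hsδ : 4 / (s : ℝ) ≤ δ := by
    rw [div_le_iff₀ hs0]
    have h1 : 4 / δ < s := by linarith
    rw [div_lt_iff₀ hδ] at h1
    linarith
  obtain ⟨Q, hQ⟩ := exists_nat_gt (2 + |(s : ℝ) * Real.log (1 / δ)|)
  have hQ2 : (2 : ℝ) < Q := by
    have := abs_nonneg ((s : ℝ) * Real.log (1 / δ))
    linarith
  have hQ0 : 0 < Q := by
    have : (0 : ℝ) < Q := by linarith
    exact_mod_cast this
  have hQ1 : (s : ℝ) * Real.log (1 / δ) ≤ Q - 1 := by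
    have := le_abs_self ((s : ℝ) * Real.log (1 / δ))
    linarith
  obtain ⟨c, hc⟩ := A1 Q hQ0
  have hq : 0 < 7 * s + 1 := by omega
  refine ⟨Q * (7 * s + 1), fun x => finProdFinEquiv
    (c (s * Real.log ‖x‖), ⟨⌊(s : ℝ) * (x.arg + Real.pi)⌋₊ % (7 * s + 1), Nat.mod_lt _ hq⟩), ?_⟩
  intro x y hx hy hxy hle
  have hpair := finProdFinEquiv.injective hxy
  rw [Prod.mk.injEq] at hpair
  obtain ⟨h1, h2⟩ := hpair
  have h3 : ⌊(s : ℝ) * (x.arg + Real.pi)⌋₊ % (7 * s + 1) = ⌊(s : ℝ) * (y.arg + Real.pi)⌋₊ % (7 * s + 1) :=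
    congrArg Fin.val h2
  have hfl : ∀ z : ℂ, ⌊(s : ℝ) * (z.arg + Real.pi)⌋₊ < 7 * s + 1 ∧ 0 ≤ (s : ℝ) * (z.arg + Real.pi) := by
    intro z
    have ha := Complex.arg_le_pi z
    have hb := Complex.neg_pi_lt_arg z
    have hp := Real.pi_lt_d2
    have h0 : 0 ≤ (s : ℝ) * (z.arg + Real.pi) := by
      apply mul_nonneg hs0.le
      linarith
    refine ⟨?_, h0⟩
    have h4 : (s : ℝ) * (z.arg + Real.pi) < ((7 * s + 1 : ℕ) : ℝ) := by
      push_cast
      nlinarith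
    exact (Nat.floor_lt h0).2 h4
  rw [Nat.mod_eq_of_lt (hfl x).1, Nat.mod_eq_of_lt (hfl y).1] at h3
  have harg : |x.arg - y.arg| < 1 / s := by
    have e1 := Nat.floor_le (hfl x).2
    have e2 := Nat.floor_le (hfl y).2
    have e3 := Nat.lt_floor_add_one ((s : ℝ) * (x.arg + Real.pi))
    have e4 := Nat.lt_floor_add_one ((s : ℝ) * (y.arg + Real.pi))
    rw [h3] at e1 e3
    rw [lt_div_iff₀ hs0]
    have e5 : |x.arg - y.arg| * (s : ℝ) = |(s : ℝ) * (x.arg + Real.pi) - s * (y.arg + Real.pi)| := by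
      rw [show (s : ℝ) * (x.arg + Real.pi) - s * (y.arg + Real.pi) = (x.arg - y.arg) * s by ring,
        abs_mul, abs_of_pos hs0]
    rw [e5, abs_lt]
    constructor <;> linarith
  obtain ⟨k, hk⟩ := hc _ _ h1
  have hxn : 0 < ‖x‖ := norm_pos_iff.2 hx
  have hyn : 0 < ‖y‖ := norm_pos_iff.2 hy
  have hlog : Real.log ‖y‖ ≤ Real.log ‖x‖ := Real.log_le_log hyn hle
  have hlog' : 0 ≤ (s : ℝ) * Real.log ‖x‖ - s * Real.log ‖y‖ := by
    have := mul_le_mul_of_nonneg_left hlog hs0.le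
    linarith
  rw [abs_lt] at hk
  have hk0 : 0 ≤ k := by
    by_contra hneg
    have h5 : k ≤ -1 := by omega
    have h6 : (k : ℝ) ≤ -1 := by exact_mod_cast h5
    nlinarith [hk.1, hk.2]
  rcases hk0.eq_or_lt with h0 | hpos
  · left
    rw [← h0] at hk
    simp only [Int.cast_zero, mul_zero, sub_zero] at hk
    have hre : |Real.log ‖y‖ - Real.log ‖x‖| < 1 / s := by
      rw [lt_div_iff₀ hs0]
      have e5 : |Real.log ‖y‖ - Real.log ‖x‖| * (s : ℝ) = |(s : ℝ) * Real.log ‖y‖ - s * Real.log ‖x‖| := by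
        rw [show (s : ℝ) * Real.log ‖y‖ - s * Real.log ‖x‖ = (Real.log ‖y‖ - Real.log ‖x‖) * s by ring,
          abs_mul, abs_of_pos hs0]
      rw [e5, abs_lt]
      constructor <;> linarith [hk.1, hk.2]
    set w : ℂ := Complex.log y - Complex.log x with hw
    have hwn : ‖w‖ ≤ 2 / s := by
      refine (Complex.norm_le_abs_re_add_abs_im w).trans ?_
      have e1 : w.re = Real.log ‖y‖ - Real.log ‖x‖ := by
        rw [hw, Complex.sub_re, Complex.log_re, Complex.log_re]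
      have e2 : w.im = y.arg - x.arg := by
        rw [hw, Complex.sub_im, Complex.log_im, Complex.log_im]
      rw [e1, e2, abs_sub_comm y.arg x.arg]
      have : (2 : ℝ) / s = 1 / s + 1 / s := by ring
      linarith
    have hw1 : ‖w‖ ≤ 1 := by
      refine hwn.trans ?_
      rw [div_le_one hs0]
      exact hs2.le
    have hexp : y = x * Complex.exp w := by
      rw [hw, Complex.exp_sub, Complex.exp_log hy, Complex.exp_log hx]
      field_simp
    have hb := Complex.norm_exp_sub_one_le hw1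
    have e3 : y - x = x * (Complex.exp w - 1) := by
      rw [mul_sub, mul_one, ← hexp]
    rw [e3, norm_mul, mul_comm]
    refine mul_le_mul_of_nonneg_right ?_ hxn.le
    calc ‖Complex.exp w - 1‖ ≤ 2 * ‖w‖ := hb
      _ ≤ 2 * (2 / s) := by linarith
      _ = 4 / s := by ring
      _ ≤ δ := hsδ
  · right
    have h5 : (1 : ℤ) ≤ k := by omega
    have h6 : (1 : ℝ) ≤ (k : ℝ) := by exact_mod_cast h5
    have h7 : (Q : ℝ) ≤ Q * k := by nlinarith
    have h8 : (s : ℝ) * Real.log (1 / δ) ≤ (s : ℝ) * (Real.log ‖x‖ - Real.log ‖y‖) := by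
      linarith [hk.1]
    have h9 := le_of_mul_le_mul_left h8 hs0
    rw [one_div, Real.log_inv] at h9
    have h10 : Real.log ‖y‖ ≤ Real.log (δ * ‖x‖) := by
      rw [Real.log_mul hδ.ne' hxn.ne']
      linarith
    exact (Real.log_le_log_iff hyn (by positivity)).1 h10

end Pool.Agent.R1
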