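import Mathlib
import Pool.Agent.Lib.MP_1e1895_co.Defs
import Pool.Agent.Lib.MP_1e1895_co.B5

set_option autoImplicit false

namespace Pool.Agent.R1

theorem B6_aux {ε : ℝ} (hε : 0 < ε) {a b c u y z : ℂ} (hb : ‖b‖ ≤ 1) (hc : ‖c‖ ≤ 1)
    (ha0 : ε ≤ ‖a‖) (hab : ε ≤ ‖a + b‖) (hac : ε ≤ ‖a + c‖) (habc : ε ≤ ‖a + b + c‖) (hu : u ≠ 0)
    (hy : ‖y - u‖ ≤ ε / 8 * ‖u‖ ∨ ‖y‖ ≤ ε / 8 * ‖u‖) (hz : ‖z - u‖ ≤ ε / 8 * ‖u‖ ∨ ‖z‖ ≤ ε / 8 * ‖u‖)
    (h : a * u + b * y + c * z = 0) : False := by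
  have hu0 : 0 < ‖u‖ := norm_pos_iff.2 hu
  have key : ∀ (s r r' : ℂ), ε ≤ ‖s‖ → ‖r‖ ≤ ε / 8 * ‖u‖ → ‖r'‖ ≤ ε / 8 * ‖u‖ →
      s * u + b * r + c * r' = 0 → False := by
    intro s r r' hs hr hr' h0
    have h1 : s * u = -(b * r + c * r') := by linear_combination h0
    have h2 : ‖s‖ * ‖u‖ ≤ ‖b‖ * ‖r‖ + ‖c‖ * ‖r'‖ := by
      rw [← norm_mul, h1, norm_neg]
      refine (norm_add_le _ _).trans ?_
      rw [norm_mul, norm_mul]
    have h3 : ‖b‖ * ‖r‖ ≤ 1 * (ε / 8 * ‖u‖) := mul_le_mul hb hr (norm_nonneg _) zero_le_one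
    have h4 : ‖c‖ * ‖r'‖ ≤ 1 * (ε / 8 * ‖u‖) := mul_le_mul hc hr' (norm_nonneg _) zero_le_one
    have h5 : ε * ‖u‖ ≤ ‖s‖ * ‖u‖ := mul_le_mul_of_nonneg_right hs hu0.le
    have h6 : 0 < ε * ‖u‖ := mul_pos hε hu0
    linarith
  rcases hy with hy | hy <;> rcases hz with hz | hz
  · exact key (a + b + c) (y - u) (z - u) habc hy hz (by linear_combination h)
  · exact key (a + b) (y - u) z hab hy hz (by linear_combination h)
  · exact key (a + c) y (z - u) hac hy hz (by linear_combination h)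
  · exact key a y z ha0 hy hz (by linear_combination h)

/-- Row B6.  Nondegenerate coefficients in the complex plane.
Recipe: B5 with `δ = ε/8`; let `u` be one of `x, y, z` of largest norm; each `w ∈ {x, y, z}` is `ι u + r` with `ι ∈ {0, 1}`, `‖r‖ ≤ δ ‖u‖`, `ι = 1` for `w = u`.
So a nonempty subset sum of `a, b, c` has norm at most `3 δ < ε`. -/
theorem B6 (ε : ℝ) (hε : 0 < ε) : ∃ n : ℕ, ∀ a b c : ℂ, ‖a‖ ≤ 1 → ‖b‖ ≤ 1 → ‖c‖ ≤ 1 → ε ≤ ‖a‖ → ε ≤ ‖b‖ → ε ≤ ‖c‖ →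
    ε ≤ ‖a + b‖ → ε ≤ ‖a + c‖ → ε ≤ ‖b + c‖ → ε ≤ ‖a + b + c‖ → Good n a b c := by
  obtain ⟨n, χ, hχ⟩ := B5 (ε / 8) (by positivity)
  refine ⟨n, fun a b c ha hb hc ha0 hb0 hc0 hab hac hbc habc => ⟨χ, ?_⟩⟩
  rintro x y z hx hy hz h0 ⟨h1, h2⟩
  rcases le_total ‖y‖ ‖x‖ with hyx | hyx
  · rcases le_total ‖z‖ ‖x‖ with hzx | hzx
    · exact B6_aux hε hb hc ha0 hab hac habc hx (hχ x y hx hy h1 hyx)
        (hχ x z hx hz (h1.trans h2) hzx) h0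
    · have hyz := hyx.trans hzx
      exact B6_aux hε ha hb hc0 (by rwa [add_comm]) (by rwa [add_comm])
        (by rwa [show c + a + b = a + b + c by ring]) hz (hχ z x hz hx (h1.trans h2).symm hzx)
        (hχ z y hz hy h2.symm hyz) (by linear_combination h0)
  · rcases le_total ‖z‖ ‖y‖ with hzy | hzy
    · exact B6_aux hε ha hc hb0 (by rwa [add_comm]) hbc
        (by rwa [show b + a + c = a + b + c by ring]) hy (hχ y x hy hx h1.symm hyx)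
        (hχ y z hy hz h2 hzy) (by linear_combination h0)
    · have hxz := hyx.trans hzy
      exact B6_aux hε ha hb hc0 (by rwa [add_comm]) (by rwa [add_comm])
        (by rwa [show c + a + b = a + b + c by ring]) hz (hχ z x hz hx (h1.trans h2).symm hxz)
        (hχ z y hz hy h2.symm hzy) (by linear_combination h0)

end Pool.Agent.R1
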