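import Mathlib
import Pool.Agent.Lib.MP_1e1895_co.Defs
import Pool.Agent.Lib.MP_1e1895_co.A2
import Pool.Agent.Lib.MP_1e1895_co.B6

set_option autoImplicit false

namespace Pool.Agent.R1

private lemma B7_num (T M p q r U V W s : ℝ) (hM : T ^ 6 * 108 ≤ M)
    (hp : 1 ≤ T * p) (hq : 1 ≤ T * q)
    (hr : 1 ≤ T * r) (hU : 0 ≤ U) (hV : 0 ≤ V) (hW : 0 ≤ W) (hs : 0 ≤ s) (hU2 : U ≤ 2)
    (hV2 : V ≤ 2) (hW2 : W ≤ 2) (hs3 : s ≤ 3)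
    (h : (p * q * r) ^ 2 ≤ U * V * W * s ^ 3) :
    1 ≤ M * U ∧ 1 ≤ M * V ∧ 1 ≤ M * W ∧ 1 ≤ M * s := by
  have h1 : 1 ≤ T ^ 3 * (p * q * r) := by
    have e : T ^ 3 * (p * q * r) = (T * p) * (T * q) * (T * r) := by ring
    rw [e]
    exact one_le_mul_of_one_le_of_one_le (one_le_mul_of_one_le_of_one_le hp hq) hr
  have h2 : 1 ≤ T ^ 6 * (p * q * r) ^ 2 := by
    have e : T ^ 6 * (p * q * r) ^ 2 = (T ^ 3 * (p * q * r)) ^ 2 := by ring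
    rw [e]
    exact one_le_pow₀ h1
  have hT6 : 0 ≤ T ^ 6 := by positivity
  have h3 : 1 ≤ T ^ 6 * (U * V * W * s ^ 3) := h2.trans (mul_le_mul_of_nonneg_left h hT6)
  have hs27 : s ^ 3 ≤ 27 := by
    calc s ^ 3 ≤ 3 ^ 3 := pow_le_pow_left₀ hs hs3 3
      _ = 27 := by norm_num
  have hs0 : 0 ≤ s ^ 3 := by positivity
  have fin : ∀ X : ℝ, 0 ≤ X → T ^ 6 * (X * 108) ≤ M * X := by
    intro X hX
    calc T ^ 6 * (X * 108) = T ^ 6 * 108 * X := by ring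
      _ ≤ M * X := mul_le_mul_of_nonneg_right hM hX
  have key : ∀ X Y Z : ℝ, 0 ≤ X → 0 ≤ Y → 0 ≤ Z → Y ≤ 2 → Z ≤ 2 → 1 ≤ T ^ 6 * (X * Y * Z * s ^ 3) →
      1 ≤ M * X := by
    intro X Y Z hX hY hZ hY2 hZ2 h4
    have h5 : X * Y * Z * s ^ 3 ≤ X * 108 := by
      calc X * Y * Z * s ^ 3 ≤ X * 2 * 2 * 27 := by gcongr
        _ = X * 108 := by ring
    exact h4.trans ((mul_le_mul_of_nonneg_left h5 hT6).trans (fin X hX))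
  refine ⟨key U V W hU hV hW hV2 hW2 h3, key V U W hV hU hW hU2 hW2 ?_,
    key W U V hW hU hV hU2 hV2 ?_, ?_⟩
  · have e : V * U * W * s ^ 3 = U * V * W * s ^ 3 := by ring
    rw [e]; exact h3
  · have e : W * U * V * s ^ 3 = U * V * W * s ^ 3 := by ring
    rw [e]; exact h3
  · have h5 : U * V * W * s ^ 3 ≤ s * 108 := by
      have h8 : s ^ 3 ≤ s * (3 * 3) := by
        have : s ^ 3 = s * (s * s) := by ring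
        rw [this]
        gcongr
      calc U * V * W * s ^ 3 ≤ 2 * 2 * 2 * (s * (3 * 3)) := by gcongr
        _ = s * 72 := by ring
        _ ≤ s * 108 := by linarith
    exact h3.trans ((mul_le_mul_of_nonneg_left h5 hT6).trans (fin s hs))

private lemma B7_core (n : ℕ) (hn : ∀ a b c : ℂ, ‖a‖ ≤ 1 → ‖b‖ ≤ 1 → ‖c‖ ≤ 1 → 1 / 2 ^ 800 ≤ ‖a‖ →
      1 / 2 ^ 800 ≤ ‖b‖ → 1 / 2 ^ 800 ≤ ‖c‖ → 1 / 2 ^ 800 ≤ ‖a + b‖ → 1 / 2 ^ 800 ≤ ‖a + c‖ →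
      1 / 2 ^ 800 ≤ ‖b + c‖ → 1 / 2 ^ 800 ≤ ‖a + b + c‖ → Good n a b c)
    (a b c : ℂ) (h : a ≠ 0 ∧ b ≠ 0 ∧ c ≠ 0) (hV : 1 ≤ ‖VV a b c‖)
    (ha : ‖a‖ ≤ 1) (hb : ‖b‖ ≤ 1) (hc : ‖c‖ ≤ 1)
    (ha' : 1 ≤ 2 ^ 130 * ‖a‖) (hb' : 1 ≤ 2 ^ 130 * ‖b‖) (hc' : 1 ≤ 2 ^ 130 * ‖c‖) :
    Good n a b c := by
  obtain ⟨ha0, hb0, hc0⟩ := h
  have pa : 0 < ‖a‖ := norm_pos_iff.2 ha0
  have pb : 0 < ‖b‖ := norm_pos_iff.2 hb0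
  have pc : 0 < ‖c‖ := norm_pos_iff.2 hc0
  have hV' : (‖a‖ * ‖b‖ * ‖c‖) ^ 2 ≤ ‖a + b‖ * ‖a + c‖ * ‖b + c‖ * ‖a + b + c‖ ^ 3 := by
    have e : ‖VV a b c‖ = ‖a + b‖ * ‖a + c‖ * ‖b + c‖ * ‖a + b + c‖ ^ 3 / (‖a‖ * ‖b‖ * ‖c‖) ^ 2 := by
      unfold VV
      simp only [norm_div, norm_mul, norm_pow]
    rw [e, le_div_iff₀ (by positivity), one_mul] at hV
    exact hV
  have s3 : ‖a + b + c‖ ≤ 3 := by
    calc ‖a + b + c‖ ≤ ‖a‖ + ‖b‖ + ‖c‖ := norm_add₃_le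
      _ ≤ 3 := by linarith
  have U2 : ‖a + b‖ ≤ 2 := (norm_add_le a b).trans (by linarith)
  have V2 : ‖a + c‖ ≤ 2 := (norm_add_le a c).trans (by linarith)
  have W2 : ‖b + c‖ ≤ 2 := (norm_add_le b c).trans (by linarith)
  have hM : ((2:ℝ) ^ 130) ^ 6 * 108 ≤ 2 ^ 800 := by
    have e : (2:ℝ) ^ 800 = (2 ^ 130) ^ 6 * 2 ^ 20 := by
      rw [← pow_mul, ← pow_add]
    rw [e]
    apply mul_le_mul_of_nonneg_left _ (by positivity)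
    norm_num
  obtain ⟨k1, k2, k3, k4⟩ := B7_num (2 ^ 130) (2 ^ 800) ‖a‖ ‖b‖ ‖c‖ ‖a + b‖ ‖a + c‖ ‖b + c‖ ‖a + b + c‖
    hM ha' hb' hc'
    (norm_nonneg _) (norm_nonneg _) (norm_nonneg _) (norm_nonneg _) U2 V2 W2 s3 hV'
  have conv : ∀ X : ℝ, 1 ≤ 2 ^ 800 * X → 1 / 2 ^ 800 ≤ X := by
    intro X hX
    rw [div_le_iff₀ (by positivity), mul_comm]
    exact hX
  have conv' : ∀ X : ℝ, 0 ≤ X → 1 ≤ 2 ^ 130 * X → 1 / 2 ^ 800 ≤ X := by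
    intro X h0 hX
    apply conv
    refine hX.trans ?_
    apply mul_le_mul_of_nonneg_right _ h0
    exact pow_le_pow_right₀ (by norm_num) (by norm_num)
  exact hn a b c ha hb hc (conv' _ pa.le ha') (conv' _ pb.le hb') (conv' _ pc.le hc') (conv _ k1)
    (conv _ k2) (conv _ k3) (conv _ k4)

/-- Row B7.  Comparable complex coefficients.
Recipe: divide by the coefficient of largest norm (A2), so all norms are in `[2^(-130), 1]`; then `‖a+b‖ ‖a+c‖ ‖b+c‖ ‖a+b+c‖^3 ≥ ‖a b c‖^2 ≥ 2^(-780)` while the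
pair sums have norm at most `2` and `‖a+b+c‖ ≤ 4`: all subset sums have norm at least `2^(-800)` (for the last one `‖s‖^3 ≤ 16 ‖s‖`).  B6. -/
theorem B7 : ∃ n : ℕ, ∀ (v : AbsoluteValue ℂ ℝ), (∀ z, v z = ‖z‖) → ∀ a b c : ℂ, ZSF a b c → 1 ≤ v (VV a b c) →
    Near v a b c → Good n a b c := by
  obtain ⟨n, hn⟩ := B6 (1 / 2 ^ 800) (by positivity)
  refine ⟨n, ?_⟩
  intro v hv a b c hZ hV hN
  rw [hv] at hV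
  obtain ⟨n1, n2, n3, n4, n5, n6⟩ := hN
  simp only [hv] at n1 n2 n3 n4 n5 n6
  obtain ⟨-, -, a2t, -, -, a2v, -⟩ := A2
  obtain ⟨ha0, hb0, hc0, -⟩ := hZ
  have main : ∀ t : ℂ, t ≠ 0 → ‖a‖ ≤ ‖t‖ → ‖b‖ ≤ ‖t‖ → ‖c‖ ≤ ‖t‖ → ‖t‖ ≤ 2 ^ 130 * ‖a‖ →
      ‖t‖ ≤ 2 ^ 130 * ‖b‖ → ‖t‖ ≤ 2 ^ 130 * ‖c‖ → Good n a b c := by
    intro t ht h1 h2 h3 h4 h5 h6
    have ht' : t⁻¹ ≠ 0 := inv_ne_zero ht
    have pt : 0 < ‖t‖ := norm_pos_iff.2 ht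
    apply a2t ℂ a b c t⁻¹ n ht'
    apply B7_core n hn
    · exact ⟨mul_ne_zero ht' ha0, mul_ne_zero ht' hb0, mul_ne_zero ht' hc0⟩
    · rw [a2v ℂ a b c t⁻¹ ht']; exact hV
    all_goals rw [norm_mul, norm_inv]
    · rw [inv_mul_le_iff₀ pt]; linarith
    · rw [inv_mul_le_iff₀ pt]; linarith
    · rw [inv_mul_le_iff₀ pt]; linarith
    · have e : (2:ℝ) ^ 130 * (‖t‖⁻¹ * ‖a‖) = ‖t‖⁻¹ * (2 ^ 130 * ‖a‖) := by ring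
      rw [e, le_inv_mul_iff₀ pt]; linarith
    · have e : (2:ℝ) ^ 130 * (‖t‖⁻¹ * ‖b‖) = ‖t‖⁻¹ * (2 ^ 130 * ‖b‖) := by ring
      rw [e, le_inv_mul_iff₀ pt]; linarith
    · have e : (2:ℝ) ^ 130 * (‖t‖⁻¹ * ‖c‖) = ‖t‖⁻¹ * (2 ^ 130 * ‖c‖) := by ring
      rw [e, le_inv_mul_iff₀ pt]; linarith
  have self : ∀ x : ℂ, ‖x‖ ≤ 2 ^ 130 * ‖x‖ := by
    intro x
    have := norm_nonneg x
    nlinarith
  by_cases hab : ‖a‖ ≤ ‖b‖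
  · by_cases hbc : ‖b‖ ≤ ‖c‖
    · exact main c hc0 (hab.trans hbc) hbc le_rfl n4 n6 (self c)
    · exact main b hb0 hab le_rfl (not_le.1 hbc).le n2 (self b) n5
  · have hab' := (not_le.1 hab).le
    by_cases hac : ‖a‖ ≤ ‖c‖
    · exact main c hc0 hac (hab'.trans hac) le_rfl n4 n6 (self c)
    · exact main a ha0 le_rfl hab' (not_le.1 hac).le (self a) n1 n3

end Pool.Agent.R1
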