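import Mathlib
import Pool.Agent.Lib.MP_1e1895_co.Defs
import Pool.Agent.Lib.MP_1e1895_co.A1

set_option autoImplicit false

namespace Pool.Agent.R1

/-- Row C1.  Colouring by scale.  Recipe: A1 with `Q = 4` at `2 log (v x) / D`: the difference has absolute value in `[1.8, 2.2]`. -/
theorem C1 {K : Type} [Field K] (v : AbsoluteValue K ℝ) (D : ℝ) (hD : 0 < D) :
    ∃ χ : K → Fin 4, ∀ x y : K, 9 / 10 * D ≤ |Real.log (v x) - Real.log (v y)| →
      |Real.log (v x) - Real.log (v y)| ≤ 11 / 10 * D → χ x ≠ χ y := by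
  obtain ⟨c, hc⟩ := Pool.Agent.R1.A1 4 (by norm_num)
  refine ⟨fun x => c (2 * Real.log (v x) / D), fun x y h1 h2 hxy => ?_⟩
  obtain ⟨k, hk⟩ := hc _ _ hxy
  set L := Real.log (v x) - Real.log (v y) with hL
  have e : 2 * Real.log (v x) / D - 2 * Real.log (v y) / D = 2 * (L / D) := by
    rw [hL]
    field_simp
  rw [e] at hk
  have h3 : 9 / 10 ≤ |L / D| := by
    rw [abs_div, abs_of_pos hD, le_div_iff₀ hD]
    exact h1
  have h4 : |L / D| ≤ 11 / 10 := by
    rw [abs_div, abs_of_pos hD, div_le_iff₀ hD]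
    exact h2
  obtain ⟨h5, h6⟩ := abs_lt.1 hk
  obtain ⟨h7, h8⟩ := abs_le.1 h4
  push_cast at h5 h6
  rcases le_abs'.1 h3 with h9 | h9
  · have a1 : (k : ℝ) < 0 := by linarith
    have a2 : (-1 : ℝ) < (k : ℝ) := by linarith
    have a3 : k < 0 := by exact_mod_cast a1
    have a4 : (-1 : ℤ) < k := by exact_mod_cast a2
    omega
  · have a1 : (0 : ℝ) < (k : ℝ) := by linarith
    have a2 : (k : ℝ) < 1 := by linarith
    have a3 : 0 < k := by exact_mod_cast a1
    have a4 : k < 1 := by exact_mod_cast a2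
    omega

end Pool.Agent.R1
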