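import Mathlib
import Pool.Agent.Lib.MP_1e1895_co.Defs
import Pool.Agent.Lib.MP_1e1895_co.A3
import Pool.Agent.Lib.MP_1e1895_co.C1

set_option autoImplicit false

namespace Pool.Agent.R1

private theorem C2_aux {K : Type} [Field K] (v : AbsoluteValue K ℝ) (p q : K) (hp : p ≠ 0) (hq : q ≠ 0)
    (h : 2 ^ 10 * v q ≤ v p) : ∃ χ : K → Fin 4, ∀ x y : K, x ≠ 0 → y ≠ 0 → v (p * x) ≤ 2 * v (q * y) →
      v (q * y) ≤ 2 * v (p * x) → χ x ≠ χ y := by
  have hvp : 0 < v p := v.pos hp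
  have hvq : 0 < v q := v.pos hq
  have hl2 : 0 < Real.log 2 := Real.log_pos (by norm_num)
  have hD : 10 * Real.log 2 ≤ Real.log (v p) - Real.log (v q) := by
    have h1 := Real.log_le_log (by positivity) h
    rw [Real.log_mul (by norm_num) hvq.ne', Real.log_pow] at h1
    push_cast at h1
    linarith
  obtain ⟨χ, hχ⟩ := C1 v (Real.log (v p) - Real.log (v q)) (by linarith)
  refine ⟨χ, fun x y hx hy h1 h2 => ?_⟩
  have hvx : 0 < v x := v.pos hx
  have hvy : 0 < v y := v.pos hy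
  rw [map_mul, map_mul] at h1 h2
  have h3 := Real.log_le_log (by positivity) h1
  have h4 := Real.log_le_log (by positivity) h2
  rw [Real.log_mul hvp.ne' hvx.ne', Real.log_mul (by norm_num) (by positivity),
    Real.log_mul hvq.ne' hvy.ne'] at h3
  rw [Real.log_mul hvq.ne' hvy.ne', Real.log_mul (by norm_num) (by positivity),
    Real.log_mul hvp.ne' hvx.ne'] at h4
  have hneg : Real.log (v x) - Real.log (v y) ≤ 0 := by linarith
  apply hχ
  · rw [abs_of_nonpos hneg]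
    linarith
  · rw [abs_of_nonpos hneg]
    linarith

/-- Row C2.  All three coefficients have very different size.
Recipe: three colourings C1, `D = log (v a / v b)`, `log (v b / v c)`, `log (v a / v c)`, all at least `10 log 2` (combine with `finProdFinEquiv`).  For a solution let
`t₁ = v (a x)`, `t₂ = v (b y)`, `t₃ = v (c z)`; by A3 some two of them differ at most by the factor `2`, e.g. `t₁, t₂`: then
`|log (v a / v b) + log (v x) - log (v y)| ≤ log 2 ≤ D/10`. -/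
theorem C2 {K : Type} [Field K] (v : AbsoluteValue K ℝ) (a b c : K) (ha : a ≠ 0) (hb : b ≠ 0) (hc : c ≠ 0)
    (h₁ : 2 ^ 10 * v b ≤ v a) (h₂ : 2 ^ 10 * v c ≤ v b) : Good 64 a b c := by
  have hvb : 0 < v b := v.pos hb
  have hvc : 0 < v c := v.pos hc
  obtain ⟨χ1, hχ1⟩ := C2_aux v a b ha hb h₁
  obtain ⟨χ2, hχ2⟩ := C2_aux v b c hb hc h₂
  obtain ⟨χ3, hχ3⟩ := C2_aux v a c ha hc (by nlinarith)
  obtain ⟨χ, hχ⟩ : ∃ χ : K → Fin 64, ∀ x y, χ x = χ y → χ1 x = χ1 y ∧ χ2 x = χ2 y ∧ χ3 x = χ3 y := by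
    refine ⟨fun x => (finProdFinEquiv (finProdFinEquiv (χ1 x, χ2 x), χ3 x) : Fin (4 * 4 * 4)), ?_⟩
    intro x y hxy
    have h1 := finProdFinEquiv.injective hxy
    have h2 := congrArg Prod.fst h1
    have h3 := finProdFinEquiv.injective h2
    exact ⟨congrArg Prod.fst h3, congrArg Prod.snd h3, congrArg Prod.snd h1⟩
  refine ⟨χ, fun x y z hx hy hz heq hcol => ?_⟩
  have hxy := hχ x y hcol.1
  have hyz := hχ y z hcol.2
  have hxz := hχ x z (hcol.1.trans hcol.2)
  have n12 : ¬ (v (a * x) ≤ 2 * v (b * y) ∧ v (b * y) ≤ 2 * v (a * x)) := fun h =>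
    hχ1 x y hx hy h.1 h.2 hxy.1
  have n23 : ¬ (v (b * y) ≤ 2 * v (c * z) ∧ v (c * z) ≤ 2 * v (b * y)) := fun h =>
    hχ2 y z hy hz h.1 h.2 hyz.2.1
  have n13 : ¬ (v (a * x) ≤ 2 * v (c * z) ∧ v (c * z) ≤ 2 * v (a * x)) := fun h =>
    hχ3 x z hx hz h.1 h.2 hxz.2.2
  have p1 : 0 < v (a * x) := v.pos (mul_ne_zero ha hx)
  have p2 : 0 < v (b * y) := v.pos (mul_ne_zero hb hy)
  have p3 : 0 < v (c * z) := v.pos (mul_ne_zero hc hz)
  have e1 : v (a * x) ≤ v (b * y) + v (c * z) := by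
    have e : a * x = -(b * y + c * z) := by linear_combination heq
    rw [e, v.map_neg]
    exact v.add_le _ _
  have e2 : v (b * y) ≤ v (a * x) + v (c * z) := by
    have e : b * y = -(a * x + c * z) := by linear_combination heq
    rw [e, v.map_neg]
    exact v.add_le _ _
  have e3 : v (c * z) ≤ v (a * x) + v (b * y) := by
    have e : c * z = -(a * x + b * y) := by linear_combination heq
    rw [e, v.map_neg]
    exact v.add_le _ _
  have hfin := A3 _ _ _ p1 p2 p3 e1 e2 e3 n13 n23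
  exact n12 ⟨hfin.2.1, hfin.2.2⟩

end Pool.Agent.R1
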