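import Mathlib
import Pool.Agent.Lib.MP_1e1895_co.Defs
import Pool.Agent.Lib.MP_1e1895_co.A1
import Pool.Agent.Lib.MP_1e1895_co.A3

set_option autoImplicit false

namespace Pool.Agent.R1

private theorem aux1 (D lam L : ℝ) (k : ℤ) (hL : 0 < L) (h1 : |lam| = L) (h2 : |D - lam| ≤ 11 / 120 * L)
    (h3 : |4 * D - 20 * k * L| < L) : False := by
  obtain ⟨a1, a2⟩ := abs_le.1 h2
  obtain ⟨b1, b2⟩ := abs_lt.1 h3
  rcases abs_eq (le_of_lt hL) |>.1 h1 with h | h
  · subst h
    rcases le_or_gt k 0 with hk | hk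
    · have hk' : (k : ℝ) ≤ 0 := by exact_mod_cast hk
      nlinarith
    · have hk' : (1 : ℝ) ≤ k := by exact_mod_cast hk
      nlinarith
  · subst h
    rcases le_or_gt k (-1) with hk | hk
    · have hk' : (k : ℝ) ≤ -1 := by exact_mod_cast hk
      nlinarith
    · have hk0 : 0 ≤ k := by omega
      have hk' : (0 : ℝ) ≤ k := by exact_mod_cast hk0
      nlinarith

private theorem logcmp (s t : ℝ) (hs : 0 < s) (ht : 0 < t) (h : s ≤ 2 * t ∧ t ≤ 2 * s) :
    |Real.log s - Real.log t| ≤ Real.log 2 := by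
  have e1 : Real.log s ≤ Real.log 2 + Real.log t := by
    rw [← Real.log_mul (by norm_num) ht.ne']
    exact Real.log_le_log hs h.1
  have e2 : Real.log t ≤ Real.log 2 + Real.log s := by
    rw [← Real.log_mul (by norm_num) hs.ne']
    exact Real.log_le_log ht h.2
  rw [abs_le]
  constructor <;> linarith

/-- Row C3.  Two comparable coefficients `P`, `Q` and a very different one `R`: the scale colouring.
Recipe: colour `c (4 log (v x) / |lam|)` (A1, `Q = 20`).  `t₁ = v (P x)`, `t₂ = v (Q y)`, `t₃ = v (R z)`, `l_x = log (v x)` etc.  If `t₁, t₃` (resp. `t₂, t₃`) differ at most by the factor `2`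
then `|l_x - l_z - lam| ≤ log 2` (resp. `|l_y - l_z - lam| ≤ 11 log 2 < |lam|/10`), so `4 (l_x - l_z)/|lam|` is within `0.4` of `± 4`, not within `1` of a multiple of `20`.
So A3: `2 t₃ < t₁ ≤ 2 t₂`.  `l_z - l_x < - lam`; `4 (l_z - l_x)/|lam| = 20 k + θ`, `|θ| < 1`.  If `lam < 0` this is `< 4`, so `k ≤ 0`, it is `< 1` and
`t₃ ≤ t₁ exp (-|lam| + |lam|/4)`.  If `lam > 0` it is `< - 4`, so `k ≤ -1`, it is `< -19` and `t₃ ≤ t₁ exp (lam - 19 lam/4)`. -/
theorem C3 {K : Type} [Field K] (v : AbsoluteValue K ℝ) (P Q R : K) (hP : P ≠ 0) (hQ : Q ≠ 0) (hR : R ≠ 0)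
    (h₁ : v P ≤ 2 ^ 10 * v Q) (h₂ : v Q ≤ 2 ^ 10 * v P) (lam : ℝ) (hlam : lam = Real.log (v R / v P))
    (h₃ : 120 * Real.log 2 ≤ |lam|) :
    ∃ χ : K → Fin 20, ∀ x y z : K, x ≠ 0 → y ≠ 0 → z ≠ 0 → P * x + Q * y + R * z = 0 → χ x = χ y → χ y = χ z →
      v (R * z) ≤ 2 * v (Q * y) * Real.exp (-(3 / 4) * |lam|) ∧
      (0 < lam → v (R * z) ≤ 2 * v (Q * y) * Real.exp (-(15 / 4) * |lam|)) := by
  classical
  obtain ⟨c, hc⟩ := A1 20 (by norm_num)
  have hlog2 : 0 < Real.log 2 := Real.log_pos (by norm_num)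
  set L : ℝ := |lam| with hLdef
  have hL : 0 < L := by linarith
  have pP : 0 < v P := v.pos hP
  have pQ : 0 < v Q := v.pos hQ
  have pR : 0 < v R := v.pos hR
  have hlam' : lam = Real.log (v R) - Real.log (v P) := by
    rw [hlam, Real.log_div pR.ne' pP.ne']
  have hPQ : |Real.log (v P) - Real.log (v Q)| ≤ 10 * Real.log 2 := by
    have e : Real.log (2 ^ 10) = 10 * Real.log 2 := by
      rw [Real.log_pow]; norm_num
    have e1 : Real.log (v P) ≤ Real.log (2 ^ 10) + Real.log (v Q) := by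
      rw [← Real.log_mul (by positivity) pQ.ne']
      exact Real.log_le_log pP h₁
    have e2 : Real.log (v Q) ≤ Real.log (2 ^ 10) + Real.log (v P) := by
      rw [← Real.log_mul (by positivity) pP.ne']
      exact Real.log_le_log pQ h₂
    rw [abs_le]
    constructor <;> linarith
  refine ⟨fun x => c (4 * Real.log (v x) / L), ?_⟩
  intro x y z hx hy hz heq hxy hyz
  have px : 0 < v x := v.pos hx
  have py : 0 < v y := v.pos hy
  have pz : 0 < v z := v.pos hz
  have key : ∀ u w : K, c (4 * Real.log (v u) / L) = c (4 * Real.log (v w) / L) →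
      ∃ k : ℤ, |4 * (Real.log (v u) - Real.log (v w)) - 20 * k * L| < L := by
    intro u w h
    obtain ⟨k, hk⟩ := hc _ _ h
    refine ⟨k, ?_⟩
    have e : 4 * (Real.log (v u) - Real.log (v w)) - 20 * k * L =
        (4 * Real.log (v u) / L - 4 * Real.log (v w) / L - (20 : ℕ) * k) * L := by
      push_cast
      field_simp
    rw [e, abs_mul, abs_of_pos hL]
    calc |4 * Real.log (v u) / L - 4 * Real.log (v w) / L - (20 : ℕ) * k| * L < 1 * L := by
          apply mul_lt_mul_of_pos_right hk hL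
      _ = L := one_mul L
  have t1 : 0 < v (P * x) := v.pos (mul_ne_zero hP hx)
  have t2 : 0 < v (Q * y) := v.pos (mul_ne_zero hQ hy)
  have t3 : 0 < v (R * z) := v.pos (mul_ne_zero hR hz)
  have l1 : Real.log (v (P * x)) = Real.log (v P) + Real.log (v x) := by
    rw [map_mul, Real.log_mul pP.ne' px.ne']
  have l2 : Real.log (v (Q * y)) = Real.log (v Q) + Real.log (v y) := by
    rw [map_mul, Real.log_mul pQ.ne' py.ne']
  have l3 : Real.log (v (R * z)) = Real.log (v R) + Real.log (v z) := by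
    rw [map_mul, Real.log_mul pR.ne' pz.ne']
  have s1 : v (P * x) ≤ v (Q * y) + v (R * z) := by
    have e : P * x = -(Q * y + R * z) := by linear_combination heq
    rw [e, v.map_neg]
    exact v.add_le _ _
  have s2 : v (Q * y) ≤ v (P * x) + v (R * z) := by
    have e : Q * y = -(P * x + R * z) := by linear_combination heq
    rw [e, v.map_neg]
    exact v.add_le _ _
  have s3 : v (R * z) ≤ v (P * x) + v (Q * y) := by
    have e : R * z = -(P * x + Q * y) := by linear_combination heq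
    rw [e, v.map_neg]
    exact v.add_le _ _
  have n1 : ¬ (v (P * x) ≤ 2 * v (R * z) ∧ v (R * z) ≤ 2 * v (P * x)) := by
    intro h
    have h4 := logcmp _ _ t1 t3 h
    rw [l1, l3] at h4
    obtain ⟨k, hk⟩ := key x z (hxy.trans hyz)
    refine aux1 (Real.log (v x) - Real.log (v z)) lam L k hL hLdef.symm ?_ hk
    rw [hlam']
    rw [abs_le] at h4 ⊢
    constructor <;> linarith [h4.1, h4.2]
  have n2 : ¬ (v (Q * y) ≤ 2 * v (R * z) ∧ v (R * z) ≤ 2 * v (Q * y)) := by
    intro h
    have h4 := logcmp _ _ t2 t3 h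
    rw [l2, l3] at h4
    obtain ⟨k, hk⟩ := key y z hyz
    refine aux1 (Real.log (v y) - Real.log (v z)) lam L k hL hLdef.symm ?_ hk
    rw [hlam']
    rw [abs_le] at h4 hPQ ⊢
    constructor <;> linarith [h4.1, h4.2, hPQ.1, hPQ.2]
  obtain ⟨m1, m2, m3⟩ := A3 _ _ _ t1 t2 t3 s1 s2 s3 n1 n2
  have hlt : Real.log (v z) - Real.log (v x) < -lam := by
    have h4 : Real.log (v (R * z)) < Real.log (v (P * x)) := Real.log_lt_log t3 (by linarith)
    rw [l1, l3] at h4
    linarith
  obtain ⟨k, hk⟩ := key z x (hxy.trans hyz).symm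
  obtain ⟨k1, k2⟩ := abs_lt.1 hk
  have conc : ∀ r : ℝ, Real.log (v (R * z)) - Real.log (v (P * x)) ≤ -r →
      v (R * z) ≤ 2 * v (Q * y) * Real.exp (-r) := by
    intro r hr
    have h5 : v (R * z) ≤ v (P * x) * Real.exp (-r) := by
      rw [← Real.exp_log t3]
      nth_rewrite 1 [← Real.exp_log t1]
      rw [← Real.exp_add]
      exact Real.exp_le_exp.2 (by linarith)
    calc v (R * z) ≤ v (P * x) * Real.exp (-r) := h5
      _ ≤ 2 * v (Q * y) * Real.exp (-r) := by
        apply mul_le_mul_of_nonneg_right m2 (Real.exp_pos _).le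
  have big : 0 < lam → Real.log (v (R * z)) - Real.log (v (P * x)) ≤ -(15 / 4 * L) := by
    intro hpos
    have hLl : L = lam := abs_of_pos hpos
    have hk' : k ≤ -1 := by
      by_contra hcon
      have hk0 : 0 ≤ k := by omega
      have hk0' : (0 : ℝ) ≤ k := by exact_mod_cast hk0
      nlinarith
    have hk1 : (k : ℝ) ≤ -1 := by exact_mod_cast hk'
    rw [l1, l3]
    nlinarith
  refine ⟨?_, fun hpos => ?_⟩
  · have e : -(3 / 4) * L = -(3 / 4 * L) := by ring
    rw [e]
    apply conc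
    rcases le_or_gt lam 0 with hneg | hpos
    · have hLl : L = -lam := abs_of_nonpos hneg
      have hk' : k ≤ 0 := by
        by_contra hcon
        have hk0 : 1 ≤ k := by omega
        have hk0' : (1 : ℝ) ≤ k := by exact_mod_cast hk0
        nlinarith
      have hk1 : (k : ℝ) ≤ 0 := by exact_mod_cast hk'
      rw [l1, l3]
      nlinarith
    · have := big hpos
      linarith
  · have e : -(15 / 4) * L = -(15 / 4 * L) := by ring
    rw [e]
    exact conc _ (big hpos)

end Pool.Agent.R1
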