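import Mathlib
import Pool.Agent.Lib.MP_1e1895_co.Defs

set_option autoImplicit false

namespace Pool.Agent.R1

private theorem vv_bound {K : Type} [Field K] (v : AbsoluteValue K ℝ) (P Q R : K) (h : ZSF P Q R)
    (hV : 1 ≤ v (VV P Q R)) :
    (v P * v Q * v R) ^ 2 ≤ v (P + Q) * (v P + v R) * (v Q + v R) * (v (P + Q) + v R) ^ 3 := by
  obtain ⟨hP, hQ, hR, -⟩ := h
  have pP : 0 < v P := v.pos hP
  have pQ : 0 < v Q := v.pos hQ
  have pR : 0 < v R := v.pos hR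
  have e : v (VV P Q R) = v (P + Q) * v (P + R) * v (Q + R) * v (P + Q + R) ^ 3 / (v P * v Q * v R) ^ 2 := by
    unfold VV
    rw [map_div₀]
    simp only [map_mul, map_pow]
  rw [e, le_div_iff₀ (by positivity), one_mul] at hV
  have b1 : v (P + R) ≤ v P + v R := v.add_le _ _
  have b2 : v (Q + R) ≤ v Q + v R := v.add_le _ _
  have b3 : v (P + Q + R) ≤ v (P + Q) + v R := v.add_le _ _
  have n1 : 0 ≤ v (P + Q) := v.nonneg _
  have n2 : 0 ≤ v (P + R) := v.nonneg _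
  have n3 : 0 ≤ v (Q + R) := v.nonneg _
  have n4 : 0 ≤ v (P + Q + R) := v.nonneg _
  calc (v P * v Q * v R) ^ 2 ≤ v (P + Q) * v (P + R) * v (Q + R) * v (P + Q + R) ^ 3 := hV
    _ ≤ v (P + Q) * (v P + v R) * (v Q + v R) * (v (P + Q) + v R) ^ 3 := by gcongr

/-- Row C4.  Lower bound for `v (P + Q)`, third coefficient small.
Recipe: `p = v P`, `q = v Q`, `r = v R`, `U = v (P + Q)`.  `1 ≤ v (VV P Q R)` means `(p q r)^2 ≤ U v(P+R) v(Q+R) v(P+Q+R)^3 ≤ U (2 p) (2^11 p) (U + r)^3`, so `p^2 r^2 ≤ 2^32 U (U + r)^3`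
(`q ≥ p/2^10`).  If `U ≤ r`: `p^2 ≤ 2^35 r^2`, impossible.  So `r < U`, `p^2 r^2 ≤ 2^35 U^4`. -/
theorem C4 {K : Type} [Field K] (v : AbsoluteValue K ℝ) (P Q R : K) (h : ZSF P Q R) (hV : 1 ≤ v (VV P Q R))
    (h₁ : v P ≤ 2 ^ 10 * v Q) (h₂ : v Q ≤ 2 ^ 10 * v P) (h₃ : 2 ^ 120 * v R ≤ v P) :
    v P * v R ≤ 2 ^ 18 * v (P + Q) ^ 2 := by
  have hb := vv_bound v P Q R h hV
  obtain ⟨hP, hQ, hR, hPQ, -⟩ := h
  have pP : 0 < v P := v.pos hP
  have pQ : 0 < v Q := v.pos hQ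
  have pR : 0 < v R := v.pos hR
  have pU : 0 < v (P + Q) := v.pos hPQ
  set p := v P
  set q := v Q
  set r := v R
  set U := v (P + Q)
  have hpr : r ≤ p := by
    have : (0 : ℝ) ≤ (2 ^ 120 - 1) * r := by positivity
    nlinarith
  have hqr : q + r ≤ 2 ^ 11 * p := by nlinarith
  have s1 : (p * (p / 2 ^ 10) * r) ^ 2 ≤ U * (2 * p) * (2 ^ 11 * p) * (U + r) ^ 3 := by
    have hq : p / 2 ^ 10 ≤ q := by
      rw [div_le_iff₀ (by positivity)]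
      linarith
    calc (p * (p / 2 ^ 10) * r) ^ 2 ≤ (p * q * r) ^ 2 := by gcongr
      _ ≤ U * (p + r) * (q + r) * (U + r) ^ 3 := hb
      _ ≤ U * (2 * p) * (2 ^ 11 * p) * (U + r) ^ 3 := by
        gcongr
        linarith
  have s2 : (p * r) ^ 2 ≤ 2 ^ 32 * U * (U + r) ^ 3 := by
    have e1 : (p * (p / 2 ^ 10) * r) ^ 2 = p ^ 2 * ((p * r) ^ 2 / 2 ^ 20) := by ring
    have e2 : U * (2 * p) * (2 ^ 11 * p) * (U + r) ^ 3 = p ^ 2 * (2 ^ 12 * U * (U + r) ^ 3) := by ring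
    rw [e1, e2] at s1
    have s3 := le_of_mul_le_mul_left s1 (by positivity)
    rw [div_le_iff₀ (by positivity)] at s3
    linarith
  rcases le_or_gt U r with hU | hU
  · exfalso
    have s4 : (p * r) ^ 2 ≤ (2 ^ 18 * r * r) ^ 2 := by
      calc (p * r) ^ 2 ≤ 2 ^ 32 * U * (U + r) ^ 3 := s2
        _ ≤ 2 ^ 32 * r * (r + r) ^ 3 := by gcongr
        _ = 2 ^ 35 * r ^ 4 := by ring
        _ ≤ 2 ^ 36 * r ^ 4 := by gcongr <;> norm_num
        _ = (2 ^ 18 * r * r) ^ 2 := by ring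
    have s5 : p * r ≤ 2 ^ 18 * r * r := le_of_sq_le_sq s4 (by positivity)
    have s6 : p ≤ 2 ^ 18 * r := le_of_mul_le_mul_right s5 pR
    have s7 : (2 : ℝ) ^ 18 * r < 2 ^ 120 * r := by
      apply mul_lt_mul_of_pos_right _ pR
      exact pow_lt_pow_right₀ (by norm_num) (by norm_num)
    linarith
  · have s4 : (p * r) ^ 2 ≤ (2 ^ 18 * U ^ 2) ^ 2 := by
      calc (p * r) ^ 2 ≤ 2 ^ 32 * U * (U + r) ^ 3 := s2
        _ ≤ 2 ^ 32 * U * (U + U) ^ 3 := by gcongr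
        _ = 2 ^ 35 * U ^ 4 := by ring
        _ ≤ 2 ^ 36 * U ^ 4 := by gcongr <;> norm_num
        _ = (2 ^ 18 * U ^ 2) ^ 2 := by ring
    exact le_of_sq_le_sq s4 (by positivity)

end Pool.Agent.R1
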