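import Mathlib
import Pool.Agent.Lib.MP_1e1895_co.Defs

set_option autoImplicit false

namespace Pool.Agent.R1

private theorem vv_bound {K : Type} [Field K] (v : AbsoluteValue K ℝ) (P Q R : K) (h : ZSF P Q R)
    (hV : 1 ≤ v (VV P Q R)) :
    (v P * v Q * v R) ^ 2 ≤ v (P + Q) * (v P + v R) * (v Q + v R) * (v (P + Q) + v R) ^ 3 := by
  obtain ⟨hP, hQ, hR, -⟩ := h
  have pP : 0 < v P := v.pos hP
  have pQ : 0 < v Q := v.pos hQ
  have pR : 0 < v R := v.pos hR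
  have e : v (VV P Q R) = v (P + Q) * v (P + R) * v (Q + R) * v (P + Q + R) ^ 3 / (v P * v Q * v R) ^ 2 := by
    unfold VV
    rw [map_div₀]
    simp only [map_mul, map_pow]
  rw [e, le_div_iff₀ (by positivity), one_mul] at hV
  have b1 : v (P + R) ≤ v P + v R := v.add_le _ _
  have b2 : v (Q + R) ≤ v Q + v R := v.add_le _ _
  have b3 : v (P + Q + R) ≤ v (P + Q) + v R := v.add_le _ _
  have n1 : 0 ≤ v (P + Q) := v.nonneg _
  have n2 : 0 ≤ v (P + R) := v.nonneg _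
  have n3 : 0 ≤ v (Q + R) := v.nonneg _
  have n4 : 0 ≤ v (P + Q + R) := v.nonneg _
  calc (v P * v Q * v R) ^ 2 ≤ v (P + Q) * v (P + R) * v (Q + R) * v (P + Q + R) ^ 3 := hV
    _ ≤ v (P + Q) * (v P + v R) * (v Q + v R) * (v (P + Q) + v R) ^ 3 := by gcongr

/-- Row C5.  Lower bound for `v (P + Q)`, third coefficient large.
Recipe: notation of C4; `(p q r)^2 ≤ U (2 r) (2 r) (2 r)^3`, `q ≥ p/2^10`. -/
theorem C5 {K : Type} [Field K] (v : AbsoluteValue K ℝ) (P Q R : K) (h : ZSF P Q R) (hV : 1 ≤ v (VV P Q R))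
    (h₁ : v P ≤ 2 ^ 10 * v Q) (h₂ : v Q ≤ 2 ^ 10 * v P) (h₃ : 2 ^ 120 * v P ≤ v R) :
    v P ^ 4 ≤ 2 ^ 25 * v (P + Q) * v R ^ 3 := by
  have hb := vv_bound v P Q R h hV
  obtain ⟨hP, hQ, hR, hPQ, -⟩ := h
  have pP : 0 < v P := v.pos hP
  have pQ : 0 < v Q := v.pos hQ
  have pR : 0 < v R := v.pos hR
  have pU : 0 < v (P + Q) := v.pos hPQ
  have hUle : v (P + Q) ≤ v P + v Q := v.add_le _ _
  set p := v P
  set q := v Q
  set r := v R
  set U := v (P + Q)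
  have hpr : 2 ^ 11 * p ≤ r := by
    have : (2 : ℝ) ^ 11 * p ≤ 2 ^ 120 * p := by
      gcongr
      · norm_num
      · norm_num
    linarith
  have s1 : (p * (p / 2 ^ 10) * r) ^ 2 ≤ U * (2 * r) * (2 * r) * (2 * r) ^ 3 := by
    have hq : p / 2 ^ 10 ≤ q := by
      rw [div_le_iff₀ (by positivity)]
      linarith
    calc (p * (p / 2 ^ 10) * r) ^ 2 ≤ (p * q * r) ^ 2 := by gcongr
      _ ≤ U * (p + r) * (q + r) * (U + r) ^ 3 := hb
      _ ≤ U * (2 * r) * (2 * r) * (2 * r) ^ 3 := by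
        gcongr
        · linarith
        · linarith
        · linarith
  have e1 : (p * (p / 2 ^ 10) * r) ^ 2 = r ^ 2 * (p ^ 4 / 2 ^ 20) := by ring
  have e2 : U * (2 * r) * (2 * r) * (2 * r) ^ 3 = r ^ 2 * (2 ^ 5 * U * r ^ 3) := by ring
  rw [e1, e2] at s1
  have s3 := le_of_mul_le_mul_left s1 (by positivity)
  rw [div_le_iff₀ (by positivity)] at s3
  linarith

end Pool.Agent.R1
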