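import Mathlib
import Pool.Agent.Lib.MP_1e1895_co.Defs
import Pool.Agent.Lib.MP_1e1895_co.C3
import Pool.Agent.Lib.MP_1e1895_co.C4
import Pool.Agent.Lib.MP_1e1895_co.C5

set_option autoImplicit false

namespace Pool.Agent.R1

/-- Row C6.  Two comparable coefficients and a very different one.
Recipe: `lam = log (v R / v P)`, `|lam| ≥ 120 log 2`; colour by C3 and by the Cayley colouring of `g = - Q / P` (combine with `finProdFinEquiv`).  For a monochromatic solution
`x - g y = (P x + Q y)/P`, `v (P x + Q y) = v (R z)`.  One needs `256 v (R z) ≤ v (P + Q) v y` and `256 v (R z) ≤ v (Q y)`.  `lam < 0`, `τ = v R / v P`: `v (R z) ≤ 2 v (Q y) τ^(3/4)`, `v (P+Q) ≥ 2^(-9) τ^(1/2) v P ≥ 2^(-19) τ^(1/2) v Q` (C4)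
and `τ ≤ 2^(-120)`.  `lam > 0`: `v (R z) ≤ 2 v (Q y) τ^(-15/4)`, `v (P + Q) ≥ 2^(-25) τ^(-3) v P ≥ 2^(-35) τ^(-3) v Q` (C5), `τ ≥ 2^120`. -/
theorem C6 {K : Type} [Field K] (n : ℕ) (v : AbsoluteValue K ℝ) (hC : Cay n v) (P Q R : K) (h : ZSF P Q R)
    (hV : 1 ≤ v (VV P Q R)) (h₁ : v P ≤ 2 ^ 10 * v Q) (h₂ : v Q ≤ 2 ^ 10 * v P)
    (h₃ : 2 ^ 120 * v R ≤ v P ∨ 2 ^ 120 * v P ≤ v R) : Good (20 * n) P Q R := by
  have hZ := h
  obtain ⟨hP, hQ, hR, hPQ, -, -, -⟩ := h
  have hvP : 0 < v P := v.pos hP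
  have hvQ : 0 < v Q := v.pos hQ
  have hvR : 0 < v R := v.pos hR
  have hvPQ : 0 < v (P + Q) := v.pos hPQ
  obtain ⟨lam, hlam⟩ : ∃ lam : ℝ, lam = Real.log (v R / v P) := ⟨_, rfl⟩
  have hexp : Real.exp lam = v R / v P := by rw [hlam, Real.exp_log (by positivity)]
  have hl2 : 0 < Real.log 2 := Real.log_pos (by norm_num)
  have h120 : Real.log (2 ^ 120 : ℝ) = 120 * Real.log 2 := by
    rw [Real.log_pow]; norm_num
  have habs : 120 * Real.log 2 ≤ |lam| := by
    rcases h₃ with h | h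
    · have h4 : lam ≤ -(120 * Real.log 2) := by
        rw [← h120, ← Real.log_inv, hlam]
        apply Real.log_le_log (by positivity)
        rw [div_le_iff₀ hvP, inv_mul_eq_div, le_div_iff₀ (by positivity)]
        linarith
      have := neg_le_abs lam
      linarith
    · have h4 : 120 * Real.log 2 ≤ lam := by
        rw [← h120, hlam]
        apply Real.log_le_log (by positivity)
        rw [le_div_iff₀ hvP]
        exact h
      exact h4.trans (le_abs_self _)
  obtain ⟨χ₁, hχ₁⟩ := C3 v P Q R hP hQ hR h₁ h₂ lam hlam habs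
  obtain ⟨g, hg⟩ : ∃ g : K, g = -Q / P := ⟨_, rfl⟩
  have hg0 : g ≠ 0 := by rw [hg]; exact div_ne_zero (neg_ne_zero.2 hQ) hP
  have hg1 : g ≠ 1 := by
    intro h
    rw [hg, div_eq_iff hP, one_mul] at h
    apply hPQ
    rw [← h]; ring
  obtain ⟨χ₂, hχ₂⟩ := hC g hg0 hg1
  refine ⟨fun x => finProdFinEquiv (χ₁ x, χ₂ x), ?_⟩
  rintro x y z hx hy hz hsum ⟨hc1, hc2⟩
  have hc1' := finProdFinEquiv.injective hc1
  have hc2' := finProdFinEquiv.injective hc2
  have e1 : χ₁ x = χ₁ y := (Prod.ext_iff.1 hc1').1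
  have e2 : χ₂ x = χ₂ y := (Prod.ext_iff.1 hc1').2
  have e3 : χ₁ y = χ₁ z := (Prod.ext_iff.1 hc2').1
  obtain ⟨hb1, hb2⟩ := hχ₁ x y z hx hy hz hsum e1 e3
  have hvy : 0 < v y := v.pos hy
  -- the two inequalities
  have hvxg : v (x - g * y) = v (R * z) / v P := by
    have : x - g * y = -(R * z) / P := by
      rw [hg]
      field_simp
      linear_combination hsum
    rw [this, map_div₀, v.map_neg]
  have hvg1 : v (g - 1) = v (P + Q) / v P := by
    have : g - 1 = -(P + Q) / P := by rw [hg]; field_simp; ring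
    rw [this, map_div₀, v.map_neg]
  have hvg : v g = v Q / v P := by rw [hg, map_div₀, v.map_neg]
  have hvQy : v (Q * y) = v Q * v y := v.map_mul _ _
  have main : 256 * v (R * z) ≤ v (P + Q) * v y ∧ 256 * v (R * z) ≤ v Q * v y := by
    rcases h₃ with h | h
    · have hC4 := C4 v P Q R hZ hV h₁ h₂ h
      -- lam < 0
      have hlam0 : lam < 0 := by
        rw [hlam]
        apply Real.log_neg (by positivity)
        rw [div_lt_one hvP]
        nlinarith
      obtain ⟨t, ht⟩ : ∃ t : ℝ, t = Real.exp (lam / 4) := ⟨_, rfl⟩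
      have ht0 : 0 < t := by rw [ht]; exact Real.exp_pos _
      have ht4 : t ^ 4 = v R / v P := by
        rw [ht, ← Real.exp_nat_mul, ← hexp]; congr 1; push_cast; ring
      have ht3 : Real.exp (-(3 / 4) * |lam|) = t ^ 3 := by
        rw [ht, ← Real.exp_nat_mul, abs_of_neg hlam0]; congr 1; push_cast; ring
      have ht4' : v R = t ^ 4 * v P := by rw [ht4]; field_simp
      have htle : t ≤ 1 / 2 ^ 30 := by
        by_contra hcon
        push Not at hcon
        have h5 : (1 / 2 ^ 30 : ℝ) ^ 4 < t ^ 4 := pow_lt_pow_left₀ hcon (by positivity) (by norm_num)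
        rw [ht4, lt_div_iff₀ hvP] at h5
        norm_num at h5 h
        linarith
      rw [ht3, hvQy] at hb1
      have h6 : t ^ 2 ≤ 1 / 2 ^ 60 := by
        calc t ^ 2 ≤ (1 / 2 ^ 30) ^ 2 := pow_le_pow_left₀ ht0.le htle 2
          _ = _ := by norm_num
      have h7 : t ^ 3 ≤ 1 / 2 ^ 90 := by
        calc t ^ 3 ≤ (1 / 2 ^ 30) ^ 3 := pow_le_pow_left₀ ht0.le htle 3
          _ = _ := by norm_num
      have hQy0 : 0 < v Q * v y := by positivity
      constructor
      · have h8 : (v P * t ^ 2) ^ 2 ≤ (2 ^ 9 * v (P + Q)) ^ 2 := by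
          calc (v P * t ^ 2) ^ 2 = v P * v R := by rw [ht4']; ring
            _ ≤ 2 ^ 18 * v (P + Q) ^ 2 := hC4
            _ = _ := by ring
        have h9 : v P * t ^ 2 ≤ 2 ^ 9 * v (P + Q) := le_of_sq_le_sq h8 (by positivity)
        have h10 : v Q * t ^ 2 ≤ 2 ^ 19 * v (P + Q) := by
          calc v Q * t ^ 2 ≤ 2 ^ 10 * v P * t ^ 2 := by gcongr
            _ = 2 ^ 10 * (v P * t ^ 2) := by ring
            _ ≤ 2 ^ 10 * (2 ^ 9 * v (P + Q)) := by gcongr
            _ = _ := by ring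
        calc 256 * v (R * z) ≤ 256 * (2 * (v Q * v y) * t ^ 3) := by gcongr
          _ = 512 * t * (v Q * t ^ 2) * v y := by ring
          _ ≤ 512 * (1 / 2 ^ 30) * (2 ^ 19 * v (P + Q)) * v y := by gcongr
          _ ≤ v (P + Q) * v y := by
            have : 0 < v (P + Q) * v y := by positivity
            nlinarith
      · calc 256 * v (R * z) ≤ 256 * (2 * (v Q * v y) * t ^ 3) := by gcongr
          _ ≤ 256 * (2 * (v Q * v y) * (1 / 2 ^ 90)) := by gcongr
          _ ≤ v Q * v y := by nlinarith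
    · have hC5 := C5 v P Q R hZ hV h₁ h₂ h
      have hlam0 : 0 < lam := by
        rw [hlam]
        apply Real.log_pos
        rw [one_lt_div hvP]
        nlinarith
      obtain ⟨t, ht⟩ : ∃ t : ℝ, t = Real.exp (-(lam / 4)) := ⟨_, rfl⟩
      have ht0 : 0 < t := by rw [ht]; exact Real.exp_pos _
      have ht4 : t ^ 4 = v P / v R := by
        have : v P / v R = (v R / v P)⁻¹ := by rw [inv_div]
        rw [ht, ← Real.exp_nat_mul, this, ← hexp, ← Real.exp_neg]; congr 1; push_cast; ring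
      have ht15 : Real.exp (-(15 / 4) * |lam|) = t ^ 15 := by
        rw [ht, ← Real.exp_nat_mul, abs_of_pos hlam0]; congr 1; push_cast; ring
      have ht4' : v P = t ^ 4 * v R := by rw [ht4]; field_simp
      have htle : t ≤ 1 / 2 ^ 30 := by
        by_contra hcon
        push Not at hcon
        have h5 : (1 / 2 ^ 30 : ℝ) ^ 4 < t ^ 4 := pow_lt_pow_left₀ hcon (by positivity) (by norm_num)
        rw [ht4, lt_div_iff₀ hvR] at h5
        norm_num at h5 h
        linarith
      have hb := hb2 hlam0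
      rw [ht15, hvQy] at hb
      have hQy0 : 0 < v Q * v y := by positivity
      have h3 : t ^ 3 ≤ 1 / 2 ^ 90 := by
        calc t ^ 3 ≤ (1 / 2 ^ 30) ^ 3 := pow_le_pow_left₀ ht0.le htle 3
          _ = _ := by norm_num
      have ht1 : t ≤ 1 := by
        refine htle.trans ?_
        norm_num
      have h15 : t ^ 15 ≤ 1 / 2 ^ 90 := (pow_le_pow_of_le_one ht0.le ht1 (by norm_num)).trans h3
      constructor
      · have h8 : v P * t ^ 12 ≤ 2 ^ 25 * v (P + Q) := by
          have h9 : (v P * t ^ 12) * v R ^ 3 ≤ (2 ^ 25 * v (P + Q)) * v R ^ 3 := by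
            calc (v P * t ^ 12) * v R ^ 3 = v P * (t ^ 4 * v R) ^ 3 := by ring
              _ = v P ^ 4 := by rw [← ht4']; ring
              _ ≤ 2 ^ 25 * v (P + Q) * v R ^ 3 := hC5
          exact le_of_mul_le_mul_right h9 (by positivity)
        have h10 : v Q * t ^ 12 ≤ 2 ^ 35 * v (P + Q) := by
          calc v Q * t ^ 12 ≤ 2 ^ 10 * v P * t ^ 12 := by gcongr
            _ = 2 ^ 10 * (v P * t ^ 12) := by ring
            _ ≤ 2 ^ 10 * (2 ^ 25 * v (P + Q)) := by gcongr
            _ = _ := by ring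
        calc 256 * v (R * z) ≤ 256 * (2 * (v Q * v y) * t ^ 15) := by gcongr
          _ = 512 * t ^ 3 * (v Q * t ^ 12) * v y := by ring
          _ ≤ 512 * (1 / 2 ^ 90) * (2 ^ 35 * v (P + Q)) * v y := by gcongr
          _ ≤ v (P + Q) * v y := by
            have : 0 < v (P + Q) * v y := by positivity
            nlinarith
      · calc 256 * v (R * z) ≤ 256 * (2 * (v Q * v y) * t ^ 15) := by gcongr
          _ ≤ 256 * (2 * (v Q * v y) * (1 / 2 ^ 90)) := by gcongr
          _ ≤ v Q * v y := by nlinarith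
  apply hχ₂ x y hx hy _ _ e2
  · rw [hvxg, hvg1]
    have := main.1
    rw [mul_div_assoc', div_mul_eq_mul_div]
    gcongr
  · rw [hvxg, hvg]
    have := main.2
    rw [mul_div_assoc', div_mul_eq_mul_div]
    gcongr

end Pool.Agent.R1
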