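import Mathlib
import Pool.Agent.Lib.MP_1e1895_co.Defs
import Pool.Agent.Lib.MP_1e1895_co.A2
import Pool.Agent.Lib.MP_1e1895_co.C2
import Pool.Agent.Lib.MP_1e1895_co.C6

set_option autoImplicit false

namespace Pool.Agent.R1

private lemma C7_sorted {K : Type} [Field K] (n : ℕ) (v : AbsoluteValue K ℝ) (hC : Cay n v) (a b c : K)
    (h : ZSF a b c) (hV : 1 ≤ v (VV a b c)) (hN : ¬ Near v a b c) (h₁ : v c ≤ v b) (h₂ : v b ≤ v a) :
    Good (64 + 20 * n) a b c := by
  obtain ⟨hmono, hsym, -, -, hVV, -, -, hZ, -, -⟩ := A2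
  have hc0 : 0 < v c := v.pos h.2.2.1
  have hb0 : 0 < v b := v.pos h.2.1
  have ha0 : 0 < v a := v.pos h.1
  have hlt : 2 ^ 130 * v c < v a := by
    by_contra hcon
    have hle : v a ≤ 2 ^ 130 * v c := not_lt.1 hcon
    refine hN ⟨?_, ?_, hle, ?_, ?_, ?_⟩
    · linarith [mul_le_mul_of_nonneg_left h₁ (by norm_num : (0 : ℝ) ≤ 2 ^ 130)]
    · have : v a ≤ 2 ^ 130 * v a := le_mul_of_one_le_left ha0.le (by norm_num)
      linarith
    · have : v a ≤ 2 ^ 130 * v a := le_mul_of_one_le_left ha0.le (by norm_num)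
      linarith
    · linarith
    · have : v b ≤ 2 ^ 130 * v b := le_mul_of_one_le_left hb0.le (by norm_num)
      linarith
  have hab : v b ≤ 2 ^ 10 * v a := by
    have : v a ≤ 2 ^ 10 * v a := le_mul_of_one_le_left ha0.le (by norm_num)
    linarith
  have hbc : v c ≤ 2 ^ 10 * v b := by
    have : v b ≤ 2 ^ 10 * v b := le_mul_of_one_le_left hb0.le (by norm_num)
    linarith
  rcases lt_or_ge (v a) (2 ^ 10 * v b) with h3 | h3
  · have hg := C6 n v hC a b c h hV h3.le hab (Or.inl (by linarith [hc0]))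
    exact hmono K a b c _ _ (by omega) hg
  · rcases lt_or_ge (v b) (2 ^ 10 * v c) with h4 | h4
    · have h5 : ZSF b c a := (hZ K b a c (hZ K a b c h).1).2
      have h6 : VV b c a = VV a b c := by
        rw [(hVV K b a c).2, (hVV K a b c).1]
      have hg := C6 n v hC b c a h5 (by rw [h6]; exact hV) h4.le hbc
        (Or.inr (by nlinarith [hc0]))
      have hg2 : Good (20 * n) a b c := (hsym K b a c _ (hsym K b c a _ hg).2).1
      exact hmono K a b c _ _ (by omega) hg2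
    · have hg := C2 v a b c h.1 h.2.1 h.2.2.1 h3 h4
      exact hmono K a b c _ _ (by omega) hg

private lemma C7_near {K : Type} [Field K] (v : AbsoluteValue K ℝ) (a b c : K) :
    (Near v b a c → Near v a b c) ∧ (Near v a c b → Near v a b c) := by
  constructor
  · rintro ⟨h1, h2, h3, h4, h5, h6⟩
    exact ⟨h2, h1, h5, h6, h3, h4⟩
  · rintro ⟨h1, h2, h3, h4, h5, h6⟩
    exact ⟨h3, h4, h1, h2, h6, h5⟩

/-- Row C7.  The local theorem.
Recipe: by A2 (symmetry) one may assume `v c ≤ v b ≤ v a`, then `2 ^ 130 * v c < v a`.  If `2^10 v b ≤ v a` and `2^10 v c ≤ v b`: C2.  If `v a < 2^10 v b`: C6 for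
`P = a`, `Q = b`, `R = c`.  If `v b < 2^10 v c`: C6 for `P = b`, `Q = c`, `R = a`. -/
theorem C7 {K : Type} [Field K] (n : ℕ) (v : AbsoluteValue K ℝ) (hC : Cay n v) (a b c : K) (h : ZSF a b c)
    (hV : 1 ≤ v (VV a b c)) (hN : ¬ Near v a b c) : Good (64 + 20 * n) a b c := by
  obtain ⟨-, hsym, -, -, hVV, -, -, hZ, -, -⟩ := A2
  -- swapping the first two, and the last two coefficients
  have s12 : (ZSF b a c ∧ 1 ≤ v (VV b a c) ∧ ¬ Near v b a c) :=
    ⟨(hZ K a b c h).1, by rw [(hVV K a b c).1]; exact hV, fun hh => hN ((C7_near v a b c).1 hh)⟩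
  have s23 : (ZSF a c b ∧ 1 ≤ v (VV a c b) ∧ ¬ Near v a c b) :=
    ⟨(hZ K a b c h).2, by rw [(hVV K a b c).2]; exact hV, fun hh => hN ((C7_near v a b c).2 hh)⟩
  have s312 : (ZSF c a b ∧ 1 ≤ v (VV c a b) ∧ ¬ Near v c a b) :=
    ⟨(hZ K a c b s23.1).1, by rw [(hVV K a c b).1]; exact s23.2.1,
      fun hh => s23.2.2 ((C7_near v a c b).1 hh)⟩
  have s231 : (ZSF b c a ∧ 1 ≤ v (VV b c a) ∧ ¬ Near v b c a) :=
    ⟨(hZ K b a c s12.1).2, by rw [(hVV K b a c).2]; exact s12.2.1,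
      fun hh => s12.2.2 ((C7_near v b a c).2 hh)⟩
  have s321 : (ZSF c b a ∧ 1 ≤ v (VV c b a) ∧ ¬ Near v c b a) :=
    ⟨(hZ K b c a s231.1).1, by rw [(hVV K b c a).1]; exact s231.2.1,
      fun hh => s231.2.2 ((C7_near v b c a).1 hh)⟩
  rcases le_total (v a) (v b) with h1 | h1
  · rcases le_total (v b) (v c) with h2 | h2
    · -- a ≤ b ≤ c
      have g := C7_sorted n v hC c b a s321.1 s321.2.1 s321.2.2 h1 h2
      exact (hsym K b a c _ (hsym K b c a _ (hsym K c b a _ g).1).2).1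
    · rcases le_total (v a) (v c) with h3 | h3
      · -- a ≤ c ≤ b
        have g := C7_sorted n v hC b c a s231.1 s231.2.1 s231.2.2 h3 h2
        exact (hsym K b a c _ (hsym K b c a _ g).2).1
      · -- c ≤ a ≤ b
        have g := C7_sorted n v hC b a c s12.1 s12.2.1 s12.2.2 h3 h1
        exact (hsym K b a c _ g).1
  · rcases le_total (v b) (v c) with h2 | h2
    · rcases le_total (v a) (v c) with h3 | h3
      · -- b ≤ a ≤ c
        have g := C7_sorted n v hC c a b s312.1 s312.2.1 s312.2.2 h1 h3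
        exact (hsym K a c b _ (hsym K c a b _ g).1).2
      · -- b ≤ c ≤ a
        have g := C7_sorted n v hC a c b s23.1 s23.2.1 s23.2.2 h2 h3
        exact (hsym K a c b _ g).2
    · -- c ≤ b ≤ a
      exact C7_sorted n v hC a b c h hV hN h2 h1

end Pool.Agent.R1
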