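import Mathlib
import Pool.Agent.Lib.MP_1e1895_co.Defs
import Pool.Agent.Lib.MP_1e1895_co.B2
import Pool.Agent.Lib.MP_1e1895_co.C7

set_option autoImplicit false

namespace Pool.Agent.R1

private noncomputable def powAV {K : Type} [Field K] (v : AbsoluteValue K ℝ)
    (hv : ∀ x y : K, v (x + y) ≤ max (v x) (v y)) (k : ℕ) (hk : k ≠ 0) : AbsoluteValue K ℝ where
  toFun x := v x ^ k
  map_mul' x y := by simp [mul_pow]
  nonneg' x := pow_nonneg (v.nonneg x) k
  eq_zero' x := by simp [hk]
  add_le' x y := by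
    have h1 : v (x + y) ^ k ≤ (max (v x) (v y)) ^ k := pow_le_pow_left₀ (v.nonneg _) (hv x y) k
    have h2 : (max (v x) (v y)) ^ k ≤ v x ^ k + v y ^ k := by
      rcases le_total (v x) (v y) with h | h
      · rw [max_eq_right h]
        have := pow_nonneg (v.nonneg x) k
        linarith
      · rw [max_eq_left h]
        have := pow_nonneg (v.nonneg y) k
        linarith
    exact h1.trans h2

private theorem powAV_apply {K : Type} [Field K] (v : AbsoluteValue K ℝ)
    (hv : ∀ x y : K, v (x + y) ≤ max (v x) (v y)) (k : ℕ) (hk : k ≠ 0) (x : K) :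
    powAV v hv k hk x = v x ^ k := rfl

private theorem exists_pow_gap (s t : ℝ) (hs : 0 < s) (hst : s < t) : ∃ k : ℕ, k ≠ 0 ∧ 2 ^ 130 * s ^ k < t ^ k := by
  have h1 : 1 < t / s := by rw [lt_div_iff₀ hs]; linarith
  obtain ⟨n, hn⟩ := pow_unbounded_of_one_lt ((2 : ℝ) ^ 130) h1
  refine ⟨n, ?_, ?_⟩
  · rintro rfl
    norm_num at hn
  · rw [div_pow, lt_div_iff₀ (pow_pos hs n)] at hn
    exact hn

/-- Row D1.  Finite places.
Recipe: if `v a = v b = v c` then `v (VV a b c) ≤ 1` (ultrametric), so e.g. `v c < v a` (two of the three values differ).  Choose `k ≥ 1` with `2^130 (v c)^k < (v a)^k`.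
`w x = v x ^ k` is an absolute value (`max (s, t)^k = max (s^k, t^k) ≤ s^k + t^k`), it is ultrametric, `1 ≤ w (VV a b c)`, `¬ Near w a b c`.  B2 and C7 (`64 + 20 * 3 = 124`). -/
theorem D1 {K : Type} [Field K] (v : AbsoluteValue K ℝ) (hv : ∀ x y : K, v (x + y) ≤ max (v x) (v y)) (a b c : K)
    (h : ZSF a b c) (hV : 1 < v (VV a b c)) : Good 124 a b c := by
  have ha : 0 < v a := v.pos h.1
  have hb : 0 < v b := v.pos h.2.1
  have hc : 0 < v c := v.pos h.2.2.1
  have hne : ¬ (v a = v b ∧ v b = v c) := by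
    rintro ⟨hab, hbc⟩
    have e1 : v (a + b) ≤ v a := (hv a b).trans (by rw [← hab, max_self])
    have e2 : v (a + c) ≤ v a := (hv a c).trans (by rw [← hbc, ← hab, max_self])
    have e3 : v (b + c) ≤ v a := (hv b c).trans (by rw [← hbc, ← hab, max_self])
    have e4 : v (a + b + c) ≤ v a := (hv (a + b) c).trans (max_le e1 (by rw [← hbc, ← hab]))
    have e5 : v (VV a b c) = v (a + b) * v (a + c) * v (b + c) * v (a + b + c) ^ 3 / (v a * v b * v c) ^ 2 := by
      simp only [VV, map_mul, map_div₀, map_pow]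
    rw [e5, ← hbc, ← hab, lt_div_iff₀ (by positivity), one_mul] at hV
    have e6 : v (a + b) * v (a + c) ≤ v a * v a := mul_le_mul e1 e2 (v.nonneg _) ha.le
    have e7 : v (a + b) * v (a + c) * v (b + c) ≤ v a * v a * v a :=
      mul_le_mul e6 e3 (v.nonneg _) (by positivity)
    have e8 : v (a + b + c) ^ 3 ≤ v a ^ 3 := pow_le_pow_left₀ (v.nonneg _) e4 3
    have e9 : v (a + b) * v (a + c) * v (b + c) * v (a + b + c) ^ 3 ≤ v a * v a * v a * v a ^ 3 :=
      mul_le_mul e7 e8 (pow_nonneg (v.nonneg _) 3) (by positivity)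
    have e10 : v a * v a * v a * v a ^ 3 = (v a * v a * v a) ^ 2 := by ring
    linarith
  have key : ∀ (k : ℕ) (hk : k ≠ 0), ¬ Near (powAV v hv k hk) a b c → Good 124 a b c := by
    intro k hk hN
    have hw : ∀ x y : K, powAV v hv k hk (x + y) ≤ max (powAV v hv k hk x) (powAV v hv k hk y) := by
      intro x y
      simp only [powAV_apply]
      have h1 : v (x + y) ^ k ≤ (max (v x) (v y)) ^ k := pow_le_pow_left₀ (v.nonneg _) (hv x y) k
      refine h1.trans ?_
      rcases le_total (v x) (v y) with h | h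
      · rw [max_eq_right h]
        exact le_max_right _ _
      · rw [max_eq_left h]
        exact le_max_left _ _
    have := C7 3 (powAV v hv k hk) (B2 (powAV v hv k hk) hw) a b c h (by
      rw [powAV_apply]
      exact one_le_pow₀ hV.le) hN
    simpa using this
  have hlt : ∀ x y : K, 0 < v x → v x < v y → (∀ (k : ℕ) (hk : k ≠ 0), Near (powAV v hv k hk) a b c →
      powAV v hv k hk y ≤ 2 ^ 130 * powAV v hv k hk x) → Good 124 a b c := by
    intro x y hx hxy hn
    obtain ⟨k, hk, hk2⟩ := exists_pow_gap _ _ hx hxy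
    refine key k hk fun hN => ?_
    have := hn k hk hN
    rw [powAV_apply, powAV_apply] at this
    linarith
  by_cases hab : v a = v b
  · have hbc : v b ≠ v c := fun hbc => hne ⟨hab, hbc⟩
    rcases lt_or_gt_of_ne hbc with hl | hl
    · exact hlt b c hb hl fun k hk hN => hN.2.2.2.2.2
    · exact hlt c b hc hl fun k hk hN => hN.2.2.2.2.1
  · rcases lt_or_gt_of_ne hab with hl | hl
    · exact hlt a b ha hl fun k hk hN => hN.2.1
    · exact hlt b a hb hl fun k hk hN => hN.1

end Pool.Agent.R1
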