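import Mathlib
import Pool.Agent.Lib.MP_1e1895_co.Defs

set_option autoImplicit false

namespace Pool.Agent.R1

open NumberField in
private theorem exists_place_h10 {K : Type} [Field K] [NumberField K] {x : K} (hx : x ≠ 0) :
    (∃ w : FinitePlace K, 1 < w x) ∨ (∃ w : InfinitePlace K, 1 ≤ w x) := by
  classical
  by_contra h
  push Not at h
  obtain ⟨h1, h2⟩ := h
  have hp := prod_abs_eq_one hx
  have hf : (∏ᶠ w : FinitePlace K, w x) ≤ 1 := by
    rw [finprod_eq_prod_of_mulSupport_toFinset_subset _ (FinitePlace.hasFiniteMulSupport hx) subset_rfl]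
    exact Finset.prod_le_one (fun w _ => apply_nonneg w x) (fun w _ => h1 w)
  have hf0 : 0 ≤ (∏ᶠ w : FinitePlace K, w x) := by
    rw [finprod_eq_prod_of_mulSupport_toFinset_subset _ (FinitePlace.hasFiniteMulSupport hx) subset_rfl]
    exact Finset.prod_nonneg (fun w _ => apply_nonneg w x)
  have hi0 : 0 ≤ (∏ w : InfinitePlace K, w x ^ w.mult) :=
    Finset.prod_nonneg (fun w _ => pow_nonneg (apply_nonneg w x) _)
  have hi : (∏ w : InfinitePlace K, w x ^ w.mult) < 1 := by
    obtain ⟨w0⟩ : Nonempty (InfinitePlace K) := inferInstance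
    rw [← Finset.mul_prod_erase Finset.univ _ (Finset.mem_univ w0)]
    have e1 : w0 x ^ w0.mult < 1 :=
      pow_lt_one₀ (apply_nonneg w0 x) (h2 w0) (InfinitePlace.mult_ne_zero)
    have e2 : (∏ w ∈ Finset.univ.erase w0, w x ^ w.mult) ≤ 1 :=
      Finset.prod_le_one (fun w _ => pow_nonneg (apply_nonneg w x) _)
        (fun w _ => pow_le_one₀ (apply_nonneg w x) (h2 w).le)
    have e3 : 0 ≤ (∏ w ∈ Finset.univ.erase w0, w x ^ w.mult) :=
      Finset.prod_nonneg (fun w _ => pow_nonneg (apply_nonneg w x) _)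
    have e4 : 0 ≤ w0 x ^ w0.mult := pow_nonneg (apply_nonneg w0 x) _
    nlinarith
  nlinarith

/-- Row D2.  Product formula.
Recipe: `NumberField.prod_abs_eq_one`.  If all finite places give `≤ 1` their `finprod` is `≤ 1` (`finprod_eq_prod_of_mulSupport_subset` or `finprod_def`, `Finset.prod_le_one`);
if moreover all infinite places give `< 1`, the product over the (nonempty) set of infinite places is `< 1`.  A finite place is ultrametric (see `Mathlib.NumberTheory.NumberField.Completion.FinitePlace`);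
an infinite place `w` satisfies `w x = ‖w.embedding x‖` (`NumberField.InfinitePlace.norm_embedding_eq`). -/
theorem D2 (L : Type) [Field L] [NumberField L] (x : L) (hx : x ≠ 0) :
    (∃ v : AbsoluteValue L ℝ, (∀ x y : L, v (x + y) ≤ max (v x) (v y)) ∧ 1 < v x) ∨
    (∃ φ : L →+* ℂ, 1 ≤ ‖φ x‖) := by
  rcases exists_place_h10 hx with ⟨w, hw⟩ | ⟨w, hw⟩
  · left
    exact ⟨w.val, fun x y => NumberField.FinitePlace.add_le w x y, hw⟩
  · right
    refine ⟨w.embedding, ?_⟩
    rw [NumberField.InfinitePlace.norm_embedding_eq]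
    exact hw

end Pool.Agent.R1
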