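import Mathlib
import Pool.Agent.Lib.MP_1e1895_co.Defs
import Pool.Agent.Lib.MP_1e1895_co.A2
import Pool.Agent.Lib.MP_1e1895_co.B4
import Pool.Agent.Lib.MP_1e1895_co.B7
import Pool.Agent.Lib.MP_1e1895_co.C7
import Pool.Agent.Lib.MP_1e1895_co.D1
import Pool.Agent.Lib.MP_1e1895_co.D2

set_option autoImplicit false

namespace Pool.Agent.R1

/-- Row D3.  Number fields.
Recipe: D2 for `x = VV a b c`.  Finite place: D1.  Otherwise pass to `ℂ` by `φ` (A2): `‖VV (φ a) (φ b) (φ c)‖ ≥ 1`; with the absolute value `v z = ‖z‖` on `ℂ` either B7 or (B4 and C7, `64 + 20 * 10 = 264`).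
`C` = maximum of `124`, `264` and the constant of B7. -/
theorem D3 : ∃ C : ℕ, ∀ (L : Type) [Field L] [NumberField L] (a b c : L), ZSF a b c → Good C a b c := by
  obtain ⟨n, hn⟩ := Pool.Agent.R1.B7
  obtain ⟨mono, -, -, pull, -, -, vv, -, zsf, vne⟩ := Pool.Agent.R1.A2
  refine ⟨max (max 124 264) n, fun L _ _ a b c h => ?_⟩
  rcases Pool.Agent.R1.D2 L (VV a b c) (vne L a b c h) with ⟨v, hv, h1⟩ | ⟨φ, h1⟩
  · exact mono L a b c _ _ ((le_max_left _ _).trans (le_max_left _ _)) (Pool.Agent.R1.D1 v hv a b c h h1)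
  · refine pull L ℂ φ a b c _ ?_
    have hz := zsf L ℂ φ a b c h
    rw [← vv L ℂ φ a b c] at h1
    let v : AbsoluteValue ℂ ℝ := NormedField.toAbsoluteValue ℂ
    have hv : ∀ z, v z = ‖z‖ := fun z => rfl
    have hV : 1 ≤ v (VV (φ a) (φ b) (φ c)) := by
      rw [hv]
      exact h1
    by_cases hN : Near v (φ a) (φ b) (φ c)
    · exact mono ℂ _ _ _ _ _ (le_max_right _ _) (hn v hv _ _ _ hz hV hN)
    · exact mono ℂ _ _ _ _ _ ((le_max_right _ _).trans (le_max_left _ _))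
        (Pool.Agent.R1.C7 10 v (Pool.Agent.R1.B4 v hv) _ _ _ hz hV hN)

end Pool.Agent.R1
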