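import Pool.Agent.Lib.MP_1e1895_co.Defs

/-!
# Quotients of progressions: definition
-/

set_option autoImplicit false

namespace Pool.Agent.R1

/-- the quotients `s / t`, `t ≠ 0`, of elements of the generalised arithmetic progression of rank `d`
`{∑ n_j l_j : |n_j| ≤ H}` modulo `p` -/
def Quo {p d : ℕ} (l : Fin d → ZMod p) (H : ℕ) : Set (ZMod p) :=
  {x | ∃ n n' : Fin d → ℤ, (∀ j, |n j| ≤ H) ∧ (∀ j, |n' j| ≤ H) ∧ (∑ j, (n' j : ZMod p) * l j) ≠ 0 ∧
    x * (∑ j, (n' j : ZMod p) * l j) = ∑ j, (n j : ZMod p) * l j}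

end Pool.Agent.R1
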