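import Mathlib
import Pool.Agent.Lib.MP_1e1895_co.Defs

set_option autoImplicit false

namespace Pool.Agent.R1

private theorem numberField_of_finiteType_h10 (L : Type) [Field L] [Algebra ℚ L]
    [h : Algebra.FiniteType ℚ L] : NumberField L := by
  haveI : CharZero L := algebraRat.charZero _
  have hfin : Module.Finite ℚ L := finite_of_finite_type_of_isJacobsonRing ℚ L
  refine { to_charZero := inferInstance, to_finiteDimensional := ?_ }
  have e : (DivisionRing.toRatAlgebra : Algebra ℚ L) = (inferInstance : Algebra ℚ L) :=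
    Subsingleton.elim _ _
  convert hfin

/-- Row E1.  Zariski lemma.
Recipe: `L = A ⧸ m`, `m` a maximal ideal; `finite_of_finite_type_of_isJacobsonRing`; `algebraRat.charZero`. -/
theorem E1 (A : Type) [CommRing A] [Nontrivial A] [Algebra ℚ A] [Algebra.FiniteType ℚ A] :
    ∃ (L : Type) (_ : Field L) (_ : NumberField L), Nonempty (A →+* L) := by
  obtain ⟨m, hm⟩ := Ideal.exists_maximal A
  have h1 : Algebra.FiniteType ℚ (A ⧸ m) :=
    Algebra.FiniteType.of_surjective (Ideal.Quotient.mkₐ ℚ m) (Ideal.Quotient.mkₐ_surjective ℚ m)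
  exact ⟨A ⧸ m, Ideal.Quotient.field m,
    @numberField_of_finiteType_h10 (A ⧸ m) (Ideal.Quotient.field m) _ h1, ⟨Ideal.Quotient.mk m⟩⟩

end Pool.Agent.R1
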