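import Mathlib
import Pool.Agent.Lib.MP_1e1895_co.Defs
import Pool.Agent.Lib.MP_1e1895_co.D3
import Pool.Agent.Lib.MP_1e1895_co.E1

set_option autoImplicit false

namespace Pool.Agent.R1

/-- Row E2.  Fields of characteristic zero, finite sets.
Recipe: `A = Algebra.adjoin ℚ T`, `T` the finite set of the elements of `S`, their inverses, `a, b, c` and the inverses of the seven subset sums; E1 gives `φ : A →+* L`; `φ u ≠ 0` if `u` and `u⁻¹` are in `A`, `u ≠ 0`.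
D3 in `L`; the colour of `x ∈ A` is the colour of `φ x`. -/
theorem E2 : ∃ C : ℕ, ∀ (K : Type) [Field K] [CharZero K] (a b c : K), ZSF a b c → ∀ S : Finset K, GoodOn C a b c S := by
  classical
  obtain ⟨C, hC⟩ := D3
  refine ⟨C, ?_⟩
  intro K _ _ a b c hg S
  obtain ⟨ha, hb, hc, hab, hac, hbc, habc⟩ := hg
  let T : Set K := (S : Set K) ∪ (fun x => x⁻¹) '' (S : Set K) ∪
    {a, b, c, a⁻¹, b⁻¹, c⁻¹, (a + b)⁻¹, (a + c)⁻¹, (b + c)⁻¹, (a + b + c)⁻¹}
  have hTfin : T.Finite := by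
    apply Set.Finite.union (Set.Finite.union S.finite_toSet (S.finite_toSet.image _))
    exact Set.toFinite _
  let R := Algebra.adjoin ℚ T
  have hfg : Algebra.FiniteType ℚ R := by
    have : (Algebra.adjoin ℚ T).FG := ⟨hTfin.toFinset, by simp⟩
    exact (Subalgebra.fg_iff_finiteType _).1 this
  have hmem : ∀ t ∈ T, t ∈ R := fun t ht => Algebra.subset_adjoin ht
  obtain ⟨L, hL1, hL2, ⟨π⟩⟩ := E1 R
  have hunit : ∀ (t t' : K) (h : t ∈ R) (h' : t' ∈ R), t * t' = 1 → π ⟨t, h⟩ ≠ 0 := by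
    intro t t' h h' e e0
    have : π ⟨t, h⟩ * π ⟨t', h'⟩ = 1 := by
      rw [← map_mul, ← map_one π]
      congr 1
      exact Subtype.ext e
    rw [e0, zero_mul] at this
    exact zero_ne_one this
  have hsR : ∀ x ∈ S, x ∈ R := fun x hx => hmem _ (Or.inl (Or.inl hx))
  have hsR' : ∀ x ∈ S, x⁻¹ ∈ R := fun x hx => hmem _ (Or.inl (Or.inr ⟨x, hx, rfl⟩))
  have haR : a ∈ R := hmem _ (Or.inr (by simp))
  have hbR : b ∈ R := hmem _ (Or.inr (by simp))
  have hcR : c ∈ R := hmem _ (Or.inr (by simp))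
  have h1 : a⁻¹ ∈ R := hmem _ (Or.inr (by simp))
  have h2 : b⁻¹ ∈ R := hmem _ (Or.inr (by simp))
  have h3 : c⁻¹ ∈ R := hmem _ (Or.inr (by simp))
  have h4 : (a + b)⁻¹ ∈ R := hmem _ (Or.inr (by simp))
  have h5 : (a + c)⁻¹ ∈ R := hmem _ (Or.inr (by simp))
  have h6 : (b + c)⁻¹ ∈ R := hmem _ (Or.inr (by simp))
  have h7 : (a + b + c)⁻¹ ∈ R := hmem _ (Or.inr (by simp))
  let A : R := ⟨a, haR⟩
  let B : R := ⟨b, hbR⟩
  let D : R := ⟨c, hcR⟩
  have hgood : ZSF (π A) (π B) (π D) := by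
    refine ⟨hunit _ _ haR h1 (mul_inv_cancel₀ ha), hunit _ _ hbR h2 (mul_inv_cancel₀ hb),
      hunit _ _ hcR h3 (mul_inv_cancel₀ hc), ?_, ?_, ?_, ?_⟩
    · rw [← map_add]
      exact hunit (a + b) _ (add_mem haR hbR) h4 (mul_inv_cancel₀ hab)
    · rw [← map_add]
      exact hunit (a + c) _ (add_mem haR hcR) h5 (mul_inv_cancel₀ hac)
    · rw [← map_add]
      exact hunit (b + c) _ (add_mem hbR hcR) h6 (mul_inv_cancel₀ hbc)
    · rw [← map_add, ← map_add]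
      exact hunit (a + b + c) _ (add_mem (add_mem haR hbR) hcR) h7 (mul_inv_cancel₀ habc)
  obtain ⟨col, hcol⟩ := hC L (π A) (π B) (π D) hgood
  refine ⟨fun x => if h : x ∈ R then col (π ⟨x, h⟩) else col 0, ?_⟩
  intro x hx y hy z hz hx0 hy0 hz0 hsum
  have ex := hsR x hx
  have ey := hsR y hy
  have ez := hsR z hz
  simp only [ex, ey, ez, dif_pos]
  refine hcol _ _ _ (hunit _ _ ex (hsR' x hx) (mul_inv_cancel₀ hx0))
    (hunit _ _ ey (hsR' y hy) (mul_inv_cancel₀ hy0)) (hunit _ _ ez (hsR' z hz) (mul_inv_cancel₀ hz0)) ?_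
  rw [← map_mul, ← map_mul, ← map_mul, ← map_add, ← map_add, ← map_zero π]
  congr 1
  exact Subtype.ext hsum

end Pool.Agent.R1
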