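import Mathlib
import Pool.Agent.Lib.MP_1e1895_co.Defs

set_option autoImplicit false

namespace Pool.Agent.R1

/-- Row E3.  Compactness.
Recipe: an ultrafilter `U` on `Finset K` containing all `{S | x ∈ S}` (`Ultrafilter.of Filter.atTop`); `χ x` = the colour `i` with `∀ᶠ S in U, χ_S x = i` (finitely many colours). -/
theorem E3 {K : Type} [Field K] (n : ℕ) (a b c : K) (h : ∀ S : Finset K, GoodOn n a b c S) : Good n a b c := by
  classical
  choose χ hχ using h
  obtain ⟨U, hU⟩ : ∃ U : Ultrafilter (Finset K), U = Ultrafilter.of (Filter.atTop : Filter (Finset K)) :=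
    ⟨_, rfl⟩
  have hle : (U : Filter (Finset K)) ≤ Filter.atTop := by
    rw [hU]
    exact Ultrafilter.of_le _
  have hmem : ∀ x : K, ∀ᶠ S in (U : Filter (Finset K)), x ∈ S := by
    intro x
    refine hle ?_
    filter_upwards [Filter.eventually_ge_atTop ({x} : Finset K)] with S hS
    exact hS (Finset.mem_singleton_self x)
  have hcol : ∀ x : K, ∃ i : Fin n, ∀ᶠ S in (U : Filter (Finset K)), χ S x = i := by
    intro x
    obtain ⟨i, hi⟩ := Ultrafilter.eq_pure_of_finite (U.map (fun S => χ S x))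
    refine ⟨i, ?_⟩
    have h1 : ({i} : Set (Fin n)) ∈ U.map (fun S => χ S x) := by
      rw [hi]
      exact Ultrafilter.mem_pure.2 rfl
    rw [Ultrafilter.mem_map] at h1
    exact h1
  choose f hf using hcol
  refine ⟨f, fun x y z hx hy hz h0 => ?_⟩
  rintro ⟨h1, h2⟩
  have hev := (((hmem x).and (hmem y)).and (hmem z)).and (((hf x).and (hf y)).and (hf z))
  obtain ⟨S, ⟨⟨hxS, hyS⟩, hzS⟩, ⟨hfx, hfy⟩, hfz⟩ := hev.exists
  refine hχ S x hxS y hyS z hzS hx hy hz h0 ⟨?_, ?_⟩
  · rw [hfx, hfy, h1]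
  · rw [hfy, hfz, h2]

end Pool.Agent.R1
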