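import Mathlib
import Pool.Agent.Lib.MP_1e1895_co.Defs

set_option autoImplicit false

namespace Pool.Agent.R1

open Filter

private def ulIdeal (F : ℕ → Type) [∀ i, Field (F i)] (U : Ultrafilter ℕ) : Ideal (∀ i, F i) where
  carrier := {f | ∀ᶠ i in (U : Filter ℕ), f i = 0}
  add_mem' := by
    intro f g hf hg
    simp only [Set.mem_setOf_eq] at hf hg ⊢
    filter_upwards [hf, hg] with i h1 h2
    simp [h1, h2]
  zero_mem' := by simp
  smul_mem' := by
    intro r f hf
    simp only [Set.mem_setOf_eq] at hf ⊢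
    filter_upwards [hf] with i h1
    simp [h1]

private theorem mem_ulIdeal (F : ℕ → Type) [∀ i, Field (F i)] (U : Ultrafilter ℕ) (f : ∀ i, F i) :
    f ∈ ulIdeal F U ↔ ∀ᶠ i in (U : Filter ℕ), f i = 0 := Iff.rfl

private theorem ulIdeal_isMaximal (F : ℕ → Type) [∀ i, Field (F i)] (U : Ultrafilter ℕ) :
    (ulIdeal F U).IsMaximal := by
  rw [Ideal.isMaximal_iff]
  constructor
  · intro h
    rw [mem_ulIdeal] at h
    have : ∀ᶠ i in (U : Filter ℕ), False := by
      filter_upwards [h] with i hi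
      exact one_ne_zero hi
    obtain ⟨i, hi⟩ := this.exists
    exact hi
  · intro J f hJ hf hfJ
    rw [mem_ulIdeal, ← Ultrafilter.eventually_not] at hf
    have h1 : (1 - (fun i => (f i)⁻¹) * f : ∀ i, F i) ∈ ulIdeal F U := by
      rw [mem_ulIdeal]
      filter_upwards [hf] with i hi
      simp [hi]
    have h2 := J.add_mem (hJ h1) (J.mul_mem_left (fun i => (f i)⁻¹) hfJ)
    simpa using h2

/-- Row E4.  From characteristic zero to large characteristic.
Recipe: otherwise for every `i : ℕ` there are a field `F i` with `(q : F i) ≠ 0` for `0 < q < i`, `a i, b i, c i` and `S i` without colouring; remove `0` from `S i`; it is not empty (`Fin C` is not empty: apply `h` to `ℚ`, `1, 1, 1`), so `S i` is the set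
of values of some `e i : Fin N → F i`.  Let `P i = {(j, k, l) | a i * e i j + b i * e i k + c i * e i l = 0}`; some `P` occurs for infinitely many `i`, let `T` be the set of these `i`.  In the ring
`∀ i, F i` the `f` with `{i ∈ T | f i ≠ 0}` finite form a proper ideal; let `M` be a maximal ideal containing it and `K` the quotient field: `CharZero` (`q * f - 1` is in the ideal for `f i = q⁻¹`), the classes of `a`, `b`, `c`, subset sums, `e j` are
nonzero (units), and the equations of `P` hold.  Colour `x ∈ S i` (`i ∈ T`) by the colour in `K` of the class of `e j`, `j` chosen with `e i j = x`. -/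
theorem E4 (C : ℕ) (h : ∀ (K : Type) [Field K] [CharZero K] (a b c : K), ZSF a b c → Good C a b c) (N : ℕ) :
    ∃ p₀ : ℕ, ∀ (F : Type) [Field F], (∀ q : ℕ, 0 < q → q < p₀ → (q : F) ≠ 0) → ∀ a b c : F, ZSF a b c →
      ∀ S : Finset F, S.card ≤ N → GoodOn C a b c S := by
  by_contra hcon
  have hcon' : ∀ p₀ : ℕ, ∃ (F : Type) (_ : Field F), (∀ q : ℕ, 0 < q → q < p₀ → (q : F) ≠ 0) ∧
      ∃ a b c : F, ZSF a b c ∧ ∃ S : Finset F, S.card ≤ N ∧ ¬ GoodOn C a b c S := by
    intro p₀
    by_contra hne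
    apply hcon
    refine ⟨p₀, fun F _ hF a b c habc S hS => ?_⟩
    by_contra hG
    exact hne ⟨F, inferInstance, hF, a, b, c, habc, S, hS, hG⟩
  choose F inst hF a b c hz S hS hG using hcon'
  let U : Ultrafilter ℕ := Filter.hyperfilter ℕ
  have hU : (U : Filter ℕ) ≤ Filter.atTop := by
    have := Filter.hyperfilter_le_cofinite (α := ℕ)
    rwa [Nat.cofinite_eq_atTop] at this
  -- lists
  classical
  let L : ∀ i, List (F i) := fun i => ((S i).erase 0).toList
  let e : Fin N → ∀ i, F i := fun j i => (L i).getD j 1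
  have hLmem : ∀ i x, x ∈ L i ↔ x ≠ 0 ∧ x ∈ S i := by
    intro i x
    simp [L, Finset.mem_erase]
  have he0 : ∀ j i, e j i ≠ 0 := by
    intro j i
    simp only [e]
    by_cases hj : (j : ℕ) < (L i).length
    · rw [List.getD_eq_getElem _ _ hj]
      exact ((hLmem i _).1 (List.getElem_mem hj)).1
    · rw [List.getD_eq_default _ _ (by omega)]
      exact one_ne_zero
  have hesurj : ∀ i x, x ∈ S i → x ≠ 0 → ∃ j : Fin N, e j i = x := by
    intro i x hx hx0
    have hxL : x ∈ L i := (hLmem i x).2 ⟨hx0, hx⟩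
    obtain ⟨n, hn, hnx⟩ := List.mem_iff_getElem.1 hxL
    have hlen : (L i).length ≤ N := by
      simp only [L, Finset.length_toList]
      exact (Finset.card_le_card (Finset.erase_subset _ _)).trans (hS i)
    refine ⟨⟨n, lt_of_lt_of_le hn hlen⟩, ?_⟩
    simp only [e]
    rw [List.getD_eq_getElem _ _ hn, hnx]
  -- the quotient field
  let M := ulIdeal F U
  have : M.IsMaximal := ulIdeal_isMaximal F U
  letI : Field ((∀ i, F i) ⧸ M) := Ideal.Quotient.field M
  let π : (∀ i, F i) →+* ((∀ i, F i) ⧸ M) := Ideal.Quotient.mk M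
  have hπ : ∀ f : ∀ i, F i, π f = 0 ↔ ∀ᶠ i in (U : Filter ℕ), f i = 0 := by
    intro f
    rw [← mem_ulIdeal]
    exact Ideal.Quotient.eq_zero_iff_mem
  have hπ0 : ∀ f : ∀ i, F i, (∀ i, f i ≠ 0) → π f ≠ 0 := by
    intro f hf h0
    rw [hπ] at h0
    have : ∀ᶠ i in (U : Filter ℕ), False := by
      filter_upwards [h0] with i hi
      exact hf i hi
    obtain ⟨i, hi⟩ := this.exists
    exact hi
  have : CharZero ((∀ i, F i) ⧸ M) := by
    apply charZero_of_inj_zero
    intro n hn
    by_contra hn0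
    have h1 : π (n : ∀ i, F i) = 0 := by
      rw [map_natCast]
      exact hn
    rw [hπ] at h1
    have h2 : ∀ᶠ i in (U : Filter ℕ), n < i := hU (Filter.eventually_gt_atTop n)
    have : ∀ᶠ i in (U : Filter ℕ), False := by
      filter_upwards [h1, h2] with i hi1 hi2
      exact hF i n (Nat.pos_of_ne_zero hn0) hi2 (by simpa using hi1)
    obtain ⟨i, hi⟩ := this.exists
    exact hi
  have hzsf : ZSF (π a) (π b) (π c) := by
    refine ⟨hπ0 a fun i => (hz i).1, hπ0 b fun i => (hz i).2.1, hπ0 c fun i => (hz i).2.2.1, ?_, ?_, ?_, ?_⟩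
    · rw [← map_add]; exact hπ0 _ fun i => (hz i).2.2.2.1
    · rw [← map_add]; exact hπ0 _ fun i => (hz i).2.2.2.2.1
    · rw [← map_add]; exact hπ0 _ fun i => (hz i).2.2.2.2.2.1
    · rw [← map_add, ← map_add]; exact hπ0 _ fun i => (hz i).2.2.2.2.2.2
  obtain ⟨χ, hχ⟩ := h _ (π a) (π b) (π c) hzsf
  -- choose an index
  have hev : ∀ᶠ i in (U : Filter ℕ), ∀ t : Fin N × Fin N × Fin N,
      a i * e t.1 i + b i * e t.2.1 i + c i * e t.2.2 i = 0 →
        π a * π (e t.1) + π b * π (e t.2.1) + π c * π (e t.2.2) = 0 := by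
    rw [Filter.eventually_all]
    intro t
    by_cases ht : π a * π (e t.1) + π b * π (e t.2.1) + π c * π (e t.2.2) = 0
    · exact Filter.Eventually.of_forall fun i _ => ht
    · rw [← map_mul, ← map_mul, ← map_mul, ← map_add, ← map_add, hπ, ← Ultrafilter.eventually_not] at ht
      filter_upwards [ht] with i hi h0
      exact absurd h0 hi
  obtain ⟨i, hi⟩ := hev.exists
  apply hG i
  -- colouring
  let χ' : F i → Fin C := fun x => if hx : ∃ j : Fin N, e j i = x then χ (π (e hx.choose)) else χ 0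
  refine ⟨χ', fun x hx y hy z hz' hx0 hy0 hz0 heq hcol => ?_⟩
  have hxe := hesurj i x hx hx0
  have hye := hesurj i y hy hy0
  have hze := hesurj i z hz' hz0
  have e1 : χ' x = χ (π (e hxe.choose)) := by simp only [χ', dif_pos hxe]
  have e2 : χ' y = χ (π (e hye.choose)) := by simp only [χ', dif_pos hye]
  have e3 : χ' z = χ (π (e hze.choose)) := by simp only [χ', dif_pos hze]
  rw [e1, e2, e3] at hcol
  refine hχ _ _ _ (hπ0 _ (he0 _)) (hπ0 _ (he0 _)) (hπ0 _ (he0 _)) ?_ hcol
  exact hi (hxe.choose, hye.choose, hze.choose) (by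
    simp only [hxe.choose_spec, hye.choose_spec, hze.choose_spec]
    exact heq)

end Pool.Agent.R1
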