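import Mathlib
import Pool.Agent.Lib.MP_1e1895_co.DefsG

set_option autoImplicit false

namespace Pool.Agent.R1

private theorem G1_chain {W F : Type} [CommRing W] [Field F] (π : W →+* F) (A : Subring W)
    (h₃ : ∀ w ∈ A, π w = 0 → w = 0) :
    ∃ B : Subring W, A ≤ B ∧ (∀ w ∈ B, π w = 0 → w = 0) ∧
      ∀ C : Subring W, B ≤ C → (∀ w ∈ C, π w = 0 → w = 0) → C ≤ B := by
  obtain ⟨B, hAB, hB⟩ := zorn_le_nonempty₀ {B : Subring W | ∀ w ∈ B, π w = 0 → w = 0} (by
    intro c hc hchain y hy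
    refine ⟨sSup c, ?_, fun z hz => le_sSup hz⟩
    intro w hw hw0
    rw [Subring.mem_sSup_of_directedOn ⟨y, hy⟩ hchain.directedOn] at hw
    obtain ⟨s, hs, hws⟩ := hw
    exact hc hs w hws hw0) A h₃
  exact ⟨B, hAB, hB.prop, fun C hBC hC => hB.le_of_ge hC hBC⟩

/-- the subring of fractions -/
private def G1_frac {W F : Type} [CommRing W] [Field F] (π : W →+* F) (B : Subring W) : Subring W where
  carrier := {x | ∃ b ∈ B, ∃ s ∈ B, π s ≠ 0 ∧ s * x = b}
  mul_mem' := by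
    rintro x y ⟨b, hb, s, hs, hs0, hsx⟩ ⟨b', hb', s', hs', hs0', hsx'⟩
    refine ⟨b * b', B.mul_mem hb hb', s * s', B.mul_mem hs hs', ?_, ?_⟩
    · rw [map_mul]
      exact mul_ne_zero hs0 hs0'
    · rw [← hsx, ← hsx']
      ring
  one_mem' := ⟨1, B.one_mem, 1, B.one_mem, by simp, by simp⟩
  add_mem' := by
    rintro x y ⟨b, hb, s, hs, hs0, hsx⟩ ⟨b', hb', s', hs', hs0', hsx'⟩
    refine ⟨s' * b + s * b', B.add_mem (B.mul_mem hs' hb) (B.mul_mem hs hb'), s * s', B.mul_mem hs hs', ?_, ?_⟩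
    · rw [map_mul]
      exact mul_ne_zero hs0 hs0'
    · rw [← hsx, ← hsx']
      ring
  zero_mem' := ⟨0, B.zero_mem, 1, B.one_mem, by simp, by simp⟩
  neg_mem' := by
    rintro x ⟨b, hb, s, hs, hs0, hsx⟩
    exact ⟨-b, B.neg_mem hb, s, hs, hs0, by rw [← hsx]; ring⟩

/-- Row G1.  Coefficient fields, first step: a maximal subring on which `π` is injective.
Recipe: Zorn (`zorn_le_nonempty₀`) for the subrings `B ≥ A` with `∀ w ∈ B, π w = 0 → w = 0`; the union of a chain is `sSup` (`Subring.mem_sSup_of_directedOn`).  Inverses: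
`B' = {x | ∃ b ∈ B, ∃ s ∈ B, π s ≠ 0 ∧ s * x = b}` is a subring containing `B` with the same property (`s` is a unit), so `B' = B`.  Last part: the subring of all `g(w)`,
`g` a polynomial over `B` (`(Algebra.adjoin B {w}).toSubring`, `Algebra.adjoin_singleton_eq_range_aeval`) contains `B` and has the same property. -/
theorem G1 (W F : Type) [CommRing W] [Field F] (π : W →+* F) (h₁ : ∀ w, π w ≠ 0 → IsUnit w) (A : Subring W)
    (h₃ : ∀ w ∈ A, π w = 0 → w = 0) : ∃ B : Subring W, A ≤ B ∧ (∀ w ∈ B, π w = 0 → w = 0) ∧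
      (∀ w ∈ B, w ≠ 0 → ∃ w' ∈ B, w * w' = 1) ∧
      (∀ w : W, (∀ g : Polynomial B, π (Polynomial.aeval w g) = 0 → Polynomial.aeval w g = 0) → w ∈ B) := by
  obtain ⟨B, hAB, hB, hmax⟩ := G1_chain π A h₃
  refine ⟨B, hAB, hB, ?_, ?_⟩
  · intro w hw hw0
    have hπ : π w ≠ 0 := fun h => hw0 (hB w hw h)
    obtain ⟨v, hv⟩ := (h₁ w hπ).exists_right_inv
    refine ⟨v, ?_, hv⟩
    have hle : G1_frac π B ≤ B := by
      refine hmax _ ?_ ?_
      · intro x hx
        exact ⟨x, hx, 1, B.one_mem, by simp, by simp⟩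
      · rintro x ⟨b, hb, s, hs, hs0, hsx⟩ hx0
        have hb0 : b = 0 := by
          refine hB b hb ?_
          rw [← hsx, map_mul, hx0, mul_zero]
        rw [hb0] at hsx
        exact (h₁ s hs0).mul_right_eq_zero.1 hsx
    exact hle ⟨1, B.one_mem, w, hw, hπ, hv⟩
  · intro w hw
    have hle : (Polynomial.aeval (R := B) w).range.toSubring ≤ B := by
      refine hmax _ ?_ ?_
      · intro x hx
        refine ⟨Polynomial.C ⟨x, hx⟩, ?_⟩
        exact Polynomial.aeval_C w (⟨x, hx⟩ : B)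
      · rintro x ⟨g, rfl⟩ hx0
        exact hw g hx0
    exact hle ⟨Polynomial.X, Polynomial.aeval_X w⟩

end Pool.Agent.R1
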