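import Mathlib
import Pool.Agent.Lib.MP_1e1895_co.DefsG
import Pool.Agent.Lib.MP_1e1895_co.G1

set_option autoImplicit false

namespace Pool.Agent.R1

private theorem g2_aux (B W F : Type) [Field B] [CommRing W] [Field F] [CharZero F] [Algebra B W]
    (π : W →+* F) (hs : Function.Surjective π)
    (h₂ : ∀ (G : Polynomial W) (w : W), π (G.eval w) = 0 → π (G.derivative.eval w) ≠ 0 →
      ∃ w' : W, G.eval w' = 0 ∧ π w' = π w) (u : F) :
    ∃ w : W, π w = u ∧ ∀ g : Polynomial B, π (Polynomial.aeval w g) = 0 → Polynomial.aeval w g = 0 := by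
  letI : Algebra B F := (π.comp (algebraMap B W)).toAlgebra
  have hmap : ∀ (g : Polynomial B) (w : W), π (Polynomial.aeval w g) = Polynomial.aeval (π w) g := by
    intro g w
    rw [Polynomial.aeval_def, Polynomial.aeval_def, Polynomial.hom_eval₂]
    rfl
  by_cases hu : IsIntegral B u
  · haveI : CharZero B := (algebraMap B F).charZero
    obtain ⟨w₀, hw₀⟩ := hs u
    have hsep : (minpoly B u).Separable := (minpoly.irreducible hu).separable
    have h0 : Polynomial.aeval u (minpoly B u) = 0 := minpoly.aeval B u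
    have h1 : Polynomial.aeval u (minpoly B u).derivative ≠ 0 :=
      hsep.aeval_derivative_ne_zero h0
    have hev : ∀ (g : Polynomial B) (w : W), (g.map (algebraMap B W)).eval w = Polynomial.aeval w g := by
      intro g w
      rw [Polynomial.eval_map_algebraMap]
    obtain ⟨w', hw1, hw2⟩ := h₂ ((minpoly B u).map (algebraMap B W)) w₀
      (by rw [hev, hmap, hw₀, h0]) (by
        rw [Polynomial.derivative_map, hev, hmap, hw₀]
        exact h1)
    refine ⟨w', hw2.trans hw₀, fun g hg => ?_⟩
    rw [hmap, hw2, hw₀] at hg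
    obtain ⟨k, rfl⟩ := minpoly.dvd B u hg
    rw [map_mul, ← hev (minpoly B u) w', hw1, zero_mul]
  · obtain ⟨w, hw⟩ := hs u
    refine ⟨w, hw, fun g hg => ?_⟩
    rw [hmap, hw] at hg
    have hg0 : g = 0 := by
      by_contra hne
      exact hu (isAlgebraic_iff_isIntegral.1 ⟨g, hne, hg⟩)
    rw [hg0, map_zero]

/-- Row G2.  Coefficient fields of Henselian rings of residue characteristic zero.
Recipe: take `B` from G1; it is a field (`IsField.toField`, so that the ring structure does not change) and `F` is an algebra over it by `(π.comp B.subtype).toAlgebra`;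
`π (aeval w g) = aeval (π w) g` (`Polynomial.aeval`/`eval₂` and `hom_eval₂`).  Let `u : F`.  If `u` is not algebraic over `B` take any `w` with `π w = u`: `π (aeval w g) = 0` gives `g = 0`.
If it is algebraic let `f = minpoly B u`; `f` is separable (characteristic `0`), so `aeval u f.derivative ≠ 0`; `h₂` for `G = f.map B.subtype` and any lift of `u` gives `w'` with
`aeval w' f = 0`, `π w' = u`; if `π (aeval w' g) = 0` then `f ∣ g`, so `aeval w' g = 0`.  So `w' ∈ B` by G1. -/
theorem G2 (W F : Type) [CommRing W] [Field F] [CharZero F] (π : W →+* F) (h₁ : ∀ w, π w ≠ 0 → IsUnit w)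
    (hs : Function.Surjective π)
    (h₂ : ∀ (G : Polynomial W) (w : W), π (G.eval w) = 0 → π (G.derivative.eval w) ≠ 0 →
      ∃ w' : W, G.eval w' = 0 ∧ π w' = π w)
    (A : Subring W) (h₃ : ∀ w ∈ A, π w = 0 → w = 0) :
    ∃ B : Subring W, A ≤ B ∧ (∀ w ∈ B, π w = 0 → w = 0) ∧ ∀ u : F, ∃ w ∈ B, π w = u := by
  classical
  obtain ⟨B, hAB, hB0, hBinv, hBmax⟩ := G1 W F π h₁ A h₃
  have hnt : Nontrivial W := by
    refine ⟨⟨1, 0, fun h => ?_⟩⟩
    have := congrArg π h
    rw [map_one, map_zero] at this
    exact one_ne_zero this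
  have hfield : IsField B := by
    refine ⟨⟨0, 1, ?_⟩, mul_comm, ?_⟩
    · intro h
      have := congrArg Subtype.val h
      simp at this
    · intro a ha
      obtain ⟨w', hw', h⟩ := hBinv a.1 a.2 (fun h => ha (Subtype.ext h))
      exact ⟨⟨w', hw'⟩, Subtype.ext h⟩
  have key : ∀ u : F, ∃ w : W, π w = u ∧
      ∀ g : Polynomial B, π (Polynomial.aeval w g) = 0 → Polynomial.aeval w g = 0 := by
    intro u
    letI := hfield.toField
    exact g2_aux B W F π hs h₂ u
  refine ⟨B, hAB, hB0, fun u => ?_⟩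
  obtain ⟨w, hw, h⟩ := key u
  exact ⟨w, hBmax w h, hw⟩


end Pool.Agent.R1
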