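import Mathlib
import Pool.Agent.Lib.MP_1e1895_co.DefsG

set_option autoImplicit false

namespace Pool.Agent.R1

open Filter

private def ulI (R : ℕ → Type) [∀ i, CommRing (R i)] (U : Ultrafilter ℕ) : Ideal (∀ i, R i) where
  carrier := {f | ∀ᶠ i in (U : Filter ℕ), f i = 0}
  add_mem' := by
    intro f g hf hg
    simp only [Set.mem_ofPred_eq] at hf hg ⊢
    filter_upwards [hf, hg] with i h1 h2
    simp [h1, h2]
  zero_mem' := by simp
  smul_mem' := by
    intro r f hf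
    simp only [Set.mem_ofPred_eq] at hf ⊢
    filter_upwards [hf] with i h1
    simp [h1]

private theorem mem_ulI (R : ℕ → Type) [∀ i, CommRing (R i)] (U : Ultrafilter ℕ) (f : ∀ i, R i) :
    f ∈ ulI R U ↔ ∀ᶠ i in (U : Filter ℕ), f i = 0 := Iff.rfl

private theorem ulI_isMaximal (F : ℕ → Type) [∀ i, Field (F i)] (U : Ultrafilter ℕ) :
    (ulI F U).IsMaximal := by
  rw [Ideal.isMaximal_iff]
  constructor
  · intro h
    rw [mem_ulI] at h
    have : ∀ᶠ i in (U : Filter ℕ), False := by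
      filter_upwards [h] with i hi
      exact one_ne_zero hi
    obtain ⟨i, hi⟩ := this.exists
    exact hi
  · intro J f hJ hf hfJ
    rw [mem_ulI, ← Ultrafilter.eventually_not] at hf
    have h1 : (1 - (fun i => (f i)⁻¹) * f : ∀ i, F i) ∈ ulI F U := by
      rw [mem_ulI]
      filter_upwards [hf] with i hi
      simp [hi]
    have h2 := J.add_mem (hJ h1) (J.mul_mem_left (fun i => (f i)⁻¹) hfJ)
    simpa using h2

private theorem toZMod_eq_zero {p : ℕ} [Fact p.Prime] (x : ℤ_[p]) :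
    PadicInt.toZMod x = 0 ↔ ‖x‖ < 1 := by
  rw [← RingHom.mem_ker, PadicInt.ker_toZMod, IsLocalRing.mem_maximalIdeal, PadicInt.mem_nonunits]

private theorem toZMod_ne_zero {p : ℕ} [Fact p.Prime] (x : ℤ_[p]) :
    PadicInt.toZMod x ≠ 0 ↔ ‖x‖ = 1 := by
  rw [Ne, toZMod_eq_zero, not_lt]
  exact ⟨fun h => le_antisymm (PadicInt.norm_le_one x) h, fun h => h.ge⟩

private theorem henselZ {p : ℕ} [Fact p.Prime] (G : Polynomial ℤ_[p]) (a : ℤ_[p])
    (h1 : PadicInt.toZMod (G.eval a) = 0) (h2 : PadicInt.toZMod (G.derivative.eval a) ≠ 0) :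
    ∃ z : ℤ_[p], G.eval z = 0 ∧ PadicInt.toZMod z = PadicInt.toZMod a := by
  rw [toZMod_eq_zero] at h1
  rw [toZMod_ne_zero] at h2
  obtain ⟨z, hz, hza, -, -⟩ := hensels_lemma (F := G) (a := a) (by
    simp only [Polynomial.coe_aeval_eq_eval]
    rw [h2, one_pow]
    exact h1)
  simp only [Polynomial.coe_aeval_eq_eval] at hz hza
  refine ⟨z, hz, ?_⟩
  rw [← sub_eq_zero, ← map_sub, toZMod_eq_zero]
  rw [h2] at hza
  exact hza

private noncomputable def red (p : ℕ → ℕ) [∀ i, Fact (p i).Prime] :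
    (∀ i, ℤ_[p i]) →+* (∀ i, ZMod (p i)) :=
  RingHom.pi (fun i => (PadicInt.toZMod (p := p i)).comp (Pi.evalRingHom (fun i => ℤ_[p i]) i))

private theorem red_apply (p : ℕ → ℕ) [∀ i, Fact (p i).Prime] (f : ∀ i, ℤ_[p i]) (i : ℕ) :
    red p f i = PadicInt.toZMod (f i) := rfl

/-- Row G3.  Ultraproduct of the rings of `p`-adic integers. -/
theorem G3 (p : ℕ → ℕ) [∀ i, Fact (p i).Prime] (U : Ultrafilter ℕ) (hp : ∀ n : ℕ, ∀ᶠ i in (U : Filter ℕ), n < p i) :
    ∃ (W F : Type) (_ : CommRing W) (_ : Field F) (_ : CharZero F) (α : (∀ i, ℤ_[p i]) →+* W)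
      (β : (∀ i, ZMod (p i)) →+* F) (π : W →+* F),
      Function.Surjective α ∧ Function.Surjective β ∧ Function.Surjective π ∧
      (∀ f, α f = 0 ↔ ∀ᶠ i in (U : Filter ℕ), f i = 0) ∧ (∀ f, β f = 0 ↔ ∀ᶠ i in (U : Filter ℕ), f i = 0) ∧
      (∀ f, π (α f) = β (fun i => PadicInt.toZMod (f i))) ∧
      (∀ w, π w ≠ 0 → IsUnit w) ∧
      (∀ (G : Polynomial W) (w : W), π (G.eval w) = 0 → π (G.derivative.eval w) ≠ 0 →
        ∃ w' : W, G.eval w' = 0 ∧ π w' = π w) := by
  classical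
  have hmax : (ulI (fun i => ZMod (p i)) U).IsMaximal := ulI_isMaximal (fun i => ZMod (p i)) U
  let _ : Field ((∀ i, ZMod (p i)) ⧸ ulI (fun i => ZMod (p i)) U) :=
    Ideal.Quotient.field (ulI (fun i => ZMod (p i)) U)
  have hβ : ∀ f : ∀ i, ZMod (p i), Ideal.Quotient.mk (ulI (fun i => ZMod (p i)) U) f = 0 ↔
      ∀ᶠ i in (U : Filter ℕ), f i = 0 := by
    intro f
    rw [← mem_ulI (fun i => ZMod (p i))]
    exact Ideal.Quotient.eq_zero_iff_mem
  have hα : ∀ f : ∀ i, ℤ_[p i], Ideal.Quotient.mk (ulI (fun i => ℤ_[p i]) U) f = 0 ↔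
      ∀ᶠ i in (U : Filter ℕ), f i = 0 := by
    intro f
    rw [← mem_ulI (fun i => ℤ_[p i])]
    exact Ideal.Quotient.eq_zero_iff_mem
  have hchar : CharZero ((∀ i, ZMod (p i)) ⧸ ulI (fun i => ZMod (p i)) U) := by
    apply charZero_of_inj_zero
    intro n hn
    by_contra hn0
    have h1 : Ideal.Quotient.mk (ulI (fun i => ZMod (p i)) U) (n : ∀ i, ZMod (p i)) = 0 := by
      rw [map_natCast]
      exact hn
    rw [hβ] at h1
    have : ∀ᶠ i in (U : Filter ℕ), False := by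
      filter_upwards [h1, hp n] with i hi1 hi2
      have h3 : ((n : ℕ) : ZMod (p i)) = 0 := by simpa using hi1
      rw [ZMod.natCast_eq_zero_iff] at h3
      exact absurd (Nat.le_of_dvd (Nat.pos_of_ne_zero hn0) h3) (by omega)
    obtain ⟨i, hi⟩ := this.exists
    exact hi
  have hlift : ∀ f ∈ ulI (fun i => ℤ_[p i]) U,
      ((Ideal.Quotient.mk (ulI (fun i => ZMod (p i)) U)).comp (red p)) f = 0 := by
    intro f hf
    rw [RingHom.comp_apply, hβ]
    rw [mem_ulI] at hf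
    filter_upwards [hf] with i hi
    rw [red_apply, hi, map_zero]
  have hπα : ∀ f : ∀ i, ℤ_[p i], Ideal.Quotient.lift (ulI (fun i => ℤ_[p i]) U)
      ((Ideal.Quotient.mk (ulI (fun i => ZMod (p i)) U)).comp (red p)) hlift
      (Ideal.Quotient.mk (ulI (fun i => ℤ_[p i]) U) f) =
      Ideal.Quotient.mk (ulI (fun i => ZMod (p i)) U) (red p f) := fun f => rfl
  refine ⟨(∀ i, ℤ_[p i]) ⧸ ulI (fun i => ℤ_[p i]) U, (∀ i, ZMod (p i)) ⧸ ulI (fun i => ZMod (p i)) U,
    inferInstance, inferInstance, hchar, Ideal.Quotient.mk _, Ideal.Quotient.mk _,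
    Ideal.Quotient.lift _ ((Ideal.Quotient.mk (ulI (fun i => ZMod (p i)) U)).comp (red p)) hlift,
    Ideal.Quotient.mk_surjective, Ideal.Quotient.mk_surjective, ?_, hα, hβ, fun f => rfl, ?_, ?_⟩
  · intro x
    obtain ⟨g, rfl⟩ := Ideal.Quotient.mk_surjective x
    have hs : ∀ i, ∃ y : ℤ_[p i], PadicInt.toZMod y = g i := by
      intro i
      refine ⟨((g i).val : ℤ_[p i]), ?_⟩
      rw [map_natCast, ZMod.natCast_zmod_val]
    choose y hy using hs
    refine ⟨Ideal.Quotient.mk _ y, ?_⟩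
    rw [hπα]
    congr 1
    funext i
    exact hy i
  · intro w hw
    obtain ⟨f, rfl⟩ := Ideal.Quotient.mk_surjective w
    rw [hπα, Ne, hβ, ← Ultrafilter.eventually_not] at hw
    have h1 : Ideal.Quotient.mk (ulI (fun i => ℤ_[p i]) U)
        (f * (fun i => if h : IsUnit (f i) then ((h.unit⁻¹ : (ℤ_[p i])ˣ) : ℤ_[p i]) else 0) - 1) = 0 := by
      rw [hα]
      filter_upwards [hw] with i hi
      rw [red_apply] at hi
      have hu : IsUnit (f i) := by
        rw [PadicInt.isUnit_iff]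
        exact (toZMod_ne_zero _).1 hi
      show f i * (if h : IsUnit (f i) then ((h.unit⁻¹ : (ℤ_[p i])ˣ) : ℤ_[p i]) else 0) - 1 = 0
      rw [dif_pos hu, IsUnit.mul_val_inv, sub_self]
    rw [map_sub, map_mul, map_one, sub_eq_zero] at h1
    exact IsUnit.of_mul_eq_one _ h1
  · intro G w hG hG'
    obtain ⟨f, rfl⟩ := Ideal.Quotient.mk_surjective w
    obtain ⟨P, rfl⟩ := Polynomial.map_surjective (Ideal.Quotient.mk (ulI (fun i => ℤ_[p i]) U))
      Ideal.Quotient.mk_surjective G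
    rw [Polynomial.eval_map_apply, hπα, hβ] at hG
    rw [Polynomial.derivative_map, Polynomial.eval_map_apply, hπα, Ne, hβ,
      ← Ultrafilter.eventually_not] at hG'
    have hev : ∀ (Q : Polynomial (∀ i, ℤ_[p i])) (g : ∀ i, ℤ_[p i]) (i : ℕ),
        (Q.eval g) i = (Q.map (Pi.evalRingHom (fun i => ℤ_[p i]) i)).eval (g i) := by
      intro Q g i
      exact (Polynomial.eval_map_apply (f := Pi.evalRingHom (fun i => ℤ_[p i]) i) g).symm
    have hex : ∀ i, ∃ z : ℤ_[p i], (red p (P.eval f) i = 0 ∧ ¬ red p (P.derivative.eval f) i = 0) →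
        (P.map (Pi.evalRingHom (fun i => ℤ_[p i]) i)).eval z = 0 ∧
          PadicInt.toZMod z = PadicInt.toZMod (f i) := by
      intro i
      by_cases h : red p (P.eval f) i = 0 ∧ ¬ red p (P.derivative.eval f) i = 0
      · obtain ⟨h1, h2⟩ := h
        rw [red_apply, hev] at h1 h2
        rw [← Polynomial.derivative_map] at h2
        obtain ⟨z, hz1, hz2⟩ := henselZ _ _ h1 h2
        exact ⟨z, fun _ => ⟨hz1, hz2⟩⟩
      · exact ⟨0, fun h' => absurd h' h⟩
    choose z hz using hex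
    refine ⟨Ideal.Quotient.mk _ z, ?_, ?_⟩
    · rw [Polynomial.eval_map_apply, hα]
      filter_upwards [hG, hG'] with i h1 h2
      rw [hev]
      exact (hz i ⟨h1, h2⟩).1
    · rw [hπα, hπα, ← sub_eq_zero, ← map_sub, hβ]
      filter_upwards [hG, hG'] with i h1 h2
      show red p z i - red p f i = 0
      rw [red_apply, red_apply, (hz i ⟨h1, h2⟩).2, sub_self]

end Pool.Agent.R1
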