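import Mathlib
import Pool.Agent.Lib.MP_1e1895_co.DefsG
import Pool.Agent.Lib.MP_1e1895_co.G2
import Pool.Agent.Lib.MP_1e1895_co.G3

set_option autoImplicit false

namespace Pool.Agent.R1

private def ex {R : Type} [CommRing R] {d : ℕ} (a b c : R) (l x y z x' y' z' : Fin d → R) : R :=
  a * (∑ j, x j * l j) * (∑ j, y' j * l j) * (∑ j, z' j * l j) +
  b * (∑ j, y j * l j) * (∑ j, x' j * l j) * (∑ j, z' j * l j) +
  c * (∑ j, z j * l j) * (∑ j, x' j * l j) * (∑ j, y' j * l j)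

private theorem map_ex {R S : Type} [CommRing R] [CommRing S] (φ : R →+* S) {d : ℕ} (a b c : R)
    (l x y z x' y' z' : Fin d → R) :
    φ (ex a b c l x y z x' y' z') = ex (φ a) (φ b) (φ c) (fun j => φ (l j)) (fun j => φ (x j))
      (fun j => φ (y j)) (fun j => φ (z j)) (fun j => φ (x' j)) (fun j => φ (y' j)) (fun j => φ (z' j)) := by
  simp only [ex, map_add, map_mul, map_sum]

private theorem mem_ex {R : Type} [CommRing R] (B : Subring R) {d : ℕ} (a b c : R)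
    (l x y z x' y' z' : Fin d → R) (ha : a ∈ B) (hb : b ∈ B) (hc : c ∈ B) (hl : ∀ j, l j ∈ B)
    (hx : ∀ j, x j ∈ B) (hy : ∀ j, y j ∈ B) (hz : ∀ j, z j ∈ B) (hx' : ∀ j, x' j ∈ B)
    (hy' : ∀ j, y' j ∈ B) (hz' : ∀ j, z' j ∈ B) : ex a b c l x y z x' y' z' ∈ B := by
  have hs : ∀ w : Fin d → R, (∀ j, w j ∈ B) → ∑ j, w j * l j ∈ B := fun w hw =>
    Subring.sum_mem _ fun j _ => B.mul_mem (hw j) (hl j)
  unfold ex
  exact B.add_mem (B.add_mem
    (B.mul_mem (B.mul_mem (B.mul_mem ha (hs _ hx)) (hs _ hy')) (hs _ hz'))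
    (B.mul_mem (B.mul_mem (B.mul_mem hb (hs _ hy)) (hs _ hx')) (hs _ hz')))
    (B.mul_mem (B.mul_mem (B.mul_mem hc (hs _ hz)) (hs _ hx')) (hs _ hy'))

/-- families of integers of small height -/
private def smallInt (p : ℕ → ℕ) [∀ i, Fact (p i).Prime] (U : Ultrafilter ℕ) (H : ℕ → ℕ) (hH : ∀ i, 1 ≤ H i) :
    Subring (∀ i, ℤ_[p i]) where
  carrier := {f | ∃ r : ℕ, ∀ᶠ i in (U : Filter ℕ), ∃ n : ℤ, |n| ≤ ((H i + 1) ^ r : ℕ) ∧ f i = (n : ℤ_[p i])}
  mul_mem' := by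
    rintro f g ⟨r, hf⟩ ⟨s, hg⟩
    refine ⟨r + s, ?_⟩
    filter_upwards [hf, hg] with i h1 h2
    obtain ⟨n, hn, hfn⟩ := h1
    obtain ⟨m, hm, hgm⟩ := h2
    refine ⟨n * m, ?_, ?_⟩
    · rw [abs_mul, pow_add]
      push_cast at hn hm ⊢
      exact mul_le_mul hn hm (abs_nonneg _) (by positivity)
    · rw [Pi.mul_apply, hfn, hgm]
      push_cast
      rfl
  one_mem' := ⟨0, Filter.Eventually.of_forall fun i => ⟨1, by simp, by simp⟩⟩
  add_mem' := by
    rintro f g ⟨r, hf⟩ ⟨s, hg⟩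
    refine ⟨r + s + 1, ?_⟩
    filter_upwards [hf, hg] with i h1 h2
    obtain ⟨n, hn, hfn⟩ := h1
    obtain ⟨m, hm, hgm⟩ := h2
    refine ⟨n + m, ?_, ?_⟩
    · have hb : (2 : ℕ) ≤ H i + 1 := by have := hH i; omega
      have e1 : (H i + 1) ^ r ≤ (H i + 1) ^ (r + s) := Nat.pow_le_pow_right (by omega) (by omega)
      have e2 : (H i + 1) ^ s ≤ (H i + 1) ^ (r + s) := Nat.pow_le_pow_right (by omega) (by omega)
      have e3 : (H i + 1) ^ r + (H i + 1) ^ s ≤ (H i + 1) ^ (r + s + 1) := by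
        rw [pow_succ]
        calc (H i + 1) ^ r + (H i + 1) ^ s ≤ (H i + 1) ^ (r + s) * 2 := by omega
          _ ≤ (H i + 1) ^ (r + s) * (H i + 1) := Nat.mul_le_mul_left _ hb
      calc |n + m| ≤ |n| + |m| := abs_add_le _ _
        _ ≤ ((H i + 1) ^ r : ℕ) + ((H i + 1) ^ s : ℕ) := add_le_add hn hm
        _ ≤ ((H i + 1) ^ (r + s + 1) : ℕ) := by exact_mod_cast e3
    · rw [Pi.add_apply, hfn, hgm]
      push_cast
      rfl
  zero_mem' := ⟨0, Filter.Eventually.of_forall fun i => ⟨0, by simp, by simp⟩⟩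
  neg_mem' := by
    rintro f ⟨r, hf⟩
    refine ⟨r, ?_⟩
    filter_upwards [hf] with i h1
    obtain ⟨n, hn, hfn⟩ := h1
    refine ⟨-n, by rwa [abs_neg], ?_⟩
    rw [Pi.neg_apply, hfn]
    push_cast
    rfl

/-- Row G4.  Lifting to characteristic zero along an ultrafilter, preserving all relations of small height.
Recipe: `W, F, α, β, π` from G3.  `A` = image under `α` of the subring of all `(n_i)` in `∀ i, ℤ_[p i]` such that for some `r : ℕ` for `U`-almost all `i` the entry is (the image of) an integer `n_i` with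
`|n_i| ≤ (H i + 1)^r`.  It is a subring (`H i + 1 ≥ 2`, products `r + r'`, sums `r + r' + 1`) and `π w = 0` implies `w = 0` on it: `p i ∣ n_i` and `|n_i| < p i` give `n_i = 0`.  G2 gives `B`; let `a', b', c', l' j` be representatives
in `∀ i, ℤ_[p i]` of elements of `B` lying over `β a`, `β b`, `β c`, `β (l j)`: the congruences hold for `U`-almost all `i`.  If the last statement fails for `U`-almost all `i` choose the integers
`x, y, z, x', y', z'` for these `i` (`0` for the others); the corresponding expression in `W` is in `B` (all entries in `A` or `B`), it is mapped to `0` by `π`, so it is `0`, so it vanishes for `U`-almost all `i`, contradiction. -/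
theorem G4 (d : ℕ) (p : ℕ → ℕ) [∀ i, Fact (p i).Prime] (U : Ultrafilter ℕ) (H : ℕ → ℕ) (hH : ∀ i, 1 ≤ H i)
    (hp : ∀ r : ℕ, ∀ᶠ i in (U : Filter ℕ), (H i + 1) ^ r < p i)
    (a b c : ∀ i, ZMod (p i)) (l : Fin d → ∀ i, ZMod (p i)) :
    ∃ (a' b' c' : ∀ i, ℤ_[p i]) (l' : Fin d → ∀ i, ℤ_[p i]), ∀ᶠ i in (U : Filter ℕ),
      PadicInt.toZMod (a' i) = a i ∧ PadicInt.toZMod (b' i) = b i ∧ PadicInt.toZMod (c' i) = c i ∧
      (∀ j, PadicInt.toZMod (l' j i) = l j i) ∧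
      ∀ x y z x' y' z' : Fin d → ℤ, (∀ j, |x j| ≤ H i) → (∀ j, |y j| ≤ H i) → (∀ j, |z j| ≤ H i) →
        (∀ j, |x' j| ≤ H i) → (∀ j, |y' j| ≤ H i) → (∀ j, |z' j| ≤ H i) →
        a i * (∑ j, (x j : ZMod (p i)) * l j i) * (∑ j, (y' j : ZMod (p i)) * l j i) * (∑ j, (z' j : ZMod (p i)) * l j i) +
        b i * (∑ j, (y j : ZMod (p i)) * l j i) * (∑ j, (x' j : ZMod (p i)) * l j i) * (∑ j, (z' j : ZMod (p i)) * l j i) +
        c i * (∑ j, (z j : ZMod (p i)) * l j i) * (∑ j, (x' j : ZMod (p i)) * l j i) * (∑ j, (y' j : ZMod (p i)) * l j i) = 0 →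
        a' i * (∑ j, (x j : ℤ_[p i]) * l' j i) * (∑ j, (y' j : ℤ_[p i]) * l' j i) * (∑ j, (z' j : ℤ_[p i]) * l' j i) +
        b' i * (∑ j, (y j : ℤ_[p i]) * l' j i) * (∑ j, (x' j : ℤ_[p i]) * l' j i) * (∑ j, (z' j : ℤ_[p i]) * l' j i) +
        c' i * (∑ j, (z j : ℤ_[p i]) * l' j i) * (∑ j, (x' j : ℤ_[p i]) * l' j i) * (∑ j, (y' j : ℤ_[p i]) * l' j i) = 0 := by
  classical
  have hp' : ∀ n : ℕ, ∀ᶠ i in (U : Filter ℕ), n < p i := by
    intro n
    filter_upwards [hp n] with i hi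
    have h2 : n < 2 ^ n := Nat.lt_two_pow_self
    have h3 : 2 ^ n ≤ (H i + 1) ^ n := Nat.pow_le_pow_left (by have := hH i; omega) n
    omega
  obtain ⟨W, F, _, _, _, α, β, π, hα, hβ, hπs, hα0, hβ0, hπ, hu, hh⟩ := G3 p U hp'
  have h3 : ∀ w ∈ (smallInt p U H hH).map α, π w = 0 → w = 0 := by
    rintro w ⟨f, ⟨r, hf⟩, rfl⟩ hw
    rw [hπ, hβ0] at hw
    rw [hα0]
    filter_upwards [hf, hw, hp r] with i h1 h2 h4
    obtain ⟨n, hn, hfn⟩ := h1
    rw [hfn, map_intCast, ZMod.intCast_zmod_eq_zero_iff_dvd] at h2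
    have hn0 : n = 0 := by
      apply Int.eq_zero_of_abs_lt_dvd h2
      calc |n| ≤ ((H i + 1) ^ r : ℕ) := hn
        _ < (p i : ℤ) := by exact_mod_cast h4
    rw [hfn, hn0, Int.cast_zero]
  obtain ⟨B, hAB, hB0, hB⟩ := G2 W F π hu hπs hh _ h3
  have lift : ∀ g : ∀ i, ZMod (p i), ∃ f : ∀ i, ℤ_[p i], α f ∈ B ∧
      ∀ᶠ i in (U : Filter ℕ), PadicInt.toZMod (f i) = g i := by
    intro g
    obtain ⟨w, hw, hwg⟩ := hB (β g)
    obtain ⟨f, rfl⟩ := hα w
    refine ⟨f, hw, ?_⟩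
    rw [hπ] at hwg
    have h4 : β ((fun i => PadicInt.toZMod (f i)) - g) = 0 := by
      rw [map_sub, hwg, sub_self]
    rw [hβ0] at h4
    filter_upwards [h4] with i hi
    exact sub_eq_zero.1 hi
  obtain ⟨a', haB, ha⟩ := lift a
  obtain ⟨b', hbB, hb⟩ := lift b
  obtain ⟨c', hcB, hc⟩ := lift c
  choose l' hlB hl using fun j => lift (l j)
  have hl' : ∀ᶠ i in (U : Filter ℕ), ∀ j, PadicInt.toZMod (l' j i) = l j i :=
    Filter.eventually_all.2 hl
  refine ⟨a', b', c', l', ?_⟩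
  set P : ℕ → Prop := fun i =>
      ∀ x y z x' y' z' : Fin d → ℤ, (∀ j, |x j| ≤ H i) → (∀ j, |y j| ≤ H i) → (∀ j, |z j| ≤ H i) →
        (∀ j, |x' j| ≤ H i) → (∀ j, |y' j| ≤ H i) → (∀ j, |z' j| ≤ H i) →
        ex (a i) (b i) (c i) (fun j => l j i) (fun j => (x j : ZMod (p i))) (fun j => (y j : ZMod (p i)))
          (fun j => (z j : ZMod (p i))) (fun j => (x' j : ZMod (p i))) (fun j => (y' j : ZMod (p i)))
          (fun j => (z' j : ZMod (p i))) = 0 →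
        ex (a' i) (b' i) (c' i) (fun j => l' j i) (fun j => (x j : ℤ_[p i])) (fun j => (y j : ℤ_[p i]))
          (fun j => (z j : ℤ_[p i])) (fun j => (x' j : ℤ_[p i])) (fun j => (y' j : ℤ_[p i]))
          (fun j => (z' j : ℤ_[p i])) = 0 with hPdef
  have hP : ∀ᶠ i in (U : Filter ℕ), P i := by
    by_contra hcon
    rw [← Ultrafilter.eventually_not] at hcon
    have hch : ∀ i, ∃ x y z x' y' z' : Fin d → ℤ, ((∀ j, |x j| ≤ H i) ∧ (∀ j, |y j| ≤ H i) ∧ (∀ j, |z j| ≤ H i) ∧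
        (∀ j, |x' j| ≤ H i) ∧ (∀ j, |y' j| ≤ H i) ∧ (∀ j, |z' j| ≤ H i)) ∧
        ex (a i) (b i) (c i) (fun j => l j i) (fun j => (x j : ZMod (p i))) (fun j => (y j : ZMod (p i)))
          (fun j => (z j : ZMod (p i))) (fun j => (x' j : ZMod (p i))) (fun j => (y' j : ZMod (p i)))
          (fun j => (z' j : ZMod (p i))) = 0 ∧
        (¬ P i → ex (a' i) (b' i) (c' i) (fun j => l' j i) (fun j => (x j : ℤ_[p i])) (fun j => (y j : ℤ_[p i]))
          (fun j => (z j : ℤ_[p i])) (fun j => (x' j : ℤ_[p i])) (fun j => (y' j : ℤ_[p i]))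
          (fun j => (z' j : ℤ_[p i])) ≠ 0) := by
      intro i
      by_cases hi : P i
      · refine ⟨fun _ => 0, fun _ => 0, fun _ => 0, fun _ => 0, fun _ => 0, fun _ => 0, ?_, ?_, fun h => absurd hi h⟩
        · simp
        · simp [ex]
      · have hi' := hi
        simp only [hPdef] at hi'
        push Not at hi'
        obtain ⟨x, y, z, x', y', z', q1, q2, q3, q4, q5, q6, q7, q8⟩ := hi'
        exact ⟨x, y, z, x', y', z', ⟨q1, q2, q3, q4, q5, q6⟩, q7, fun _ => q8⟩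
    choose x y z x' y' z' hbd hmod hne using hch
    have hmem : ∀ w : ∀ i, Fin d → ℤ, (∀ i j, |w i j| ≤ H i) → ∀ j,
        α (fun i => ((w i j : ℤ) : ℤ_[p i])) ∈ B := by
      intro w hw j
      apply hAB
      refine ⟨_, ⟨1, Filter.Eventually.of_forall fun i => ⟨w i j, ?_, rfl⟩⟩, rfl⟩
      have := hw i j
      push_cast
      linarith
    set E : ∀ i, ℤ_[p i] := ex a' b' c' l' (fun j i => (x i j : ℤ_[p i])) (fun j i => (y i j : ℤ_[p i]))
      (fun j i => (z i j : ℤ_[p i])) (fun j i => (x' i j : ℤ_[p i])) (fun j i => (y' i j : ℤ_[p i]))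
      (fun j i => (z' i j : ℤ_[p i])) with hE
    have hEi : ∀ i, E i = ex (a' i) (b' i) (c' i) (fun j => l' j i) (fun j => (x i j : ℤ_[p i]))
        (fun j => (y i j : ℤ_[p i])) (fun j => (z i j : ℤ_[p i])) (fun j => (x' i j : ℤ_[p i]))
        (fun j => (y' i j : ℤ_[p i])) (fun j => (z' i j : ℤ_[p i])) := by
      intro i
      exact map_ex (Pi.evalRingHom (fun i => ℤ_[p i]) i) _ _ _ _ _ _ _ _ _ _
    have hEB : α E ∈ B := by
      rw [hE, map_ex]
      exact mem_ex B _ _ _ _ _ _ _ _ _ _ haB hbB hcB hlB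
        (hmem x fun i => (hbd i).1) (hmem y fun i => (hbd i).2.1) (hmem z fun i => (hbd i).2.2.1)
        (hmem x' fun i => (hbd i).2.2.2.1) (hmem y' fun i => (hbd i).2.2.2.2.1)
        (hmem z' fun i => (hbd i).2.2.2.2.2)
    have hE0 : α E = 0 := by
      apply hB0 _ hEB
      rw [hπ, hβ0]
      filter_upwards [ha, hb, hc, hl'] with i h1 h2 h4 h5
      rw [hEi, map_ex, h1, h2, h4]
      simp only [h5, map_intCast]
      exact hmod i
    rw [hα0] at hE0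
    have hF : ∀ᶠ i in (U : Filter ℕ), False := by
      filter_upwards [hE0, hcon] with i h1 h2
      rw [hEi] at h1
      exact hne i h2 h1
    obtain ⟨i, hi⟩ := hF.exists
    exact hi
  filter_upwards [ha, hb, hc, hl', hP] with i h1 h2 h4 h5 h6
  exact ⟨h1, h2, h4, h5, h6⟩

end Pool.Agent.R1
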