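import Mathlib
import Pool.Agent.Lib.MP_1e1895_co.DefsG
import Pool.Agent.Lib.MP_1e1895_co.G4

set_option autoImplicit false

namespace Pool.Agent.R1

/-- Row G5.  Quotients of progressions.
Recipe: otherwise for every `m = i` there are a prime `p i`, `a i, b i, c i`, `l i : Fin d → ZMod (p i)`, `H i` with `(H i + 1)^i ≤ p i` and no colouring.  `H i ≥ 1` (for `H = 0` the set `Quo l 0` has no nonzero element; `Fin C` is not empty, apply `h` to `ℚ`).
`U` = hyperfilter; for `i > r`: `(H i + 1)^r < (H i + 1)^i ≤ p i`.  G4; choose an `i` for which the conclusion holds.  `K = ℚ_[p i]` with the coefficients `a' i`, `b' i`, `c' i`: `ZSF` since the reductions of the subset sums are nonzero.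
`χ₀` from `h`.  Colour `t ∈ Quo (l i) (H i)` by the colour of `(∑ x_j l'_j)/(∑ x'_j l'_j)` for a chosen pair `x, x'` with `t * ∑ x'_j l_j = ∑ x_j l_j`, `∑ x'_j l_j ≠ 0`.  A monochromatic solution `x, y, z` in `ZMod (p i)`: multiply the equation by the three
denominators, apply G4, divide again (numerators and denominators are nonzero since their reductions are). -/
theorem G5 (C : ℕ) (h : ∀ (K : Type) [Field K] [CharZero K] (a b c : K), ZSF a b c → Good C a b c) (d : ℕ) :
    ∃ m : ℕ, ∀ (p : ℕ) [Fact p.Prime] (a b c : ZMod p), ZSF a b c → ∀ (l : Fin d → ZMod p) (H : ℕ), (H + 1) ^ m ≤ p →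
      ∃ χ : ZMod p → Fin C, ∀ x ∈ Quo l H, ∀ y ∈ Quo l H, ∀ z ∈ Quo l H, x ≠ 0 → y ≠ 0 → z ≠ 0 →
        a * x + b * y + c * z = 0 → ¬ (χ x = χ y ∧ χ y = χ z) := by
  classical
  -- the number of colours is positive
  have hC : 0 < C := by
    obtain ⟨χ, -⟩ := h ℚ 1 1 1 ⟨by norm_num, by norm_num, by norm_num, by norm_num, by norm_num,
      by norm_num, by norm_num⟩
    exact (χ 0).pos
  by_contra hcon
  push Not at hcon
  choose p hpr a b c hz l H hHp hbad using hcon
  have hH : ∀ i, 1 ≤ H i := by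
    intro i
    by_contra hlt
    have hH0 : H i = 0 := by omega
    obtain ⟨x, hx, -⟩ := hbad i (fun _ => ⟨0, hC⟩)
    obtain ⟨n, n', -, hn', hne, -⟩ := hx
    apply hne
    apply Finset.sum_eq_zero
    intro j _
    have h1 := hn' j
    rw [hH0] at h1
    have h2 : n' j = 0 := by
      have := abs_nonneg (n' j)
      exact abs_eq_zero.1 (le_antisymm (by simpa using h1) this)
    rw [h2]
    simp
  let U : Ultrafilter ℕ := Filter.hyperfilter ℕ
  have hU : (U : Filter ℕ) ≤ Filter.atTop := by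
    have := Filter.hyperfilter_le_cofinite (α := ℕ)
    rwa [Nat.cofinite_eq_atTop] at this
  have hp : ∀ r : ℕ, ∀ᶠ i in (U : Filter ℕ), (H i + 1) ^ r < p i := by
    intro r
    have h1 : ∀ᶠ i in (U : Filter ℕ), r < i := hU (Filter.eventually_gt_atTop r)
    filter_upwards [h1] with i hi
    calc (H i + 1) ^ r < (H i + 1) ^ i := Nat.pow_lt_pow_right (by have := hH i; omega) hi
      _ ≤ p i := hHp i
  obtain ⟨a', b', c', l', hG⟩ := G4 d p U H hH hp a b c (fun j i => l i j)
  obtain ⟨i, ha, hb, hc, hl, hrel⟩ := hG.exists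
  have hbadi := hbad i
  obtain ⟨z1, z2, z3, z4, z5, z6, z7⟩ := hz i
  clear hG
  -- reductions
  have hred : ∀ u : ℤ_[p i], PadicInt.toZMod u ≠ 0 → (u : ℚ_[p i]) ≠ 0 := by
    intro u hu h0
    apply hu
    have : u = 0 := by
      apply Subtype.ext
      exact h0
    rw [this, map_zero]
  have hsum : ∀ n : Fin d → ℤ, PadicInt.toZMod (∑ j, (n j : ℤ_[p i]) * l' j i) =
      ∑ j, (n j : ZMod (p i)) * l i j := by
    intro n
    rw [map_sum]
    apply Finset.sum_congr rfl
    intro j _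
    rw [map_mul, map_intCast, hl j]
  have hz' : ZSF ((a' i : ℤ_[p i]) : ℚ_[p i]) ((b' i : ℤ_[p i]) : ℚ_[p i]) ((c' i : ℤ_[p i]) : ℚ_[p i]) := by
    refine ⟨hred _ (by rw [ha]; exact z1), hred _ (by rw [hb]; exact z2), hred _ (by rw [hc]; exact z3),
      ?_, ?_, ?_, ?_⟩
    · have := hred (a' i + b' i) (by rw [map_add, ha, hb]; exact z4)
      rwa [PadicInt.coe_add] at this
    · have := hred (a' i + c' i) (by rw [map_add, ha, hc]; exact z5)
      rwa [PadicInt.coe_add] at this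
    · have := hred (b' i + c' i) (by rw [map_add, hb, hc]; exact z6)
      rwa [PadicInt.coe_add] at this
    · have := hred (a' i + b' i + c' i) (by rw [map_add, map_add, ha, hb, hc]; exact z7)
      rwa [PadicInt.coe_add, PadicInt.coe_add] at this
  obtain ⟨χ₀, hχ₀⟩ := h ℚ_[p i] _ _ _ hz'
  set L : (Fin d → ℤ) → ZMod (p i) := fun n => ∑ j, (n j : ZMod (p i)) * l i j with hL
  set L' : (Fin d → ℤ) → ℤ_[p i] := fun n => ∑ j, (n j : ℤ_[p i]) * l' j i with hL'
  have hLL : ∀ n, PadicInt.toZMod (L' n) = L n := hsum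
  have hq : ∀ x ∈ Quo (l i) (H i), ∃ n n' : Fin d → ℤ, (∀ j, |n j| ≤ H i) ∧ (∀ j, |n' j| ≤ H i) ∧
      L n' ≠ 0 ∧ x * L n' = L n := fun x hx => hx
  let χ : ZMod (p i) → Fin C := fun x =>
    if hx : x ∈ Quo (l i) (H i) then
      χ₀ ((L' (hq x hx).choose : ℚ_[p i]) / (L' (hq x hx).choose_spec.choose : ℚ_[p i]))
    else ⟨0, hC⟩
  obtain ⟨x, hx, y, hy, z, hzq, hx0, hy0, hz0, heq, hxy, hyz⟩ := hbadi χ
  have ex : χ x = χ₀ ((L' (hq x hx).choose : ℚ_[p i]) / (L' (hq x hx).choose_spec.choose : ℚ_[p i])) := by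
    simp only [χ, dif_pos hx]
  have ey : χ y = χ₀ ((L' (hq y hy).choose : ℚ_[p i]) / (L' (hq y hy).choose_spec.choose : ℚ_[p i])) := by
    simp only [χ, dif_pos hy]
  have ez : χ z = χ₀ ((L' (hq z hzq).choose : ℚ_[p i]) / (L' (hq z hzq).choose_spec.choose : ℚ_[p i])) := by
    simp only [χ, dif_pos hzq]
  obtain ⟨x1, x2, x3, x4⟩ := (hq x hx).choose_spec.choose_spec
  obtain ⟨y1, y2, y3, y4⟩ := (hq y hy).choose_spec.choose_spec
  obtain ⟨w1, w2, w3, w4⟩ := (hq z hzq).choose_spec.choose_spec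
  rw [ex, ey] at hxy
  rw [ey, ez] at hyz
  generalize (hq x hx).choose_spec.choose = nx' at *
  generalize (hq x hx).choose = nx at *
  generalize (hq y hy).choose_spec.choose = ny' at *
  generalize (hq y hy).choose = ny at *
  generalize (hq z hzq).choose_spec.choose = nz' at *
  generalize (hq z hzq).choose = nz at *
  have X0 : L nx ≠ 0 := by rw [← x4]; exact mul_ne_zero hx0 x3
  have Y0 : L ny ≠ 0 := by rw [← y4]; exact mul_ne_zero hy0 y3
  have Z0 : L nz ≠ 0 := by rw [← w4]; exact mul_ne_zero hz0 w3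
  have r1 := hred (L' nx) (by rw [hLL]; exact X0)
  have r2 := hred (L' nx') (by rw [hLL]; exact x3)
  have r3 := hred (L' ny) (by rw [hLL]; exact Y0)
  have r4 := hred (L' ny') (by rw [hLL]; exact y3)
  have r5 := hred (L' nz) (by rw [hLL]; exact Z0)
  have r6 := hred (L' nz') (by rw [hLL]; exact w3)
  have key := hrel nx ny nz nx' ny' nz' x1 y1 w1 x2 y2 w2 (by
    change a i * L nx * L ny' * L nz' + b i * L ny * L nx' * L nz' + c i * L nz * L nx' * L ny' = 0
    rw [← x4, ← y4, ← w4]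
    linear_combination (L nx' * L ny' * L nz') * heq)
  have key' : (a' i : ℚ_[p i]) * L' nx * L' ny' * L' nz' + (b' i : ℚ_[p i]) * L' ny * L' nx' * L' nz' +
      (c' i : ℚ_[p i]) * L' nz * L' nx' * L' ny' = 0 := by
    have h5 : a' i * L' nx * L' ny' * L' nz' + b' i * L' ny * L' nx' * L' nz' +
      c' i * L' nz * L' nx' * L' ny' = 0 := key
    have h6 := congrArg (fun u : ℤ_[p i] => (u : ℚ_[p i])) h5
    simpa only [PadicInt.coe_add, PadicInt.coe_mul, PadicInt.coe_zero] using h6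
  refine hχ₀ ((L' nx : ℚ_[p i]) / L' nx') ((L' ny : ℚ_[p i]) / L' ny') ((L' nz : ℚ_[p i]) / L' nz')
    (div_ne_zero r1 r2) (div_ne_zero r3 r4) (div_ne_zero r5 r6) ?_ ⟨hxy, hyz⟩
  field_simp
  linear_combination key'

end Pool.Agent.R1
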