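import Mathlib

/-!
# MP_1e1895_co: colourings by cells of dilates
-/

set_option autoImplicit false

namespace Pool.Agent.Lib.MP_1e1895_co.Ht

open Finset

/-- absolute value of the least absolute residue -/
def ab {q : ℕ} (u : ZMod q) : ℕ := u.valMinAbs.natAbs

lemma ab_min {q : ℕ} [NeZero q] (u : ZMod q) (z : ℤ) (h : u = (z : ZMod q)) : ab u ≤ z.natAbs := by
  unfold ab
  refine ZMod.natAbs_min_of_le_div_two q _ z ?_ (ZMod.natAbs_valMinAbs_le u)
  rw [ZMod.coe_valMinAbs, h]

lemma cellsum {k q : ℕ} [NeZero q] (I : Finset (Fin k)) (a : Fin k → ZMod q) (t : ZMod q)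
    (x : Fin k → ZMod q) (i₀ : Fin k) (M : ℕ)
    (hcell : ∀ j ∈ I, (a j * t * x j).val * M / q = (a j * t * x i₀).val * M / q)
    (hsum : ∑ j ∈ I, a j * x j = 0) :
    ab ((∑ j ∈ I, a j) * t * x i₀) * M ≤ k * q := by
  have hq0 : 0 < q := Nat.pos_of_ne_zero (NeZero.ne q)
  set D : Fin k → ℤ := fun j => ((a j * t * x j).val : ℤ) - ((a j * t * x i₀).val : ℤ) with hD
  have hDle : ∀ j ∈ I, |D j| * M ≤ q := by
    intro j hj
    have h := hcell j hj
    set A := (a j * t * x j).val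
    set B := (a j * t * x i₀).val
    have hA := Nat.div_add_mod (A * M) q
    have hB := Nat.div_add_mod (B * M) q
    have hA' := Nat.mod_lt (A * M) hq0
    have hB' := Nat.mod_lt (B * M) hq0
    rw [h] at hA
    have e : |D j| * M = |(A : ℤ) * M - B * M| := by
      rw [← sub_mul, abs_mul]
      congr 1
      simp
    rw [e, abs_le]
    have hA2 : ((A * M : ℕ) : ℤ) = ((q * (B * M / q) + A * M % q : ℕ) : ℤ) := by rw [hA]
    have hB2 : ((B * M : ℕ) : ℤ) = ((q * (B * M / q) + B * M % q : ℕ) : ℤ) := by rw [hB]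
    push_cast at hA2 hB2
    have hA3 : ((A * M % q : ℕ) : ℤ) < q := by exact_mod_cast hA'
    have hB3 : ((B * M % q : ℕ) : ℤ) < q := by exact_mod_cast hB'
    have hA4 : (0 : ℤ) ≤ ((A * M % q : ℕ) : ℤ) := by positivity
    have hB4 : (0 : ℤ) ≤ ((B * M % q : ℕ) : ℤ) := by positivity
    push_cast at hA3 hB3 hA4 hB4
    constructor <;> linarith
  have hsumD : (∑ j ∈ I, a j) * t * x i₀ = ((-(∑ j ∈ I, D j) : ℤ) : ZMod q) := by
    push_cast [hD]
    simp only [ZMod.natCast_val, ZMod.cast_id', id_eq]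
    rw [Finset.sum_sub_distrib]
    have h1 : ∑ j ∈ I, a j * t * x j = 0 := by
      have : ∑ j ∈ I, a j * t * x j = t * ∑ j ∈ I, a j * x j := by
        rw [Finset.mul_sum]
        exact Finset.sum_congr rfl (fun j _ => by ring)
      rw [this, hsum, mul_zero]
    have h2 : ∑ j ∈ I, a j * t * x i₀ = (∑ j ∈ I, a j) * t * x i₀ := by
      rw [Finset.sum_mul, Finset.sum_mul]
    rw [h1, h2, zero_sub, neg_neg]
  have hle := ab_min _ _ hsumD
  have h3 : |∑ j ∈ I, D j| * (M : ℤ) ≤ k * q := by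
    have h1 : |∑ j ∈ I, D j| ≤ ∑ j ∈ I, |D j| := Finset.abs_sum_le_sum_abs _ _
    have h2 : (∑ j ∈ I, |D j| * (M : ℤ)) ≤ ∑ _j ∈ I, (q : ℤ) := Finset.sum_le_sum hDle
    rw [← Finset.sum_mul] at h2
    simp only [Finset.sum_const, nsmul_eq_mul] at h2
    have hc : (I.card : ℤ) ≤ k := by
      have := Finset.card_le_univ I
      simp only [Fintype.card_fin] at this
      exact_mod_cast this
    have hM : (0 : ℤ) ≤ M := by positivity
    have hq : (0 : ℤ) ≤ q := by positivity
    calc |∑ j ∈ I, D j| * (M : ℤ) ≤ (∑ j ∈ I, |D j|) * M := mul_le_mul_of_nonneg_right h1 hM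
      _ ≤ I.card * q := h2
      _ ≤ k * q := mul_le_mul_of_nonneg_right hc hq
  have h4 : ((ab ((∑ j ∈ I, a j) * t * x i₀) * M : ℕ) : ℤ) ≤ ((k * q : ℕ) : ℤ) := by
    push_cast
    have h5 : ((ab ((∑ j ∈ I, a j) * t * x i₀) : ℕ) : ℤ) ≤ |∑ j ∈ I, D j| := by
      have : ((-(∑ j ∈ I, D j)).natAbs : ℤ) = |∑ j ∈ I, D j| := by
        rw [Int.natCast_natAbs, abs_neg]
      rw [← this]
      exact_mod_cast hle
    calc ((ab ((∑ j ∈ I, a j) * t * x i₀) : ℕ) : ℤ) * M ≤ |∑ j ∈ I, D j| * M :=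
          mul_le_mul_of_nonneg_right h5 (by positivity)
      _ ≤ k * q := h3
  exact_mod_cast h4

lemma count_small (q : ℕ) [NeZero q] (K : ℕ) (hK : 0 < K) :
    (Finset.univ.filter (fun w : ZMod q => ab w * K ≤ q)).card ≤ 2 * (q / K) + 1 := by
  classical
  have h1 : Finset.univ.filter (fun w : ZMod q => ab w * K ≤ q) ⊆
      (Finset.Icc (-((q / K : ℕ) : ℤ)) ((q / K : ℕ) : ℤ)).image (fun z : ℤ => (z : ZMod q)) := by
    intro w hw
    simp only [mem_filter, mem_univ, true_and] at hw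
    simp only [mem_image, mem_Icc]
    refine ⟨w.valMinAbs, ?_, ZMod.coe_valMinAbs w⟩
    have h2 : ab w ≤ q / K := (Nat.le_div_iff_mul_le hK).2 hw
    unfold ab at h2
    omega
  refine (Finset.card_le_card h1).trans (Finset.card_image_le.trans ?_)
  rw [Int.card_Icc]
  omega

/-- greedy choice -/
lemma greedy {T X : Type*} [Fintype T] [DecidableEq X] [Nonempty T] (R : T → X → Prop)
    [∀ t x, Decidable (R t x)] (Y₀ : Finset X)
    (hR : ∀ x ∈ Y₀, Fintype.card T ≤ 2 * (Finset.univ.filter (fun t => R t x)).card) :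
    ∀ (n : ℕ) (Y : Finset X), Y ⊆ Y₀ → Y.card < 2 ^ n →
      ∃ f : Fin n → T, ∀ y ∈ Y, ∃ i, R (f i) y := by
  classical
  intro n
  induction n with
  | zero =>
    intro Y _ hc
    have : Y = ∅ := by
      rw [← Finset.card_eq_zero]; simpa using hc
    subst this
    exact ⟨fun i => i.elim0, by simp⟩
  | succ n ih =>
    intro Y hY hc
    have hex : ∃ t : T, Y.card ≤ 2 * (Y.filter (fun y => R t y)).card := by
      by_contra hcon
      push Not at hcon
      have h1 : ∑ t : T, 2 * (Y.filter (fun y => R t y)).card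
          = ∑ y ∈ Y, 2 * (Finset.univ.filter (fun t => R t y)).card := by
        rw [← Finset.mul_sum, ← Finset.mul_sum]
        congr 1
        have := Finset.sum_card_bipartiteAbove_eq_sum_card_bipartiteBelow
          (s := (Finset.univ : Finset T)) (t := Y) (r := R)
        simpa [Finset.bipartiteAbove, Finset.bipartiteBelow] using this
      have h2 : Y.card * Fintype.card T ≤
          ∑ y ∈ Y, 2 * (Finset.univ.filter (fun t => R t y)).card := by
        have : ∑ y ∈ Y, Fintype.card T ≤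
          ∑ y ∈ Y, 2 * (Finset.univ.filter (fun t => R t y)).card :=
          Finset.sum_le_sum (fun y hy => hR y (hY hy))
        simpa using this
      have h3 : ∑ t : T, 2 * (Y.filter (fun y => R t y)).card < ∑ _t : T, Y.card :=
        Finset.sum_lt_sum_of_nonempty Finset.univ_nonempty (fun t _ => hcon t)
      rw [h1] at h3
      simp only [Finset.sum_const, Finset.card_univ, smul_eq_mul] at h3
      have : Y.card * Fintype.card T < Fintype.card T * Y.card := lt_of_le_of_lt h2 h3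
      rw [mul_comm] at this
      exact lt_irrefl _ this
    obtain ⟨t, ht⟩ := hex
    have hsplit := Finset.card_filter_add_card_filter_not (s := Y) (fun y => R t y)
    obtain ⟨f, hf⟩ := ih (Y.filter (fun y => ¬ R t y))
      ((Finset.filter_subset _ _).trans hY) (by rw [pow_succ] at hc; omega)
    refine ⟨Fin.cons t f, ?_⟩
    intro y hy
    by_cases hyt : R t y
    · exact ⟨0, by simpa using hyt⟩
    · obtain ⟨i, hi⟩ := hf y (by simp [hy, hyt])
      exact ⟨i.succ, by simpa using hi⟩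

/-- colouring modulo a prime, good for all subsets at once, with `O (log ℓ)` colours -/
lemma modcol (k : ℕ) (ℓ : ℕ) [hl : Fact ℓ.Prime] (hbig : 2 ^ (k + 3) ≤ ℓ) (a : Fin k → ZMod ℓ)
    (ha : ∀ I : Finset (Fin k), I.Nonempty → ∑ j ∈ I, a j ≠ 0) :
    ∃ χ : ZMod ℓ → Fin (2 * (k * 2 ^ (k + 3)) ^ k * Nat.log 2 ℓ + 1),
      ∀ I : Finset (Fin k), I.Nonempty → ∀ x : Fin k → ZMod ℓ, (∀ i ∈ I, x i ≠ 0) →
        ∑ j ∈ I, a j * x j = 0 → ¬ ∀ i ∈ I, ∀ j ∈ I, χ (x i) = χ (x j) := by
  classical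
  have hl2 : 2 ≤ ℓ := hl.out.two_le
  have hl0 : 0 < ℓ := by omega
  haveI : NeZero ℓ := ⟨by omega⟩
  rcases Nat.eq_zero_or_pos k with hk0 | hk
  · subst hk0
    refine ⟨fun _ => 0, ?_⟩
    intro I hI
    obtain ⟨i, _⟩ := hI
    exact i.elim0
  let R : ZMod ℓ → ZMod ℓ → Prop := fun t u =>
    ∀ I : Finset (Fin k), I.Nonempty → ℓ < ab ((∑ j ∈ I, a j) * t * u) * 2 ^ (k + 3)
  set n := Nat.log 2 ℓ + 1 with hn
  have hK : 0 < 2 ^ (k + 3) := by positivity
  have hgr : ∃ f : Fin n → ZMod ℓ, ∀ y ∈ (Finset.univ.filter (fun y : ZMod ℓ => y ≠ 0)),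
      ∃ i, R (f i) y := by
    refine greedy (T := ZMod ℓ) R _ ?_ n _ (Finset.Subset.refl _) ?_
    · intro y hy
      simp only [Finset.mem_filter, Finset.mem_univ, true_and] at hy
      rw [ZMod.card]
      have hcompl := Finset.card_filter_add_card_filter_not (s := (univ : Finset (ZMod ℓ)))
        (fun t => R t y)
      rw [Finset.card_univ, ZMod.card] at hcompl
      have hbad : (univ.filter (fun t : ZMod ℓ => ¬ R t y)).card ≤
          2 ^ k * (2 * (ℓ / 2 ^ (k + 3)) + 1) := by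
        have hsub : univ.filter (fun t : ZMod ℓ => ¬ R t y) ⊆
            (univ.filter (fun I : Finset (Fin k) => I.Nonempty)).biUnion
              (fun I => univ.filter (fun t : ZMod ℓ =>
                ab ((∑ j ∈ I, a j) * t * y) * 2 ^ (k + 3) ≤ ℓ)) := by
          intro t ht
          simp only [mem_filter, mem_univ, true_and, R, not_forall, not_lt] at ht
          obtain ⟨I, hI, h⟩ := ht
          simp only [mem_biUnion, mem_filter, mem_univ, true_and]
          exact ⟨I, hI, h⟩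
        refine (Finset.card_le_card hsub).trans (Finset.card_biUnion_le.trans ?_)
        refine (Finset.sum_le_card_nsmul _ _ (2 * (ℓ / 2 ^ (k + 3)) + 1) ?_).trans ?_
        · intro I hI
          simp only [mem_filter, mem_univ, true_and] at hI
          refine le_trans ?_ (count_small ℓ (2 ^ (k + 3)) hK)
          have hne := ha I hI
          have hinj : Function.Injective (fun t : ZMod ℓ => (∑ j ∈ I, a j) * t * y) := by
            intro t t' h
            simp only at h
            exact mul_left_cancel₀ hne (mul_right_cancel₀ hy h)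
          refine Finset.card_le_card_of_injOn (fun t : ZMod ℓ => (∑ j ∈ I, a j) * t * y) ?_
            hinj.injOn
          intro t ht
          simp only [coe_filter, mem_univ, true_and, Set.mem_setOf_eq] at ht ⊢
          exact ht
        · rw [smul_eq_mul]
          refine Nat.mul_le_mul_right _ ?_
          refine (Finset.card_le_univ _).trans ?_
          simp
      have h8 : 2 ^ k * (2 * (ℓ / 2 ^ (k + 3)) + 1) * 2 ≤ ℓ := by
        have e1 : 2 ^ (k + 3) = 8 * 2 ^ k := by ring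
        have e2 : ℓ / 2 ^ (k + 3) * 2 ^ (k + 3) ≤ ℓ := Nat.div_mul_le_self _ _
        rw [e1] at e2 hbig
        rw [e1]
        have e3 : 2 ^ k * (2 * (ℓ / (8 * 2 ^ k)) + 1) * 2
            = 4 * (ℓ / (8 * 2 ^ k) * 2 ^ k) + 2 * 2 ^ k := by ring
        have e4 : ℓ / (8 * 2 ^ k) * (8 * 2 ^ k) = 8 * (ℓ / (8 * 2 ^ k) * 2 ^ k) := by ring
        rw [e4] at e2
        rw [e3]
        omega
      omega
    · have h1 : (Finset.univ.filter (fun y : ZMod ℓ => y ≠ 0)).card ≤ ℓ := by
        refine (Finset.card_le_univ _).trans ?_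
        simp [ZMod.card]
      exact lt_of_le_of_lt h1 (Nat.lt_pow_succ_log_self (by norm_num) ℓ)
  obtain ⟨f, hf⟩ := hgr
  set M := k * 2 ^ (k + 3) with hM
  have hM0 : 0 < M := by positivity
  have hplace : ∀ y : ZMod ℓ, ∃ i : Fin n, y ≠ 0 → R (f i) y := by
    intro y
    by_cases hy : y = 0
    · exact ⟨⟨0, by omega⟩, fun h => absurd hy h⟩
    · obtain ⟨i, hi⟩ := hf y (by simp [hy])
      exact ⟨i, fun _ => hi⟩
  choose pl hpl using hplace
  have hcell : ∀ u : ZMod ℓ, u.val * M / ℓ < M := by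
    intro u
    rw [Nat.div_lt_iff_lt_mul hl0]
    have := ZMod.val_lt u
    calc u.val * M < ℓ * M := Nat.mul_lt_mul_of_pos_right this hM0
      _ = M * ℓ := by ring
  let col : ZMod ℓ → Fin n × (Fin k → Fin M) := fun y =>
    (pl y, fun j => ⟨(a j * f (pl y) * y).val * M / ℓ, hcell _⟩)
  have hcard : Fintype.card (Fin n × (Fin k → Fin M)) ≤ 2 * M ^ k * Nat.log 2 ℓ + 1 := by
    simp only [Fintype.card_prod, Fintype.card_fin, Fintype.card_fun]
    have hlog : 1 ≤ Nat.log 2 ℓ := Nat.log_pos (by norm_num) hl2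
    have : n ≤ 2 * Nat.log 2 ℓ := by omega
    calc n * M ^ k ≤ (2 * Nat.log 2 ℓ) * M ^ k := Nat.mul_le_mul_right _ this
      _ = 2 * M ^ k * Nat.log 2 ℓ := by ring
      _ ≤ _ := Nat.le_succ _
  let e := Fintype.equivFin (Fin n × (Fin k → Fin M))
  refine ⟨fun y => Fin.castLE hcard (e (col y)), ?_⟩
  intro I hI x hx hsum hmono
  obtain ⟨i₀, hi₀⟩ := hI
  have hcol : ∀ j ∈ I, col (x j) = col (x i₀) := by
    intro j hj
    have := hmono j hj i₀ hi₀
    exact e.injective (Fin.castLE_injective hcard this)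
  have hpl' : ∀ j ∈ I, pl (x j) = pl (x i₀) := fun j hj => congrArg Prod.fst (hcol j hj)
  have h1 := cellsum I a (f (pl (x i₀))) x i₀ M (by
    intro j hj
    have h := congrArg (fun c => (c.2 j : ℕ)) (hcol j hj)
    simp only [col] at h
    rw [hpl' j hj] at h
    exact h) hsum
  have h2 := hpl (x i₀) (hx i₀ hi₀) I ⟨i₀, hi₀⟩
  rw [hM] at h1
  have h3 : ab ((∑ j ∈ I, a j) * f (pl (x i₀)) * x i₀) * (k * 2 ^ (k + 3))
      = k * (ab ((∑ j ∈ I, a j) * f (pl (x i₀)) * x i₀) * 2 ^ (k + 3)) := by ring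
  rw [h3] at h1
  have h4 := le_of_mul_le_mul_left h1 hk
  omega

end Pool.Agent.Lib.MP_1e1895_co.Ht
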