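import Mathlib

/-!
# A small prime which does not divide a given number
-/

set_option autoImplicit false

namespace Pool.Agent.Lib.MP_1e1895_co.Ht


/-- The arithmetic at the end of the next proof. -/
theorem exists_prime_aux (y M : ℕ) (hy : 4 ≤ y) (h6 : 2 * (y * y) < M + 1 + (y - 3) * M)
    (h9 : 2 ^ M ≤ 2 * (y * y)) : False := by
  obtain ⟨z, rfl⟩ : ∃ z, y = z + 4 := ⟨y - 4, by omega⟩
  have hz3 : z + 4 - 3 = z + 1 := by omega
  rw [hz3] at h6
  have h7 : (z + 4) * (2 * (z + 4)) ≤ (z + 4) * M := by nlinarith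
  have h8 : 2 * (z + 4) ≤ M := Nat.le_of_mul_le_mul_left h7 (by omega)
  have h10 : 2 ^ (2 * (z + 4)) ≤ 2 * ((z + 4) * (z + 4)) :=
    (Nat.pow_le_pow_right (by norm_num) h8).trans h9
  have h12 : z + 3 < 2 ^ (z + 3) := Nat.lt_two_pow_self
  have h13 : 2 ^ (2 * (z + 4)) = 4 * (2 ^ (z + 3) * 2 ^ (z + 3)) := by
    rw [← pow_add, show 2 * (z + 4) = (z + 3 + (z + 3)) + 2 by ring, pow_add]
    ring
  rw [h13] at h10
  have h14 : (z + 4) * (z + 4) ≤ 2 ^ (z + 3) * 2 ^ (z + 3) := Nat.mul_le_mul h12 h12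
  have h15 : 0 < (z + 4) * (z + 4) := by positivity
  omega

/-- A prime of size `O((log N)^2)` which does not divide `N`. -/
theorem exists_prime (N : ℕ) (hN : 0 < N) :
    ∃ q, q.Prime ∧ ¬ q ∣ N ∧ q ≤ 2 * (Nat.log 2 N + 4) ^ 2 := by
  by_contra hcon
  have hall : ∀ q, q.Prime → q ≤ 2 * (Nat.log 2 N + 4) ^ 2 → q ∣ N := by
    intro q hq hle
    by_contra h
    exact hcon ⟨q, hq, h, hle⟩
  clear hcon
  obtain ⟨y, hy⟩ : ∃ y, y = Nat.log 2 N + 4 := ⟨_, rfl⟩
  rw [← hy] at hall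
  have hy4 : 4 ≤ y := by omega
  obtain ⟨n, hn⟩ : ∃ n, n = y ^ 2 := ⟨_, rfl⟩
  rw [← hn] at hall
  have hn0 : 0 < n := by rw [hn]; positivity
  obtain ⟨M, hM⟩ : ∃ M, M = Nat.log 2 (2 * n) := ⟨_, rfl⟩
  have hdvd : Nat.centralBinom n ∣ N ^ M := by
    rw [← Nat.factorization_le_iff_dvd (Nat.centralBinom_ne_zero n) (pow_ne_zero _ hN.ne')]
    intro p
    rw [Nat.factorization_pow]
    by_cases hp : p.Prime
    · by_cases hpn : p ≤ 2 * n
      · have h1 : (Nat.centralBinom n).factorization p ≤ Nat.log p (2 * n) :=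
          Nat.factorization_choose_le_log
        have h2 : Nat.log p (2 * n) ≤ M := by
          rw [hM]
          exact Nat.log_anti_left (by norm_num) hp.two_le
        have h3 : 1 ≤ N.factorization p :=
          (hp.dvd_iff_one_le_factorization hN.ne').1 (hall p hp hpn)
        have h4 : M ≤ M * N.factorization p := Nat.le_mul_of_pos_right _ h3
        simpa using (h1.trans h2).trans h4
      · rw [Nat.factorization_centralBinom_eq_zero_of_two_mul_lt (by omega)]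
        exact Nat.zero_le _
    · rw [Nat.factorization_eq_zero_of_not_prime _ hp]
      exact Nat.zero_le _
  have hle : Nat.centralBinom n ≤ N ^ M := Nat.le_of_dvd (by positivity) hdvd
  have hN2 : N < 2 ^ (y - 3) := by
    have := Nat.lt_pow_succ_log_self (b := 2) (by norm_num) N
    have h : y - 3 = (Nat.log 2 N).succ := by omega
    rwa [h]
  have hle2 : N ^ M ≤ 2 ^ ((y - 3) * M) := by
    rw [pow_mul]
    exact Nat.pow_le_pow_left hN2.le M
  have hn2 : 2 * n < 2 ^ (M + 1) := by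
    rw [hM]
    exact Nat.lt_pow_succ_log_self (by norm_num) _
  have h4 : 4 ^ n ≤ 2 * n * Nat.centralBinom n :=
    Nat.four_pow_le_two_mul_self_mul_centralBinom n hn0
  have h5 : 2 ^ (2 * n) < 2 ^ (M + 1 + (y - 3) * M) := by
    calc 2 ^ (2 * n) = 4 ^ n := by rw [pow_mul]; norm_num
      _ ≤ 2 * n * Nat.centralBinom n := h4
      _ ≤ 2 * n * 2 ^ ((y - 3) * M) := Nat.mul_le_mul_left _ (hle.trans hle2)
      _ < 2 ^ (M + 1) * 2 ^ ((y - 3) * M) := Nat.mul_lt_mul_of_pos_right hn2 (by positivity)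
      _ = 2 ^ (M + 1 + (y - 3) * M) := by rw [pow_add 2 (M + 1)]
  have h6 : 2 * n < M + 1 + (y - 3) * M := (Nat.pow_lt_pow_iff_right (by norm_num)).1 h5
  have h9 : 2 ^ M ≤ 2 * n := by
    rw [hM]
    exact Nat.pow_log_le_self 2 (by positivity)
  rw [hn, pow_two] at h6 h9
  exact exists_prime_aux y M hy4 h6 h9

end Pool.Agent.Lib.MP_1e1895_co.Ht
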