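import Pool.Agent.Lib.MP_1e1895_co.HtA
import Pool.Agent.Lib.MP_1e1895_co.HtPrime

/-!
# MP_1e1895_co: colouring the integers
-/

set_option autoImplicit false

namespace Pool.Agent.Lib.MP_1e1895_co.Ht

open Finset

/-- colouring of the integers from a prime -/
lemma intprime (k : ℕ) (ℓ : ℕ) [hl : Fact ℓ.Prime] (hbig : 2 ^ (k + 3) ≤ ℓ) (hk : 1 ≤ k)
    (m : Fin k → ℤ) (hm : ∀ I : Finset (Fin k), I.Nonempty → ¬ (ℓ : ℤ) ∣ ∑ j ∈ I, m j) :
    ∃ χ : ℤ → Fin (2 * (k * 2 ^ (k + 3)) ^ k * Nat.log 2 ℓ + 1),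
      ∀ e : Fin k → ℤ, (∀ i, e i ≠ 0) → ∑ j, m j * e j = 0 → ¬ ∀ i j, χ (e i) = χ (e j) := by
  classical
  have hl1 : ℓ ≠ 1 := hl.out.ne_one
  have hl0 : (ℓ : ℤ) ≠ 0 := by exact_mod_cast hl.out.ne_zero
  obtain ⟨χ, hχ⟩ := modcol k ℓ hbig (fun i => (m i : ZMod ℓ)) (by
    intro I hI h
    apply hm I hI
    rw [← ZMod.intCast_zmod_eq_zero_iff_dvd]
    push_cast
    exact h)
  have hex : ∀ e : ℤ, ∃ (v : ℕ) (c : ℤ), e ≠ 0 → (e = (ℓ : ℤ) ^ v * c ∧ ¬ (ℓ : ℤ) ∣ c) := by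
    intro e
    by_cases h : e = 0
    · exact ⟨0, 0, fun h' => absurd h h'⟩
    · have hf : FiniteMultiplicity (ℓ : ℤ) e := by
        rw [Int.finiteMultiplicity_iff]
        exact ⟨by simpa using hl1, h⟩
      obtain ⟨c, hc1, hc2⟩ := hf.exists_eq_pow_mul_and_not_dvd
      exact ⟨_, c, fun _ => ⟨hc1, hc2⟩⟩
  choose v c hvc using hex
  refine ⟨fun e => χ ((c e : ℤ) : ZMod ℓ), ?_⟩
  intro e he hsum hmono
  have hne : (univ : Finset (Fin k)).Nonempty := ⟨⟨0, hk⟩, mem_univ _⟩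
  obtain ⟨i₀, _, hi₀⟩ := Finset.exists_min_image univ (fun i => v (e i)) hne
  set V := v (e i₀) with hV
  have hVle : ∀ i, V ≤ v (e i) := fun i => hi₀ i (mem_univ _)
  -- divide by the power
  have h1 : ∑ j, m j * ((ℓ : ℤ) ^ (v (e j) - V) * c (e j)) = 0 := by
    have h2 : (ℓ : ℤ) ^ V * ∑ j, m j * ((ℓ : ℤ) ^ (v (e j) - V) * c (e j)) = 0 := by
      rw [Finset.mul_sum, ← hsum]
      refine Finset.sum_congr rfl (fun j _ => ?_)
      conv_rhs => rw [(hvc (e j) (he j)).1]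
      have : (ℓ : ℤ) ^ (v (e j)) = (ℓ : ℤ) ^ V * (ℓ : ℤ) ^ (v (e j) - V) := by
        rw [← pow_add, Nat.add_sub_cancel' (hVle j)]
      rw [this]
      ring
    exact (mul_eq_zero.1 h2).resolve_left (pow_ne_zero _ hl0)
  have h3 : ∑ j, (m j : ZMod ℓ) * ((ℓ : ZMod ℓ) ^ (v (e j) - V) * (c (e j) : ZMod ℓ)) = 0 := by
    have := congrArg (fun z : ℤ => (z : ZMod ℓ)) h1
    push_cast at this
    simpa using this
  refine hχ (univ.filter (fun j => v (e j) = V)) ⟨i₀, by simp [hV]⟩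
    (fun j => (c (e j) : ZMod ℓ)) ?_ ?_ ?_
  · intro i _ h
    exact (hvc (e i) (he i)).2 ((ZMod.intCast_zmod_eq_zero_iff_dvd _ _).1 h)
  · rw [Finset.sum_filter]
    refine Eq.trans (Finset.sum_congr rfl (fun j _ => ?_)) h3
    by_cases hj : v (e j) = V
    · simp [hj]
    · have h4 : v (e j) - V ≠ 0 := by
        have := hVle j
        omega
      rw [if_neg hj, ZMod.natCast_self, zero_pow h4]
      ring
  · intro i _ j _
    exact hmono i j

/-- integers of absolute value at most `A` without vanishing subset sum: `O (log log A)` colours -/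
theorem intcol (k : ℕ) (hk : 1 ≤ k) : ∃ C : ℕ, ∀ A : ℕ, 2 ≤ A → ∀ m : Fin k → ℤ,
    (∀ i, |m i| ≤ A) → (∀ I : Finset (Fin k), I.Nonempty → ∑ j ∈ I, m j ≠ 0) →
    ∃ χ : ℤ → Fin (C * (Nat.log 2 (Nat.log 2 A) + 1)), ∀ e : Fin k → ℤ, (∀ i, e i ≠ 0) →
      ∑ j, m j * e j = 0 → ¬ ∀ i j, χ (e i) = χ (e j) := by
  classical
  set F := (2 ^ (k + 3)).factorial with hF
  set E := (k + 1) * 2 ^ k + F with hE
  set G := 2 * (2 * E + 4) ^ 2 with hG
  refine ⟨2 * (k * 2 ^ (k + 3)) ^ k * (Nat.log 2 G + 5) + 1, ?_⟩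
  intro A hA m hm hzs
  set S := (univ : Finset (Finset (Fin k))).filter (fun I => I.Nonempty) with hS
  set P := ∏ I ∈ S, (∑ j ∈ I, m j).natAbs with hP
  have hP0 : 0 < P := by
    rw [hP]
    refine Finset.prod_pos (fun I hI => ?_)
    rw [hS, mem_filter] at hI
    exact Int.natAbs_pos.2 (hzs I hI.2)
  have hF0 : 0 < F := Nat.factorial_pos _
  obtain ⟨q, hq, hqN, hqle⟩ := exists_prime (P * F) (Nat.mul_pos hP0 hF0)
  have hfact : Fact q.Prime := ⟨hq⟩
  have hbig : 2 ^ (k + 3) ≤ q := by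
    by_contra h
    push Not at h
    apply hqN
    exact Dvd.dvd.mul_left ((Nat.Prime.dvd_factorial hq).2 h.le) P
  have hqm : ∀ I : Finset (Fin k), I.Nonempty → ¬ (q : ℤ) ∣ ∑ j ∈ I, m j := by
    intro I hI hd
    apply hqN
    refine Dvd.dvd.mul_right ?_ F
    refine dvd_trans (Int.natCast_dvd.1 hd) ?_
    rw [hP]
    exact Finset.dvd_prod_of_mem (fun I : Finset (Fin k) => (∑ j ∈ I, m j).natAbs) (by simp [hS, hI])
  obtain ⟨χ, hχ⟩ := intprime k q hbig hk m hqm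
  have hLA : 1 ≤ Nat.log 2 A := Nat.log_pos (by norm_num) hA
  have hA1 : 1 ≤ A := by omega
  -- the size of the product
  have hkA : k * A ≤ A ^ (k + 1) := by
    rw [pow_succ]
    refine Nat.mul_le_mul_right _ ?_
    exact (Nat.lt_two_pow_self).le.trans (Nat.pow_le_pow_left hA k)
  have hone : ∀ I : Finset (Fin k), (∑ j ∈ I, m j).natAbs ≤ A ^ (k + 1) := by
    intro I
    refine le_trans ?_ hkA
    have h1 : |∑ j ∈ I, m j| ≤ (k : ℤ) * A := by
      refine (Finset.abs_sum_le_sum_abs _ _).trans ?_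
      refine (Finset.sum_le_sum (fun i _ => hm i)).trans ?_
      rw [Finset.sum_const, nsmul_eq_mul]
      have hc : (I.card : ℤ) ≤ k := by
        have := Finset.card_le_univ I
        simp only [Fintype.card_fin] at this
        exact_mod_cast this
      exact mul_le_mul_of_nonneg_right hc (by positivity)
    have h2 : (((∑ j ∈ I, m j).natAbs : ℕ) : ℤ) ≤ ((k * A : ℕ) : ℤ) := by
      rw [Int.natCast_natAbs]
      push_cast
      exact h1
    exact_mod_cast h2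
  have hPle : P ≤ A ^ ((k + 1) * 2 ^ k) := by
    rw [hP]
    refine (Finset.prod_le_pow_card S _ (A ^ (k + 1)) (fun I _ => hone I)).trans ?_
    rw [← pow_mul]
    refine Nat.pow_le_pow_right hA1 (Nat.mul_le_mul_left _ ?_)
    refine (Finset.card_le_univ S).trans ?_
    simp
  have hFle : F ≤ A ^ F := (Nat.lt_two_pow_self).le.trans (Nat.pow_le_pow_left hA F)
  have hNle : P * F ≤ A ^ E := by
    rw [hE, pow_add]
    exact Nat.mul_le_mul hPle hFle
  have hE0 : 0 < E := by omega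
  have hlogN : Nat.log 2 (P * F) ≤ E * (2 * Nat.log 2 A) := by
    have h3 : P * F < 2 ^ (E * (Nat.log 2 A + 1)) := by
      refine lt_of_le_of_lt hNle ?_
      rw [mul_comm E, pow_mul]
      exact Nat.pow_lt_pow_left (Nat.lt_pow_succ_log_self (by norm_num) A) (by omega)
    have h4 : Nat.log 2 (P * F) < E * (Nat.log 2 A + 1) :=
      Nat.log_lt_of_lt_pow (by positivity) h3
    exact h4.le.trans (Nat.mul_le_mul_left _ (by omega))
  have hy : Nat.log 2 (P * F) + 4 ≤ (2 * E + 4) * Nat.log 2 A := by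
    have e : (2 * E + 4) * Nat.log 2 A = E * (2 * Nat.log 2 A) + 4 * Nat.log 2 A := by ring
    omega
  have hqG : q ≤ G * (Nat.log 2 A) ^ 2 := by
    refine hqle.trans ?_
    have h5 := Nat.pow_le_pow_left hy 2
    calc 2 * (Nat.log 2 (P * F) + 4) ^ 2 ≤ 2 * ((2 * E + 4) * Nat.log 2 A) ^ 2 :=
          Nat.mul_le_mul_left _ h5
      _ = G * (Nat.log 2 A) ^ 2 := by rw [hG]; ring
  have hlogq : Nat.log 2 q ≤ (Nat.log 2 G + 5) * (Nat.log 2 (Nat.log 2 A) + 1) := by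
    set g := Nat.log 2 G with hg
    set b := Nat.log 2 (Nat.log 2 A) with hb
    have h6 : G < 2 ^ (g + 1) := Nat.lt_pow_succ_log_self (by norm_num) _
    have h7 : Nat.log 2 A < 2 ^ (b + 1) := Nat.lt_pow_succ_log_self (by norm_num) _
    have h8 : q < 2 ^ (g + 1 + 2 * (b + 1)) := by
      refine lt_of_le_of_lt hqG ?_
      rw [pow_add, mul_comm 2 (b + 1), pow_mul]
      have h9 : (Nat.log 2 A) ^ 2 < (2 ^ (b + 1)) ^ 2 := Nat.pow_lt_pow_left h7 (by norm_num)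
      exact Nat.mul_lt_mul_of_lt_of_lt h6 h9
    have h9 : Nat.log 2 q < g + 1 + 2 * (b + 1) := Nat.log_lt_of_lt_pow hq.ne_zero h8
    have e : (g + 5) * (b + 1) = g * b + g + 5 * b + 5 := by ring
    have h10 : 0 ≤ g * b := Nat.zero_le _
    omega
  have hcol : 2 * (k * 2 ^ (k + 3)) ^ k * Nat.log 2 q + 1 ≤
      (2 * (k * 2 ^ (k + 3)) ^ k * (Nat.log 2 G + 5) + 1) * (Nat.log 2 (Nat.log 2 A) + 1) := by
    have h11 := Nat.mul_le_mul_left (2 * (k * 2 ^ (k + 3)) ^ k) hlogq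
    have e : (2 * (k * 2 ^ (k + 3)) ^ k * (Nat.log 2 G + 5) + 1) * (Nat.log 2 (Nat.log 2 A) + 1)
        = 2 * (k * 2 ^ (k + 3)) ^ k * ((Nat.log 2 G + 5) * (Nat.log 2 (Nat.log 2 A) + 1))
          + (Nat.log 2 (Nat.log 2 A) + 1) := by ring
    rw [e]
    omega
  refine ⟨fun z => Fin.castLE hcol (χ z), ?_⟩
  intro e he hsum hmono
  exact hχ e he hsum (fun i j => Fin.castLE_injective _ (hmono i j))

end Pool.Agent.Lib.MP_1e1895_co.Ht
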