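import Pool.Agent.Lib.MP_1e1895_co.HtB

/-!
# MP_1e1895_co: from integers to residues
-/

set_option autoImplicit false

namespace Pool.Agent.Lib.MP_1e1895_co.Ht

open Finset

/-- residues `x` with `k A |t x| < p` -/
theorem central (k : ℕ) (hk : 1 ≤ k) : ∃ C : ℕ, ∀ A : ℕ, 2 ≤ A → ∀ m : Fin k → ℤ,
    (∀ i, |m i| ≤ A) → ∀ (p : ℕ) [Fact p.Prime],
    (∀ I : Finset (Fin k), I.Nonempty → ¬ (p : ℤ) ∣ ∑ j ∈ I, m j) →
    ∀ t : ZMod p, t ≠ 0 →
    ∃ χ : ZMod p → Fin (C * (Nat.log 2 (Nat.log 2 A) + 1)), ∀ x : Fin k → ZMod p,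
      (∀ i, x i ≠ 0) → (∀ i, k * A * ab (t * x i) < p) →
      ∑ j, (m j : ZMod p) * x j = 0 → ¬ ∀ i j, χ (x i) = χ (x j) := by
  obtain ⟨C, hC⟩ := intcol k hk
  refine ⟨C, ?_⟩
  intro A hA m hm p hp hzs t ht
  haveI : NeZero p := ⟨hp.out.ne_zero⟩
  obtain ⟨χ, hχ⟩ := hC A hA m hm (fun I hI h => hzs I hI (by rw [h]; exact dvd_zero _))
  refine ⟨fun x => χ ((t * x).valMinAbs), ?_⟩
  intro x hx hsmall hsum hmono
  refine hχ (fun i => (t * x i).valMinAbs) ?_ ?_ hmono
  · intro i h
    have := (ZMod.valMinAbs_eq_zero (t * x i)).1 h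
    rcases mul_eq_zero.1 this with h1 | h1
    · exact ht h1
    · exact hx i h1
  · have hp0 : (0 : ℤ) < p := by exact_mod_cast hp.out.pos
    apply Int.eq_zero_of_abs_lt_dvd (m := (p : ℤ))
    · rw [← ZMod.intCast_zmod_eq_zero_iff_dvd]
      push_cast
      have : ∑ j, (m j : ZMod p) * (t * x j) = t * ∑ j, (m j : ZMod p) * x j := by
        rw [Finset.mul_sum]
        exact Finset.sum_congr rfl (fun j _ => by ring)
      rw [this, hsum, mul_zero]
    · have h1 : |∑ j, m j * (t * x j).valMinAbs| ≤ ∑ j, |m j * (t * x j).valMinAbs| :=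
        Finset.abs_sum_le_sum_abs _ _
      have h2 : ∀ j, (k : ℤ) * |m j * (t * x j).valMinAbs| < p := by
        intro j
        have h3 : ((k * A * ab (t * x j) : ℕ) : ℤ) < p := by exact_mod_cast hsmall j
        push_cast at h3
        have h4 : ((ab (t * x j) : ℕ) : ℤ) = |(t * x j).valMinAbs| := by
          unfold ab; rw [Int.natCast_natAbs]
        rw [h4] at h3
        rw [abs_mul]
        have h5 : |m j| * |(t * x j).valMinAbs| ≤ A * |(t * x j).valMinAbs| :=
          mul_le_mul_of_nonneg_right (hm j) (abs_nonneg _)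
        have h6 : (0 : ℤ) ≤ k := by positivity
        calc (k : ℤ) * (|m j| * |(t * x j).valMinAbs|)
            ≤ k * (A * |(t * x j).valMinAbs|) := mul_le_mul_of_nonneg_left h5 h6
          _ = k * A * |(t * x j).valMinAbs| := by ring
          _ < p := h3
      have hne : Nonempty (Fin k) := ⟨⟨0, hk⟩⟩
      have h3 : (∑ j : Fin k, (k : ℤ) * |m j * (t * x j).valMinAbs|) < ∑ _j : Fin k, (p : ℤ) :=
        Finset.sum_lt_sum_of_nonempty Finset.univ_nonempty (fun j _ => h2 j)
      rw [← Finset.mul_sum] at h3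
      simp only [Finset.sum_const, Finset.card_univ, Fintype.card_fin, nsmul_eq_mul] at h3
      have hk' : (0 : ℤ) < k := by exact_mod_cast hk
      have h4 := lt_of_mul_lt_mul_left h3 hk'.le
      exact lt_of_le_of_lt h1 h4

lemma doubling {p : ℕ} [NeZero p] (w : ZMod p) (J : ℕ)
    (h : ∀ j ≤ J, 8 * ab (2 ^ j * w) < p) : 8 * (2 ^ J * ab w) < p := by
  induction J with
  | zero => simpa using h 0 le_rfl
  | succ J ih =>
    have h1 := ih (fun j hj => h j (by omega))
    have h2 := h (J + 1) le_rfl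
    have h3 : ((2 : ℤ) ^ (J + 1) * w.valMinAbs).natAbs = 2 ^ (J + 1) * ab w := by
      rw [Int.natAbs_mul, Int.natAbs_pow]; rfl
    have h4 : ((2 : ℤ) ^ (J + 1) * w.valMinAbs).natAbs ≤ ab (2 ^ (J + 1) * w) := by
      unfold ab
      refine ZMod.natAbs_min_of_le_div_two p _ _ ?_ ?_
      · simp [ZMod.coe_valMinAbs]
      · rw [h3, pow_succ]
        have : 2 ^ J * 2 * ab w = 2 * (2 ^ J * ab w) := by ring
        rw [this]
        omega
    rw [h3] at h4
    omega

/-- all nonzero residues -/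
theorem full (k : ℕ) (hk : 1 ≤ k) : ∃ C : ℕ, ∀ A : ℕ, 2 ≤ A → ∀ m : Fin k → ℤ,
    (∀ i, |m i| ≤ A) → ∀ (p : ℕ) [Fact p.Prime],
    (∀ I : Finset (Fin k), I.Nonempty → ¬ (p : ℤ) ∣ ∑ j ∈ I, m j) →
    ∃ χ : ZMod p → Fin (C * Nat.log 2 A), ∀ x : Fin k → ZMod p,
      (∀ i, x i ≠ 0) → ∑ j, (m j : ZMod p) * x j = 0 → ¬ ∀ i j, χ (x i) = χ (x j) := by
  classical
  obtain ⟨C, hC⟩ := central k hk
  refine ⟨(2 * (k + 1) + 2) * (8 * k + 1) ^ k + C, ?_⟩
  intro A hA m hm p hp hzs
  have : NeZero p := ⟨hp.out.ne_zero⟩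
  have hp0 : 0 < p := hp.out.pos
  have hne : Nonempty (Fin k) := ⟨⟨0, hk⟩⟩
  set s : ZMod p := ∑ j, (m j : ZMod p) with hs
  have hs0 : s ≠ 0 := by
    intro h
    apply hzs univ univ_nonempty
    rw [← ZMod.intCast_zmod_eq_zero_iff_dvd]
    push_cast
    exact h
  obtain ⟨χ, hχ⟩ := hC A hA m hm p hzs s hs0
  set J := Nat.log 2 (k * A) + 1 with hJ
  have hkA : k * A < 2 ^ J := Nat.lt_pow_succ_log_self (by norm_num) _
  set M := 8 * k + 1 with hM
  have hM0 : 0 < M := by omega
  have hcell : ∀ u : ZMod p, u.val * M / p < M := by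
    intro u
    rw [Nat.div_lt_iff_lt_mul hp0]
    have := ZMod.val_lt u
    calc u.val * M < p * M := Nat.mul_lt_mul_of_pos_right this hM0
      _ = M * p := by ring
  -- the choice of the dilate
  have hplace : ∀ y : ZMod p, ∃ o : Option (Fin (J + 1)),
      (∀ j : Fin (J + 1), o = some j → p ≤ 8 * ab (s * 2 ^ (j : ℕ) * y)) ∧
      (o = none → k * A * ab (s * y) < p) := by
    intro y
    by_cases h : ∃ j : Fin (J + 1), p ≤ 8 * ab (s * 2 ^ (j : ℕ) * y)
    · obtain ⟨j, hj⟩ := h
      refine ⟨some j, ?_, by simp⟩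
      intro j' hj'
      rw [Option.some_inj] at hj'
      rw [← hj']; exact hj
    · push Not at h
      refine ⟨none, by simp, fun _ => ?_⟩
      have h1 := doubling (s * y) J (by
        intro j hj
        have := h ⟨j, by omega⟩
        have e : (2 : ZMod p) ^ j * (s * y) = s * 2 ^ j * y := by ring
        rw [e]; exact this)
      have h2 : k * A * ab (s * y) ≤ 2 ^ J * ab (s * y) := Nat.mul_le_mul_right _ hkA.le
      omega
  choose pl hpl1 hpl2 using hplace
  let col : ZMod p → (Fin (J + 1) × (Fin k → Fin M)) ⊕ Fin (C * (Nat.log 2 (Nat.log 2 A) + 1)) :=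
    fun y => match pl y with
      | some j => Sum.inl (j, fun i => ⟨((m i : ZMod p) * 2 ^ (j : ℕ) * y).val * M / p, hcell _⟩)
      | none => Sum.inr (χ y)
  have hLA : 1 ≤ Nat.log 2 A := Nat.log_pos (by norm_num) hA
  have hcard : Fintype.card ((Fin (J + 1) × (Fin k → Fin M)) ⊕
      Fin (C * (Nat.log 2 (Nat.log 2 A) + 1))) ≤
      ((2 * (k + 1) + 2) * (8 * k + 1) ^ k + C) * Nat.log 2 A := by
    simp only [Fintype.card_sum, Fintype.card_prod, Fintype.card_fin, Fintype.card_fun]
    have h1 : k * A ≤ A ^ (k + 1) := by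
      rw [pow_succ]
      refine Nat.mul_le_mul_right _ ?_
      exact (Nat.lt_two_pow_self).le.trans (Nat.pow_le_pow_left hA k)
    have h2 : Nat.log 2 (k * A) ≤ (k + 1) * (2 * Nat.log 2 A) := by
      have h3 : k * A < 2 ^ ((k + 1) * (Nat.log 2 A + 1)) := by
        refine lt_of_le_of_lt h1 ?_
        rw [mul_comm (k + 1), pow_mul]
        exact Nat.pow_lt_pow_left (Nat.lt_pow_succ_log_self (by norm_num) A) (by omega)
      have h4 : Nat.log 2 (k * A) < (k + 1) * (Nat.log 2 A + 1) :=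
        Nat.log_lt_of_lt_pow (by positivity) h3
      refine h4.le.trans (Nat.mul_le_mul_left _ (by omega))
    have h5 : J + 1 ≤ (2 * (k + 1) + 2) * Nat.log 2 A := by
      have e : (2 * (k + 1) + 2) * Nat.log 2 A = (k + 1) * (2 * Nat.log 2 A) + 2 * Nat.log 2 A := by
        ring
      omega
    have h6 : Nat.log 2 (Nat.log 2 A) + 1 ≤ Nat.log 2 A := Nat.log_lt_self 2 (by omega)
    have e0 : ((2 * (k + 1) + 2) * (8 * k + 1) ^ k + C) * Nat.log 2 A =
        (2 * (k + 1) + 2) * (8 * k + 1) ^ k * Nat.log 2 A + C * Nat.log 2 A := add_mul _ _ _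
    rw [e0]
    refine Nat.add_le_add ?_ (Nat.mul_le_mul_left _ h6)
    calc (J + 1) * (8 * k + 1) ^ k ≤ ((2 * (k + 1) + 2) * Nat.log 2 A) * (8 * k + 1) ^ k :=
          Nat.mul_le_mul_right _ h5
      _ = _ := by ring
  let e := Fintype.equivFin ((Fin (J + 1) × (Fin k → Fin M)) ⊕
      Fin (C * (Nat.log 2 (Nat.log 2 A) + 1)))
  refine ⟨fun y => Fin.castLE hcard (e (col y)), ?_⟩
  intro x hx hsum hmono
  let j₀ : Fin k := ⟨0, hk⟩
  have hcol : ∀ i j, col (x i) = col (x j) := by
    intro i j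
    exact e.injective (Fin.castLE_injective hcard (hmono i j))
  rcases hcase : pl (x j₀) with _ | j
  · -- all small
    have hall : ∀ i, pl (x i) = none := by
      intro i
      have h := hcol i j₀
      rcases hi : pl (x i) with _ | j'
      · rfl
      · simp only [col, hi, hcase] at h
        exact absurd h (by simp)
    refine hχ x hx (fun i => hpl2 (x i) (hall i)) hsum ?_
    intro i j
    have h := hcol i j
    simp only [col, hall i, hall j] at h
    exact Sum.inr_injective h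
  · have hall : ∀ i, pl (x i) = some j := by
      intro i
      have h := hcol i j₀
      rcases hi : pl (x i) with _ | j'
      · simp only [col, hi, hcase] at h
        exact absurd h (by simp)
      · simp only [col, hi, hcase] at h
        have h' := Sum.inl_injective h
        exact congrArg some (congrArg Prod.fst h')
    have h1 := cellsum univ (fun i => (m i : ZMod p)) (2 ^ (j : ℕ)) x j₀ M (by
      intro i _
      have h := hcol i j₀
      simp only [col, hall i, hcase] at h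
      have h' := Sum.inl_injective h
      have h'' := congrArg (fun c => (c.2 i : ℕ)) h'
      exact h'') (by simpa using hsum)
    have h2 := hpl1 (x j₀) j hcase
    have h3 : p * M ≤ 8 * (k * p) := by
      calc p * M ≤ (8 * ab (s * 2 ^ (j : ℕ) * x j₀)) * M := Nat.mul_le_mul_right _ h2
        _ = 8 * (ab (s * 2 ^ (j : ℕ) * x j₀) * M) := by ring
        _ ≤ 8 * (k * p) := Nat.mul_le_mul_left _ h1
    rw [hM] at h3
    have h4 : p * (8 * k + 1) = 8 * (k * p) + p := by ring
    omega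

end Pool.Agent.Lib.MP_1e1895_co.Ht
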