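import Mathlib
import Pool.Agent.Lib.MP_1e1895_co.Defs
import Pool.Agent.Lib.MP_1e1895_co.E2
import Pool.Agent.Lib.MP_1e1895_co.E3
import Pool.Agent.Lib.MP_1e1895_co.E4

set_option autoImplicit false

namespace Pool.Agent.R1

/-- Row Z1.  The theorem.  Recipe: E2, E3, E4; in characteristic `p ≥ p₀` no `q` with `0 < q < p₀` vanishes (`CharP.cast_eq_zero_iff`, `Nat.le_of_dvd`). -/
theorem Z1 : ∃ C : ℕ,
    (∀ (K : Type) [Field K] [CharZero K] (a b c : K), ZSF a b c → Good C a b c) ∧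
    (∀ N : ℕ, ∃ p₀ : ℕ, ∀ p : ℕ, p₀ ≤ p → p.Prime → ∀ (K : Type) [Field K] [CharP K p] (a b c : K), ZSF a b c →
      ∀ S : Finset K, S.card ≤ N → GoodOn C a b c S) := by
  obtain ⟨C, hC⟩ := E2
  have h0 : ∀ (K : Type) [Field K] [CharZero K] (a b c : K), ZSF a b c → Good C a b c :=
    fun K _ _ a b c h => E3 C a b c (hC K a b c h)
  refine ⟨C, h0, ?_⟩
  intro N
  obtain ⟨p₀, hp₀⟩ := E4 C h0 N
  refine ⟨p₀, ?_⟩
  intro p hp hpp K _ _ a b c h S hS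
  refine hp₀ K ?_ a b c h S hS
  intro q hq hqp e
  have := Nat.le_of_dvd hq ((CharP.cast_eq_zero_iff K p q).1 e)
  omega

end Pool.Agent.R1
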